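import Pool.Agent.MP_9ab903_nt.NT.V3

/-!
# Tamagawa numbers and Néron factors: general tools
-/

set_option autoImplicit false

open scoped Classical
open IsDedekindDomain NumberField

namespace VC63

open WeierstrassCurve WeierstrassCurve.Affine SBSD

variable {A : Type} [CommRing A] [IsDomain A] [IsDiscreteValuationRing A]
  {K : Type} [Field K] [Algebra A K] [IsFractionRing A K]

/-- The index of the subgroup of nonsingular reduction does not depend on the integral
equation. -/
theorem index_minimal (I : WeierstrassCurve A) (T : WeierstrassCurve.VariableChange K)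
    (W' : WeierstrassCurve K) [W'.IsMinimal A] (h : W' = T • I.map (algebraMap A K))
    (hu : (IsDiscreteValuationRing.maximalIdeal A).valuation K (T.u : K) = 1) :
    (AddSubgroup.closure {P : W'.toAffine.Point | NonsingularReduction A W' P}).index =
      (AddSubgroup.closure {P : (I.map (algebraMap A K)).toAffine.Point | NR I P}).index := by
  subst h
  have h1 : (AddSubgroup.closure {P : (T • I.map (algebraMap A K)).toAffine.Point |
      NonsingularReduction A (T • I.map (algebraMap A K)) P}).map
        (vcEquiv (I.map (algebraMap A K)) T).toAddMonoidHom =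
      AddSubgroup.closure {P : (I.map (algebraMap A K)).toAffine.Point | NR I P} := by
    rw [AddMonoidHom.map_closure]
    congr 1
    ext Q
    constructor
    · rintro ⟨P, hP, rfl⟩
      exact (nonsingularReduction_iff I T hu P).1 hP
    · intro hQ
      obtain ⟨P, rfl⟩ := (vcFun_bijective (I.map (algebraMap A K)) T).2 Q
      exact ⟨P, (nonsingularReduction_iff I T hu P).2 hQ, rfl⟩
  rw [← h1]
  exact (AddSubgroup.index_map_equiv _ (vcEquiv (I.map (algebraMap A K)) T)).symm

/-- The Tamagawa number of a curve isomorphic to `I`. -/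
theorem tamagawa_smul (I : WeierstrassCurve A) (C : WeierstrassCurve.VariableChange K)
    (h : ∀ T : WeierstrassCurve.VariableChange K, (T • I.map (algebraMap A K)).IsMinimal A →
      (IsDiscreteValuationRing.maximalIdeal A).valuation K (T.u : K) = 1) :
    tamagawa A (C • I.map (algebraMap A K)) =
      (AddSubgroup.closure {P : (I.map (algebraMap A K)).toAffine.Point | NR I P}).index := by
  have hm := ((C • I.map (algebraMap A K)).exists_isMinimal A).choose_spec
  have e : ((C • I.map (algebraMap A K)).exists_isMinimal A).choose •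
      (C • I.map (algebraMap A K)) =
      (((C • I.map (algebraMap A K)).exists_isMinimal A).choose * C) • I.map (algebraMap A K) :=
    (mul_smul _ _ _).symm
  refine index_minimal I (((C • I.map (algebraMap A K)).exists_isMinimal A).choose * C)
    ((C • I.map (algebraMap A K)).minimal A) e (h _ ?_)
  rw [← e]
  exact hm

/-- Good reduction: all points have nonsingular reduction. -/
theorem nr_of_unit (I : WeierstrassCurve A) (hΔ : IsUnit I.Δ)
    (P : (I.map (algebraMap A K)).toAffine.Point) : NR I P := by
  have hinj : Function.Injective (algebraMap A K) := IsFractionRing.injective A K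
  rcases P with _ | ⟨x, y, h⟩
  · trivial
  · intro a b ha hb
    subst ha hb
    have h2 : I.toAffine.Equation a b := (map_equation _ hinj a b).1 h.1
    have h3 := Equation.map (IsLocalRing.residue A) h2
    refine (equation_iff_nonsingular_of_Δ_ne_zero ?_).1 h3
    have h4 : (I.map (IsLocalRing.residue A)).Δ = IsLocalRing.residue A I.Δ := map_Δ _ _
    show (I.map (IsLocalRing.residue A)).Δ ≠ 0
    rw [h4, Ne, IsLocalRing.residue_eq_zero_iff, IsLocalRing.mem_maximalIdeal]
    exact fun h' => h' hΔ

theorem unit_of_good (I : WeierstrassCurve A) (hΔ : IsUnit I.Δ)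
    (T : WeierstrassCurve.VariableChange K) (hT : (T • I.map (algebraMap A K)).IsMinimal A) :
    (IsDiscreteValuationRing.maximalIdeal A).valuation K (T.u : K) = 1 := by
  haveI : WeierstrassCurve.IsIntegral A (I.map (algebraMap A K)) := ⟨⟨I, rfl⟩⟩
  refine CMT.unit_of_lt A (I.map (algebraMap A K)) 0 (by norm_num) ?_ T hT
  rw [map_Δ, CMT.val_algebraMap_unit A _ hΔ]
  simp

theorem unit_of_irreducible_pow (I : WeierstrassCurve A) (π : A) (hπ : Irreducible π) (u : A)
    (hu : IsUnit u) (k : ℕ) (hk : k < 12) (hΔ : I.Δ = u * π ^ k)
    (T : WeierstrassCurve.VariableChange K) (hT : (T • I.map (algebraMap A K)).IsMinimal A) :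
    (IsDiscreteValuationRing.maximalIdeal A).valuation K (T.u : K) = 1 := by
  haveI : WeierstrassCurve.IsIntegral A (I.map (algebraMap A K)) := ⟨⟨I, rfl⟩⟩
  refine CMT.unit_of_lt A (I.map (algebraMap A K)) k hk ?_ T hT
  rw [map_Δ, hΔ, map_mul, map_mul, CMT.val_algebraMap_unit A _ hu, one_mul, map_pow, map_pow,
    CMT.val_irreducible A π hπ, ← WithZero.exp_nsmul]
  simp

/-- The Tamagawa number at a place of good reduction. -/
theorem tamagawa_good (I : WeierstrassCurve A) (hΔ : IsUnit I.Δ) :
    tamagawa A (I.map (algebraMap A K)) = 1 := by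
  rw [tamagawa_eq I (unit_of_good I hΔ)]
  have h1 : {P : (I.map (algebraMap A K)).toAffine.Point | NR I P} = Set.univ :=
    Set.eq_univ_of_forall (nr_of_unit I hΔ)
  rw [h1, AddSubgroup.closure_univ, AddSubgroup.index_top]

end VC63
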