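import Mathlib

/-!
# Changes of variables of Weierstrass curves: the isomorphism on points
-/

set_option autoImplicit false

open scoped Classical

namespace VC63

open WeierstrassCurve WeierstrassCurve.Affine

variable {K : Type*} [Field K] (W : WeierstrassCurve K) (T : WeierstrassCurve.VariableChange K)

/-- the `X`-coordinate on `W` of the point with `X`-coordinate `x` on `T • W` -/
def vX (x : K) : K := (T.u : K) ^ 2 * x + T.r

/-- the `Y`-coordinate on `W` of the point with coordinates `(x, y)` on `T • W` -/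
def vY (x y : K) : K := (T.u : K) ^ 3 * y + (T.u : K) ^ 2 * T.s * x + T.t

theorem u_ne : (T.u : K) ≠ 0 := T.u.ne_zero

theorem rel1 : (T.u : K) * (T • W).a₁ = W.a₁ + 2 * T.s := by
  rw [variableChange_a₁, ← mul_assoc, Units.mul_inv, one_mul]

theorem rel2 : (T.u : K) ^ 2 * (T • W).a₂ = W.a₂ - T.s * W.a₁ + 3 * T.r - T.s ^ 2 := by
  rw [variableChange_a₂, ← mul_assoc, ← mul_pow, Units.mul_inv, one_pow, one_mul]

theorem rel3 : (T.u : K) ^ 3 * (T • W).a₃ = W.a₃ + T.r * W.a₁ + 2 * T.t := by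
  rw [variableChange_a₃, ← mul_assoc, ← mul_pow, Units.mul_inv, one_pow, one_mul]

theorem rel4 : (T.u : K) ^ 4 * (T • W).a₄ = W.a₄ - T.s * W.a₃ + 2 * T.r * W.a₂ -
    (T.t + T.r * T.s) * W.a₁ + 3 * T.r ^ 2 - 2 * T.s * T.t := by
  rw [variableChange_a₄, ← mul_assoc, ← mul_pow, Units.mul_inv, one_pow, one_mul]

theorem rel6 : (T.u : K) ^ 6 * (T • W).a₆ = W.a₆ + T.r * W.a₄ + T.r ^ 2 * W.a₂ + T.r ^ 3 -
    T.t * W.a₃ - T.t ^ 2 - T.r * T.t * W.a₁ := by
  rw [variableChange_a₆, ← mul_assoc, ← mul_pow, Units.mul_inv, one_pow, one_mul]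

theorem vc_poly (x y : K) :
    vY T x y ^ 2 + W.a₁ * vX T x * vY T x y + W.a₃ * vY T x y -
      (vX T x ^ 3 + W.a₂ * vX T x ^ 2 + W.a₄ * vX T x + W.a₆) =
    (T.u : K) ^ 6 * (y ^ 2 + (T • W).a₁ * x * y + (T • W).a₃ * y -
      (x ^ 3 + (T • W).a₂ * x ^ 2 + (T • W).a₄ * x + (T • W).a₆)) := by
  simp only [vX, vY]
  linear_combination (-(T.u : K) ^ 5 * x * y) * rel1 W T - (T.u : K) ^ 3 * y * rel3 W T +
    (T.u : K) ^ 4 * x ^ 2 * rel2 W T + (T.u : K) ^ 2 * x * rel4 W T + rel6 W T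

theorem vc_polyY (x y : K) :
    2 * vY T x y + W.a₁ * vX T x + W.a₃ =
    (T.u : K) ^ 3 * (2 * y + (T • W).a₁ * x + (T • W).a₃) := by
  simp only [vX, vY]
  linear_combination (-(T.u : K) ^ 2 * x) * rel1 W T - rel3 W T

theorem vc_polyX (x y : K) :
    W.a₁ * vY T x y - (3 * vX T x ^ 2 + 2 * W.a₂ * vX T x + W.a₄) =
    (T.u : K) ^ 4 * ((T • W).a₁ * y - (3 * x ^ 2 + 2 * (T • W).a₂ * x + (T • W).a₄)) -
      T.s * (T.u : K) ^ 3 * (2 * y + (T • W).a₁ * x + (T • W).a₃) := by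
  simp only [vX, vY]
  linear_combination (-(T.u : K) ^ 3 * y + (T.u : K) ^ 2 * T.s * x) * rel1 W T +
    T.s * rel3 W T + (2 * (T.u : K) ^ 2 * x) * rel2 W T + rel4 W T

theorem vc_equation (x y : K) : (T • W).toAffine.Equation x y ↔
    W.toAffine.Equation (vX T x) (vY T x y) := by
  rw [equation_iff', equation_iff', vc_poly]
  constructor
  · intro h; rw [h, mul_zero]
  · intro h; exact (mul_eq_zero.1 h).resolve_left (pow_ne_zero _ (u_ne T))

theorem vc_nonsingular (x y : K) : (T • W).toAffine.Nonsingular x y ↔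
    W.toAffine.Nonsingular (vX T x) (vY T x y) := by
  rw [nonsingular_iff', nonsingular_iff', ← vc_equation, vc_polyY, vc_polyX]
  refine and_congr_right fun _ => ?_
  by_cases h : 2 * y + (T • W).a₁ * x + (T • W).a₃ = 0
  · rw [h, mul_zero, mul_zero, sub_zero]
    simp [u_ne T]
  · simp [u_ne T, h]

theorem vX_inj {x₁ x₂ : K} : vX T x₁ = vX T x₂ ↔ x₁ = x₂ := by
  simp [vX, u_ne T]

theorem vY_inj {x y₁ y₂ : K} : vY T x y₁ = vY T x y₂ ↔ y₁ = y₂ := by
  simp [vY, u_ne T]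

theorem vc_negY (x y : K) : W.toAffine.negY (vX T x) (vY T x y) =
    vY T x ((T • W).toAffine.negY x y) := by
  simp only [negY, vX, vY]
  linear_combination ((T.u : K) ^ 2 * x) * rel1 W T + rel3 W T

theorem vc_slope (x₁ x₂ y₁ y₂ : K) (h₁ : (T • W).toAffine.Equation x₁ y₁)
    (h₂ : (T • W).toAffine.Equation x₂ y₂)
    (h : ¬(x₁ = x₂ ∧ y₁ = (T • W).toAffine.negY x₂ y₂)) :
    W.toAffine.slope (vX T x₁) (vX T x₂) (vY T x₁ y₁) (vY T x₂ y₂) =
      (T.u : K) * (T • W).toAffine.slope x₁ x₂ y₁ y₂ + T.s := by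
  have hu := u_ne T
  by_cases hx : x₁ = x₂
  · subst hx
    have hy : y₁ ≠ (T • W).toAffine.negY x₁ y₂ := fun h' => h ⟨rfl, h'⟩
    have hyy : y₁ = y₂ := Y_eq_of_Y_ne h₁ h₂ rfl hy
    subst hyy
    have hy' : vY T x₁ y₁ ≠ W.toAffine.negY (vX T x₁) (vY T x₁ y₁) := by
      rw [vc_negY]
      intro h'
      exact hy ((vY_inj T).1 h')
    rw [slope_of_Y_ne rfl hy, slope_of_Y_ne rfl hy']
    have e1 : y₁ - (T • W).toAffine.negY x₁ y₁ = 2 * y₁ + (T • W).a₁ * x₁ + (T • W).a₃ := by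
      simp only [negY]; ring
    have e2 : vY T x₁ y₁ - W.toAffine.negY (vX T x₁) (vY T x₁ y₁) =
        2 * vY T x₁ y₁ + W.a₁ * vX T x₁ + W.a₃ := by
      simp only [negY]; ring
    have e3 : 2 * y₁ + (T • W).a₁ * x₁ + (T • W).a₃ ≠ 0 := by
      rw [← e1]; exact sub_ne_zero.2 hy
    rw [e1, e2, vc_polyY]
    have e4 := vc_polyX W T x₁ y₁
    have e5 : 3 * vX T x₁ ^ 2 + 2 * W.a₂ * vX T x₁ + W.a₄ - W.a₁ * vY T x₁ y₁ =
      (T.u : K) ^ 4 * (3 * x₁ ^ 2 + 2 * (T • W).a₂ * x₁ + (T • W).a₄ - (T • W).a₁ * y₁) +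
      T.s * (T.u : K) ^ 3 * (2 * y₁ + (T • W).a₁ * x₁ + (T • W).a₃) := by
      linear_combination -e4
    rw [e5]
    generalize 2 * y₁ + (T • W).a₁ * x₁ + (T • W).a₃ = D at e3 ⊢
    field_simp
  · have hx' : vX T x₁ ≠ vX T x₂ := fun h' => hx ((vX_inj T).1 h')
    rw [slope_of_X_ne hx, slope_of_X_ne hx']
    have e1 : x₁ - x₂ ≠ 0 := sub_ne_zero.2 hx
    have e2 : vX T x₁ - vX T x₂ = (T.u : K) ^ 2 * (x₁ - x₂) := by
      simp only [vX]; ring
    have e3 : vY T x₁ y₁ - vY T x₂ y₂ =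
      (T.u : K) ^ 3 * (y₁ - y₂) + (T.u : K) ^ 2 * T.s * (x₁ - x₂) := by
      simp only [vY]; ring
    rw [e2, e3]
    field_simp

theorem vc_addX (x₁ x₂ l : K) : W.toAffine.addX (vX T x₁) (vX T x₂) ((T.u : K) * l + T.s) =
    vX T ((T • W).toAffine.addX x₁ x₂ l) := by
  simp only [addX, vX]
  linear_combination (-(T.u : K) * l) * rel1 W T + rel2 W T

theorem vc_addY (x₁ x₂ y₁ l : K) :
    W.toAffine.addY (vX T x₁) (vX T x₂) (vY T x₁ y₁) ((T.u : K) * l + T.s) =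
    vY T ((T • W).toAffine.addX x₁ x₂ l) ((T • W).toAffine.addY x₁ x₂ y₁ l) := by
  have h1 : W.toAffine.negAddY (vX T x₁) (vX T x₂) (vY T x₁ y₁) ((T.u : K) * l + T.s) =
      vY T ((T • W).toAffine.addX x₁ x₂ l) ((T • W).toAffine.negAddY x₁ x₂ y₁ l) := by
    rw [negAddY, vc_addX]
    simp only [negAddY, vX, vY]
    ring
  rw [addY, h1, vc_addX, vc_negY]
  rfl

/-- The map on points. -/
def vcFun : (T • W).toAffine.Point → W.toAffine.Point
  | .zero => .zero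
  | .some x y h => .some (vX T x) (vY T x y) ((vc_nonsingular W T x y).1 h)

theorem vcFun_some (x y : K) (h : (T • W).toAffine.Nonsingular x y) :
    vcFun W T (.some x y h) = .some (vX T x) (vY T x y) ((vc_nonsingular W T x y).1 h) := rfl

theorem vcFun_zero : vcFun W T 0 = 0 := rfl

theorem some_congr {x₁ x₂ y₁ y₂ : K} (hx : x₁ = x₂) (hy : y₁ = y₂)
    (h₁ : W.toAffine.Nonsingular x₁ y₁) (h₂ : W.toAffine.Nonsingular x₂ y₂) :
    (Point.some x₁ y₁ h₁ : W.toAffine.Point) = Point.some x₂ y₂ h₂ := by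
  subst hx hy; rfl

theorem vcFun_add (P Q : (T • W).toAffine.Point) :
    vcFun W T (P + Q) = vcFun W T P + vcFun W T Q := by
  rcases P with _ | ⟨x₁, y₁, h₁⟩
  · exact (congrArg (vcFun W T) (zero_add Q)).trans (zero_add (vcFun W T Q)).symm
  rcases Q with _ | ⟨x₂, y₂, h₂⟩
  · exact (congrArg (vcFun W T) (add_zero _)).trans (add_zero (vcFun W T _)).symm
  by_cases h : x₁ = x₂ ∧ y₁ = (T • W).toAffine.negY x₂ y₂
  · obtain ⟨hx, hy⟩ := h
    rw [Point.add_of_Y_eq hx hy, vcFun_zero, vcFun_some, vcFun_some, Point.add_of_Y_eq]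
    · rw [hx]
    · rw [vc_negY, hy, hx]
  · have h' : ¬(vX T x₁ = vX T x₂ ∧ vY T x₁ y₁ = W.toAffine.negY (vX T x₂) (vY T x₂ y₂)) := by
      rintro ⟨hx, hy⟩
      have hx' := (vX_inj T).1 hx
      subst hx'
      rw [vc_negY] at hy
      exact h ⟨rfl, (vY_inj T).1 hy⟩
    rw [Point.add_some h, vcFun_some, vcFun_some, vcFun_some, Point.add_some h']
    have hs := vc_slope W T x₁ x₂ y₁ y₂ h₁.1 h₂.1 h
    refine some_congr W ?_ ?_ _ _
    · rw [hs, vc_addX]
    · rw [hs, vc_addY]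

theorem vcFun_bijective : Function.Bijective (vcFun W T) := by
  have hu := u_ne T
  constructor
  · intro P Q hPQ
    rcases P with _ | ⟨x₁, y₁, h₁⟩
    · rcases Q with _ | ⟨x₂, y₂, h₂⟩
      · rfl
      · exact absurd hPQ.symm (Point.some_ne_zero _)
    · rcases Q with _ | ⟨x₂, y₂, h₂⟩
      · exact absurd hPQ (Point.some_ne_zero _)
      · rw [vcFun_some, vcFun_some, Point.some.injEq] at hPQ
        obtain ⟨hx, hy⟩ := hPQ
        have hx' := (vX_inj T).1 hx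
        subst hx'
        have hy' := (vY_inj T).1 hy
        subst hy'
        rfl
  · intro P
    rcases P with _ | ⟨x, y, h⟩
    · exact ⟨0, rfl⟩
    · have e1 : vX T ((x - T.r) / (T.u : K) ^ 2) = x := by
        simp only [vX]; field_simp; ring
      have e2 : vY T ((x - T.r) / (T.u : K) ^ 2)
          ((y - T.t - T.s * (x - T.r)) / (T.u : K) ^ 3) = y := by
        simp only [vY]; field_simp; ring
      refine ⟨.some ((x - T.r) / (T.u : K) ^ 2) ((y - T.t - T.s * (x - T.r)) / (T.u : K) ^ 3) ?_, ?_⟩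
      · rw [vc_nonsingular, e1, e2]; exact h
      · rw [vcFun_some]
        exact some_congr W e1 e2 _ _

/-- The isomorphism `(T • W)(K) ≃ W(K)`. -/
noncomputable def vcEquiv : (T • W).toAffine.Point ≃+ W.toAffine.Point :=
  AddEquiv.ofBijective (AddMonoidHom.mk' (vcFun W T) (vcFun_add W T)) (vcFun_bijective W T)

theorem vcEquiv_apply (P : (T • W).toAffine.Point) : vcEquiv W T P = vcFun W T P := rfl

end VC63
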