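import Pool.Agent.MP_9ab903_nt.NT.V4
import Pool.Agent.MP_9ab903_nt.NC.Defs
import Pool.Agent.MP_ae0bd0_nt.CM.R9

/-!
# Tamagawa numbers and Néron factors of `X₀(11)`
-/

set_option autoImplicit false

open scoped Classical
open IsDedekindDomain NumberField

namespace X11

open WeierstrassCurve WeierstrassCurve.Affine SBSD VC63

theorem map_E {R S : Type*} [CommRing R] [CommRing S] (f : R →+* S) : (E R).map f = E S := by
  have h10 : f 10 = 10 := map_ofNat f 10
  have h20 : f 20 = 20 := map_ofNat f 20
  ext <;> simp [E, h10, h20]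

theorem baseChange_E (R S : Type*) [CommRing R] [CommRing S] [Algebra R S] :
    (E R).baseChange S = E S := map_E _

theorem E_Δ (R : Type*) [CommRing R] : (E R).Δ = -11 ^ 5 := by
  simp only [E, WeierstrassCurve.Δ, WeierstrassCurve.b₂, WeierstrassCurve.b₄,
    WeierstrassCurve.b₆, WeierstrassCurve.b₈]
  norm_num

/-- The change of variables to the Tate normal form. -/
def CT (R : Type*) [CommRing R] : WeierstrassCurve.VariableChange R := ⟨-1, 5, 5, 5⟩

theorem CT_smul (R : Type) [CommRing R] : CT R • E R = I5 (11 : R) := by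
  have h : ((-1 : Rˣ)⁻¹ : Rˣ) = -1 := by simp
  ext
  · rw [variableChange_a₁]; simp only [CT, E, I5, h]; push_cast; ring
  · rw [variableChange_a₂]; simp only [CT, E, I5, h]; push_cast; ring
  · rw [variableChange_a₃]; simp only [CT, E, I5, h]; push_cast; ring
  · rw [variableChange_a₄]; simp only [CT, E, I5, h]; push_cast; ring
  · rw [variableChange_a₆]; simp only [CT, E, I5, h]; push_cast; ring

theorem I5_Δ (R : Type) [CommRing R] : (I5 (11 : R)).Δ = -1 * 11 ^ 5 := by
  simp only [I5, WeierstrassCurve.Δ, WeierstrassCurve.b₂, WeierstrassCurve.b₄,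
    WeierstrassCurve.b₆, WeierstrassCurve.b₈]
  ring

section dvr

variable (A : Type) [CommRing A] [IsDomain A] [IsDiscreteValuationRing A]
  (K : Type) [Field K] [Algebra A K] [IsFractionRing A K]

theorem I5_map : (I5 (11 : A)).map (algebraMap A K) = I5 (11 : K) := by
  have h11 : algebraMap A K 11 = 11 := map_ofNat _ 11
  ext <;> simp [I5, h11]

theorem E_eq_smul : E K = (CT K)⁻¹ • (I5 (11 : A)).map (algebraMap A K) := by
  rw [I5_map, ← CT_smul, inv_smul_smul]

/-- The Tamagawa number of `X₀(11)` when `11` is a uniformizer divides `5`. -/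
theorem tamagawa_eleven (h11 : Irreducible (11 : A)) : tamagawa A (E K) ∣ 5 := by
  rw [E_eq_smul A K, tamagawa_smul (I5 (11 : A)) (CT K)⁻¹ (fun T hT =>
    unit_of_irreducible_pow (I5 (11 : A)) 11 h11 (-1) isUnit_one.neg 5 (by norm_num) (I5_Δ A) T hT)]
  exact i5_index h11

/-- The Tamagawa number of `X₀(11)` when `11` is a unit is `1`. -/
theorem tamagawa_unit (h11 : IsUnit (11 : A)) : tamagawa A (E K) = 1 := by
  rw [← map_E (algebraMap A K)]
  refine tamagawa_good (E A) ?_
  rw [E_Δ]
  exact (h11.pow 5).neg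

theorem unit_eleven (h11 : Irreducible (11 : A)) (T : WeierstrassCurve.VariableChange K)
    (hT : (T • E K).IsMinimal A) :
    (IsDiscreteValuationRing.maximalIdeal A).valuation K (T.u : K) = 1 := by
  rw [← map_E (algebraMap A K)] at hT
  exact unit_of_irreducible_pow (E A) 11 h11 (-1) isUnit_one.neg 5 (by norm_num)
    (by rw [E_Δ]; ring) T hT

theorem unit_unit (h11 : IsUnit (11 : A)) (T : WeierstrassCurve.VariableChange K)
    (hT : (T • E K).IsMinimal A) :
    (IsDiscreteValuationRing.maximalIdeal A).valuation K (T.u : K) = 1 := by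
  rw [← map_E (algebraMap A K)] at hT
  exact unit_of_good (E A) (by rw [E_Δ]; exact (h11.pow 5).neg) T hT

end dvr

section numberField

variable (K : Type) [Field K] [NumberField K] (v : HeightOneSpectrum (𝓞 K))

theorem tam_dvd (h9 : (11 : 𝓞 K) ∈ v.asIdeal → (11 : 𝓞 K) ∉ v.asIdeal ^ 2) :
    tam (E K) v ∣ 5 := by
  unfold tam
  rw [baseChange_E]
  by_cases h3 : (11 : 𝓞 K) ∈ v.asIdeal
  · refine tamagawa_eleven _ _ ?_
    have := CM27.irreducible_completion K v 11 (by exact_mod_cast h3) (by exact_mod_cast h9 h3)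
    exact_mod_cast this
  · rw [tamagawa_unit _ _ ?_]
    · exact one_dvd _
    have := CM27.isUnit_completion K v 11 (by exact_mod_cast h3)
    exact_mod_cast this

/-- In the number field case: all Néron factors are 1 if `11` is unramified. -/
theorem neron_one (h9 : (11 : 𝓞 K) ∈ v.asIdeal → (11 : 𝓞 K) ∉ v.asIdeal ^ 2) :
    neron (E K) v = 1 := by
  have hu : (IsDiscreteValuationRing.maximalIdeal (v.adicCompletionIntegers K)).valuation
      (v.adicCompletion K) (((((E K).baseChange (v.adicCompletion K)).exists_isMinimal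
        (v.adicCompletionIntegers K)).choose.u : (v.adicCompletion K)ˣ) : v.adicCompletion K)
        = 1 := by
    have hmin := (((E K).baseChange (v.adicCompletion K)).exists_isMinimal
        (v.adicCompletionIntegers K)).choose_spec
    generalize (((E K).baseChange (v.adicCompletion K)).exists_isMinimal
        (v.adicCompletionIntegers K)).choose = T at hmin ⊢
    rw [baseChange_E] at hmin
    by_cases h3 : (11 : 𝓞 K) ∈ v.asIdeal
    · refine unit_eleven _ _ ?_ T hmin
      have := CM27.irreducible_completion K v 11 (by exact_mod_cast h3) (by exact_mod_cast h9 h3)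
      exact_mod_cast this
    · refine unit_unit _ _ ?_ T hmin
      have := CM27.isUnit_completion K v 11 (by exact_mod_cast h3)
      exact_mod_cast this
  unfold neron
  generalize (((((E K).baseChange (v.adicCompletion K)).exists_isMinimal
        (v.adicCompletionIntegers K)).choose.u : (v.adicCompletion K)ˣ) : v.adicCompletion K) = u
        at hu ⊢
  have hmem : u ∈ MonoidHom.mker ((IsDiscreteValuationRing.maximalIdeal
      (v.adicCompletionIntegers K)).valuation (v.adicCompletion K)) := hu
  rw [IsDiscreteValuationRing.mker_valuation_eq_isUnitSubmonoid] at hmem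
  obtain ⟨u₀, hu₀, rfl⟩ := hmem
  have hu₀' : IsUnit u₀ := hu₀
  rw [HeightOneSpectrum.adicCompletionIntegers.isUnit_iff_valued_eq_one] at hu₀'
  rw [inv_eq_one]
  have h1 : algebraMap (v.adicCompletionIntegers K) (v.adicCompletion K) u₀ =
      (u₀ : v.adicCompletion K) := rfl
  rw [h1, FinitePlace.norm_def, hu₀', map_one]
  rfl

theorem finprod_tam_odd
    (h9 : ∀ v : HeightOneSpectrum (𝓞 K), (11 : 𝓞 K) ∈ v.asIdeal → (11 : 𝓞 K) ∉ v.asIdeal ^ 2) :
    Odd (∏ᶠ v : HeightOneSpectrum (𝓞 K), tam (E K) v) := by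
  refine finprod_induction (p := Odd) odd_one (fun _ _ => Odd.mul) fun v => ?_
  have h1 := tam_dvd K v (h9 v)
  exact Odd.of_dvd_nat (by decide) h1

theorem finprod_neron
    (h9 : ∀ v : HeightOneSpectrum (𝓞 K), (11 : 𝓞 K) ∈ v.asIdeal → (11 : 𝓞 K) ∉ v.asIdeal ^ 2) :
    ∏ᶠ v : HeightOneSpectrum (𝓞 K), neron (E K) v = 1 := by
  simp only [neron_one K _ (h9 _), finprod_one]

end numberField

theorem not_good_eleven : ¬ GoodPrime 11 := by
  rintro ⟨-, h⟩
  exact h ⟨3, by decide⟩

/-- `11` is unramified in the fields of the family. -/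
theorem eleven_unram (m : ℕ) [NeZero m] (hm : GoodLevel m) (M : Type) [Field M] [NumberField M]
    [IsCyclotomicExtension {m} ℚ M] (F : IntermediateField ℚ M) (v : HeightOneSpectrum (𝓞 F))
    (h3 : (11 : 𝓞 F) ∈ v.asIdeal) : (11 : 𝓞 F) ∉ v.asIdeal ^ 2 := by
  have hp : Nat.Prime 11 := by norm_num
  have h := CM27.unram m M F 11 hp (fun h3m => not_good_eleven (hm.2 11 hp h3m)) v
    (by exact_mod_cast h3)
  exact_mod_cast h

end X11
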