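import Pool.Agent.MP_9ab903_nt.NT.W4
import Pool.Agent.MP_9ab903_nt.NT.V5

/-!
# The periods of `X₀(11)`
-/

set_option autoImplicit false

open PeriodPair Filter Complex MeasureTheory NumberField IsDedekindDomain
open scoped Topology Classical

namespace X11

open WP63 SBSD

/-- The lattice of `X₀(11)` and its real and imaginary periods. -/
def IsLattice (L : PeriodPair) (Ωp Ωm : ℝ) : Prop :=
  ∃ e : ℝ, RealData L (124 / 3) (2501 / 27) e Ωp Ωm

theorem exists_root : ∃ e : ℝ, 4 < e ∧ 4 * e ^ 3 - 124 / 3 * e - 2501 / 27 = 0 := by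
  have hc : ContinuousOn (fun e : ℝ => 4 * e ^ 3 - 124 / 3 * e - 2501 / 27) (Set.Icc 4 5) := by
    fun_prop
  have h := intermediate_value_Icc (by norm_num : (4 : ℝ) ≤ 5) hc
  obtain ⟨e, he, h0⟩ := h (show (0 : ℝ) ∈ Set.Icc _ _ by constructor <;> norm_num)
  refine ⟨e, lt_of_le_of_ne he.1 ?_, h0⟩
  rintro rfl
  norm_num at h0

theorem exists_lattice : ∃ (L : PeriodPair) (Ωp Ωm : ℝ), IsLattice L Ωp Ωm := by
  obtain ⟨e, h4, h0⟩ := exists_root
  obtain ⟨L, Ωp, Ωm, D⟩ := exists_realData (124 / 3) (2501 / 27) e (by norm_num) (by norm_num)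
    (by norm_num) h0 (fun y => by nlinarith [sq_nonneg (y + e / 2)])
  exact ⟨L, Ωp, Ωm, e, D⟩

theorem cubic_E {R : Type} [Field R] [CharZero R] (x : R) : cubic (E R) x =
    4 * (x - 1 / 3) ^ 3 - 124 / 3 * (x - 1 / 3) - 2501 / 27 := by
  simp only [cubic, E, WeierstrassCurve.b₂, WeierstrassCurve.b₄, WeierstrassCurve.b₆]
  field_simp
  ring

variable {L : PeriodPair} {Ωp Ωm : ℝ} (D : IsLattice L Ωp Ωm)

include D

theorem realPeriod_E : realPeriod (E ℝ) = 2 * Ωp := by
  obtain ⟨e, D⟩ := D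
  have h := D.real_integral
  rw [← h, realPeriod]
  simp only [cubic_E]
  have hmp : MeasurePreserving (fun x : ℝ => x - 1 / 3) volume volume :=
    measurePreserving_sub_right volume (1 / 3)
  have hme : MeasurableEmbedding (fun x : ℝ => x - 1 / 3) :=
    (MeasurableEquiv.subRight (1 / 3 : ℝ)).measurableEmbedding
  have := hmp.setIntegral_preimage_emb hme
    (fun x : ℝ => 2 / √(4 * x ^ 3 - 124 / 3 * x - 2501 / 27))
    {x : ℝ | 0 < 4 * x ^ 3 - 124 / 3 * x - 2501 / 27}
  exact this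

theorem complexArea_E : complexArea (E ℂ) = 2 * (Ωp * Ωm) := by
  obtain ⟨e, D⟩ := D
  have h := D.complex_integral
  rw [← h, complexArea]
  simp only [cubic_E]
  rw [integral_sub_right_eq_self (fun x : ℂ => 2 / ‖4 * x ^ 3 - 124 / 3 * x - 2501 / 27‖) (1 / 3)]
  rw [← integral_const_mul]
  congr 1
  funext x
  push_cast
  ring

theorem pos_p : 0 < Ωp := by
  obtain ⟨e, D⟩ := D
  exact D.p0

theorem pos_m : 0 < Ωm := by
  obtain ⟨e, D⟩ := D
  exact D.m0

/-- The archimedean factors. -/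
theorem archPeriod_E (K : Type) [Field K] [NumberField K] (v : InfinitePlace K) :
    archPeriod (E K) v = if v.IsReal then 2 * Ωp else 4 * (Ωp * Ωm) := by
  unfold archPeriod
  split_ifs with h
  · rw [map_E, realPeriod_E D]
  · rw [map_E, complexArea_E D]
    ring

/-- The period `Ω(E/K)`. -/
theorem period_E (K : Type) [Field K] [NumberField K]
    (h9 : ∀ v : HeightOneSpectrum (𝓞 K), (11 : 𝓞 K) ∈ v.asIdeal → (11 : 𝓞 K) ∉ v.asIdeal ^ 2) :
    period (E K) = (2 * Ωp) ^ (InfinitePlace.nrRealPlaces K) *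
      (4 * (Ωp * Ωm)) ^ (InfinitePlace.nrComplexPlaces K) := by
  classical
  unfold period
  rw [finprod_neron K h9, mul_one]
  simp only [archPeriod_E D]
  rw [Finset.prod_ite]
  simp only [Finset.prod_const]
  congr 1
  · congr 1
    rw [InfinitePlace.nrRealPlaces, Fintype.card_subtype]
  · congr 1
    rw [InfinitePlace.nrComplexPlaces, Fintype.card_subtype]
    congr 1
    ext v
    simp [InfinitePlace.not_isReal_iff_isComplex]

end X11
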