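import Pool.Agent.MP_9ab903_nt.NT.V6
import Pool.Agent.MP_9ab903_nt.NT.V5
import Pool.Agent.MP_9ab903_nt.NT.W5

/-!
# Tamagawa numbers, Néron factors and periods of `X₀(19)`
-/

set_option autoImplicit false

open scoped Classical
open IsDedekindDomain NumberField MeasureTheory

namespace WP63.RealData

open SBSD MP9c45e8 WP63

variable {L : PeriodPair} {g₂ g₃ e Ωp Ωm : ℝ} (D : RealData L g₂ g₃ e Ωp Ωm)

include D

theorem realPeriod_eq (W : WeierstrassCurve ℝ) (c : ℝ)
    (h : ∀ x, cubic W x = 4 * (x - c) ^ 3 - g₂ * (x - c) - g₃) : realPeriod W = 2 * Ωp := by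
  rw [← D.real_integral, realPeriod]
  simp only [h]
  have hmp : MeasurePreserving (fun x : ℝ => x - c) volume volume :=
    measurePreserving_sub_right volume c
  have hme : MeasurableEmbedding (fun x : ℝ => x - c) :=
    (MeasurableEquiv.subRight c).measurableEmbedding
  exact hmp.setIntegral_preimage_emb hme
    (fun x : ℝ => 2 / √(4 * x ^ 3 - g₂ * x - g₃)) {x : ℝ | 0 < 4 * x ^ 3 - g₂ * x - g₃}

theorem complexArea_eq (W : WeierstrassCurve ℂ) (c : ℂ)
    (h : ∀ x, cubic W x = 4 * (x - c) ^ 3 - g₂ * (x - c) - g₃) :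
    complexArea W = 2 * (Ωp * Ωm) := by
  rw [← D.complex_integral, complexArea]
  simp only [h]
  rw [integral_sub_right_eq_self (fun x : ℂ => 2 / ‖4 * x ^ 3 - (g₂ : ℂ) * x - (g₃ : ℂ)‖) c]
  rw [← integral_const_mul]
  congr 1
  funext x
  ring

end WP63.RealData

namespace SBSD

/-- The Néron factor is 1 if the change of variables to the minimal equation has a unit `u`. -/
theorem neron_eq_one_of (K : Type) [Field K] [NumberField K] (v : HeightOneSpectrum (𝓞 K))
    (W : WeierstrassCurve K)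
    (h : ∀ T : WeierstrassCurve.VariableChange (v.adicCompletion K),
      (T • W.baseChange (v.adicCompletion K)).IsMinimal (v.adicCompletionIntegers K) →
      (IsDiscreteValuationRing.maximalIdeal (v.adicCompletionIntegers K)).valuation
        (v.adicCompletion K) (T.u : v.adicCompletion K) = 1) :
    neron W v = 1 := by
  have hu := h _ ((W.baseChange (v.adicCompletion K)).exists_isMinimal
        (v.adicCompletionIntegers K)).choose_spec
  unfold neron
  generalize (((((W.baseChange (v.adicCompletion K)).exists_isMinimal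
        (v.adicCompletionIntegers K)).choose.u : (v.adicCompletion K)ˣ) : v.adicCompletion K)) = u
        at hu ⊢
  have hmem : u ∈ MonoidHom.mker ((IsDiscreteValuationRing.maximalIdeal
      (v.adicCompletionIntegers K)).valuation (v.adicCompletion K)) := hu
  rw [IsDiscreteValuationRing.mker_valuation_eq_isUnitSubmonoid] at hmem
  obtain ⟨u₀, hu₀, rfl⟩ := hmem
  have hu₀' : IsUnit u₀ := hu₀
  rw [HeightOneSpectrum.adicCompletionIntegers.isUnit_iff_valued_eq_one] at hu₀'
  rw [inv_eq_one]
  have h1 : algebraMap (v.adicCompletionIntegers K) (v.adicCompletion K) u₀ =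
      (u₀ : v.adicCompletion K) := rfl
  rw [h1, FinitePlace.norm_def, hu₀', map_one]
  rfl

end SBSD

namespace X19

open WeierstrassCurve WeierstrassCurve.Affine SBSD VC63 WP63

/-- The curve `X₀(19)`: `y² + y = x³ + x² - 9 x - 15`. -/
def E (K : Type*) [CommRing K] : WeierstrassCurve K := ⟨0, 1, 1, -9, -15⟩

theorem map_E {R S : Type*} [CommRing R] [CommRing S] (f : R →+* S) : (E R).map f = E S := by
  have h10 : f 9 = 9 := map_ofNat f 9
  have h20 : f 15 = 15 := map_ofNat f 15
  ext <;> simp [E, h10, h20]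

theorem baseChange_E (R S : Type*) [CommRing R] [CommRing S] [Algebra R S] :
    (E R).baseChange S = E S := map_E _

theorem E_Δ (R : Type*) [CommRing R] : (E R).Δ = -19 ^ 3 := by
  simp only [E, WeierstrassCurve.Δ, WeierstrassCurve.b₂, WeierstrassCurve.b₄,
    WeierstrassCurve.b₆, WeierstrassCurve.b₈]
  norm_num

/-- The change of variables to the normal form. -/
def CT (R : Type*) [CommRing R] : WeierstrassCurve.VariableChange R := ⟨1, 5, 4, 9⟩

theorem CT_smul (R : Type) [CommRing R] : CT R • E R = I3 (8 : R) (19 : R) := by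
  have h : ((1 : Rˣ)⁻¹ : Rˣ) = 1 := by simp
  ext
  · rw [variableChange_a₁]; simp only [CT, E, I3, h]; push_cast; ring
  · rw [variableChange_a₂]; simp only [CT, E, I3, h]; push_cast; ring
  · rw [variableChange_a₃]; simp only [CT, E, I3, h]; push_cast; ring
  · rw [variableChange_a₄]; simp only [CT, E, I3, h]; push_cast; ring
  · rw [variableChange_a₆]; simp only [CT, E, I3, h]; push_cast; ring

theorem I3_Δ (R : Type) [CommRing R] : (I3 (8 : R) (19 : R)).Δ = -1 * 19 ^ 3 := by
  simp only [I3, WeierstrassCurve.Δ, WeierstrassCurve.b₂, WeierstrassCurve.b₄,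
    WeierstrassCurve.b₆, WeierstrassCurve.b₈]
  ring

section dvr

variable (A : Type) [CommRing A] [IsDomain A] [IsDiscreteValuationRing A]
  (K : Type) [Field K] [Algebra A K] [IsFractionRing A K]

theorem I3_map : (I3 (8 : A) (19 : A)).map (algebraMap A K) = I3 (8 : K) (19 : K) := by
  have h8 : algebraMap A K 8 = 8 := map_ofNat _ 8
  have h19 : algebraMap A K 19 = 19 := map_ofNat _ 19
  ext <;> simp [I3, h8, h19]

theorem E_eq_smul : E K = (CT K)⁻¹ • (I3 (8 : A) (19 : A)).map (algebraMap A K) := by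
  rw [I3_map, ← CT_smul, inv_smul_smul]

theorem isUnit_eight (h19 : Irreducible (19 : A)) : IsUnit (8 : A) := by
  refine unit_of_not_dvd h19 ?_
  rintro ⟨c, hc⟩
  exact h19.not_isUnit (IsUnit.of_mul_eq_one (12 * c - 5) (by linear_combination -12 * hc))

/-- The Tamagawa number of `X₀(19)` when `19` is a uniformizer divides `3`. -/
theorem tamagawa_nineteen (h19 : Irreducible (19 : A)) : tamagawa A (E K) ∣ 3 := by
  rw [E_eq_smul A K, tamagawa_smul (I3 (8 : A) (19 : A)) (CT K)⁻¹ (fun T hT =>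
    unit_of_irreducible_pow (I3 (8 : A) (19 : A)) 19 h19 (-1) isUnit_one.neg 3 (by norm_num)
      (I3_Δ A) T hT)]
  exact i3_index (isUnit_eight A h19) h19

/-- The Tamagawa number of `X₀(19)` when `19` is a unit is `1`. -/
theorem tamagawa_unit (h19 : IsUnit (19 : A)) : tamagawa A (E K) = 1 := by
  rw [← map_E (algebraMap A K)]
  refine tamagawa_good (E A) ?_
  rw [E_Δ]
  exact (h19.pow 3).neg

theorem unit_nineteen (h19 : Irreducible (19 : A)) (T : WeierstrassCurve.VariableChange K)
    (hT : (T • E K).IsMinimal A) :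
    (IsDiscreteValuationRing.maximalIdeal A).valuation K (T.u : K) = 1 := by
  rw [← map_E (algebraMap A K)] at hT
  exact unit_of_irreducible_pow (E A) 19 h19 (-1) isUnit_one.neg 3 (by norm_num)
    (by rw [E_Δ]; ring) T hT

theorem unit_unit (h19 : IsUnit (19 : A)) (T : WeierstrassCurve.VariableChange K)
    (hT : (T • E K).IsMinimal A) :
    (IsDiscreteValuationRing.maximalIdeal A).valuation K (T.u : K) = 1 := by
  rw [← map_E (algebraMap A K)] at hT
  exact unit_of_good (E A) (by rw [E_Δ]; exact (h19.pow 3).neg) T hT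

end dvr

section numberField

variable (K : Type) [Field K] [NumberField K] (v : HeightOneSpectrum (𝓞 K))

theorem tam_dvd (h9 : (19 : 𝓞 K) ∈ v.asIdeal → (19 : 𝓞 K) ∉ v.asIdeal ^ 2) :
    tam (E K) v ∣ 3 := by
  unfold tam
  rw [baseChange_E]
  by_cases h3 : (19 : 𝓞 K) ∈ v.asIdeal
  · refine tamagawa_nineteen _ _ ?_
    have := CM27.irreducible_completion K v 19 (by exact_mod_cast h3) (by exact_mod_cast h9 h3)
    exact_mod_cast this
  · rw [tamagawa_unit _ _ ?_]
    · exact one_dvd _
    have := CM27.isUnit_completion K v 19 (by exact_mod_cast h3)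
    exact_mod_cast this

/-- In the number field case: all Néron factors are 1 if `19` is unramified. -/
theorem neron_one (h9 : (19 : 𝓞 K) ∈ v.asIdeal → (19 : 𝓞 K) ∉ v.asIdeal ^ 2) :
    neron (E K) v = 1 := by
  refine neron_eq_one_of K v (E K) fun T hT => ?_
  rw [baseChange_E] at hT
  by_cases h3 : (19 : 𝓞 K) ∈ v.asIdeal
  · refine unit_nineteen _ _ ?_ T hT
    have := CM27.irreducible_completion K v 19 (by exact_mod_cast h3) (by exact_mod_cast h9 h3)
    exact_mod_cast this
  · refine unit_unit _ _ ?_ T hT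
    have := CM27.isUnit_completion K v 19 (by exact_mod_cast h3)
    exact_mod_cast this

theorem finprod_tam_odd
    (h9 : ∀ v : HeightOneSpectrum (𝓞 K), (19 : 𝓞 K) ∈ v.asIdeal → (19 : 𝓞 K) ∉ v.asIdeal ^ 2) :
    Odd (∏ᶠ v : HeightOneSpectrum (𝓞 K), tam (E K) v) := by
  refine finprod_induction (p := Odd) odd_one (fun _ _ => Odd.mul) fun v => ?_
  have h1 := tam_dvd K v (h9 v)
  exact Odd.of_dvd_nat (by decide) h1

theorem finprod_neron
    (h9 : ∀ v : HeightOneSpectrum (𝓞 K), (19 : 𝓞 K) ∈ v.asIdeal → (19 : 𝓞 K) ∉ v.asIdeal ^ 2) :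
    ∏ᶠ v : HeightOneSpectrum (𝓞 K), neron (E K) v = 1 := by
  simp only [neron_one K _ (h9 _), finprod_one]

end numberField

/-- The lattice of `X₀(19)` and its real and imaginary periods. -/
def IsLattice (L : PeriodPair) (Ωp Ωm : ℝ) : Prop :=
  ∃ e : ℝ, RealData L (112 / 3) (1261 / 27) e Ωp Ωm

theorem exists_root : ∃ e : ℝ, 353 / 100 < e ∧ 4 * e ^ 3 - 112 / 3 * e - 1261 / 27 = 0 := by
  have hc : ContinuousOn (fun e : ℝ => 4 * e ^ 3 - 112 / 3 * e - 1261 / 27)
      (Set.Icc (353 / 100) 4) := by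
    fun_prop
  have h := intermediate_value_Icc (by norm_num : (353 / 100 : ℝ) ≤ 4) hc
  obtain ⟨e, he, h0⟩ := h (show (0 : ℝ) ∈ Set.Icc _ _ by constructor <;> norm_num)
  refine ⟨e, lt_of_le_of_ne he.1 ?_, h0⟩
  rintro rfl
  norm_num at h0

theorem exists_lattice : ∃ (L : PeriodPair) (Ωp Ωm : ℝ), IsLattice L Ωp Ωm := by
  obtain ⟨e, h4, h0⟩ := exists_root
  obtain ⟨L, Ωp, Ωm, D⟩ := exists_realData (112 / 3) (1261 / 27) e (by norm_num) (by norm_num)
    (by norm_num) h0 (fun y => by nlinarith [sq_nonneg (y + e / 2)])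
  exact ⟨L, Ωp, Ωm, e, D⟩

theorem cubic_E {R : Type} [Field R] [CharZero R] (x : R) : cubic (E R) x =
    4 * (x - (-1 / 3)) ^ 3 - 112 / 3 * (x - (-1 / 3)) - 1261 / 27 := by
  simp only [cubic, E, WeierstrassCurve.b₂, WeierstrassCurve.b₄, WeierstrassCurve.b₆]
  field_simp
  ring

variable {L : PeriodPair} {Ωp Ωm : ℝ} (D : IsLattice L Ωp Ωm)

include D

theorem realPeriod_E : realPeriod (E ℝ) = 2 * Ωp := by
  obtain ⟨e, D⟩ := D
  exact D.realPeriod_eq (E ℝ) (-1 / 3) fun x => cubic_E x

theorem complexArea_E : complexArea (E ℂ) = 2 * (Ωp * Ωm) := by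
  obtain ⟨e, D⟩ := D
  exact D.complexArea_eq (E ℂ) (-1 / 3) fun x => by rw [cubic_E]; push_cast; ring

/-- The archimedean factors. -/
theorem archPeriod_E (K : Type) [Field K] [NumberField K] (v : InfinitePlace K) :
    archPeriod (E K) v = if v.IsReal then 2 * Ωp else 4 * (Ωp * Ωm) := by
  unfold archPeriod
  split_ifs with h
  · rw [map_E, realPeriod_E D]
  · rw [map_E, complexArea_E D]
    ring

/-- The period `Ω(E/K)`. -/
theorem period_E (K : Type) [Field K] [NumberField K]
    (h9 : ∀ v : HeightOneSpectrum (𝓞 K), (19 : 𝓞 K) ∈ v.asIdeal → (19 : 𝓞 K) ∉ v.asIdeal ^ 2) :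
    period (E K) = (2 * Ωp) ^ (InfinitePlace.nrRealPlaces K) *
      (4 * (Ωp * Ωm)) ^ (InfinitePlace.nrComplexPlaces K) := by
  classical
  unfold period
  rw [finprod_neron K h9, mul_one]
  simp only [archPeriod_E D]
  rw [Finset.prod_ite]
  simp only [Finset.prod_const]
  congr 1
  · congr 1
    rw [InfinitePlace.nrRealPlaces, Fintype.card_subtype]
  · congr 1
    rw [InfinitePlace.nrComplexPlaces, Fintype.card_subtype]
    congr 1
    ext v
    simp [InfinitePlace.not_isReal_iff_isComplex]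

end X19
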