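import Pool.Agent.MP_9c45e8_nt.F1
import Pool.Agent.MP_9c45e8_nt.F2
import Pool.Agent.MP_9c45e8_nt.H

/-!
# General facts on the Weierstrass function: fibres and surjectivity
-/

set_option autoImplicit false

open PeriodPair Filter
open scoped Topology

namespace WP63

open MP9c45e8

variable (L : PeriodPair)

theorem lattice_countable : (L.lattice : Set ℂ).Countable := by
  have : Countable L.lattice := L.latticeEquivProd.toEquiv.countable_iff.mpr inferInstance
  exact this

theorem preconnected_compl (S : Set ℂ) (hS : S.Countable) : IsPreconnected Sᶜ :=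
  (hS.isPathConnected_compl_of_one_lt_rank (by simp)).isConnected.isPreconnected

theorem hasDerivAt_wp {z : ℂ} (hz : z ∉ L.lattice) : HasDerivAt ℘[L] (℘'[L] z) z := by
  have := (L.analyticOnNhd_weierstrassP _ hz).differentiableAt.hasDerivAt
  rwa [L.deriv_weierstrassP] at this

theorem hasDerivAt_dwp {z : ℂ} (hz : z ∉ L.lattice) :
    HasDerivAt ℘'[L] (deriv ℘'[L] z) z :=
  (L.analyticOnNhd_derivWeierstrassP _ hz).differentiableAt.hasDerivAt

theorem deriv_dwp {z : ℂ} (hz : z ∉ L.lattice) :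
    deriv ℘'[L] z = 6 * ℘[L] z ^ 2 - L.g₂ / 2 := by
  have hopen : IsOpen (L.lattice : Set ℂ)ᶜ := L.isClosed_lattice.isOpen_compl
  have hmul : ∀ v ∈ (L.lattice : Set ℂ)ᶜ,
      ℘'[L] v * (deriv ℘'[L] v - (6 * ℘[L] v ^ 2 - L.g₂ / 2)) = 0 := by
    intro v hv
    have h1 : HasDerivAt (fun v => ℘'[L] v ^ 2) (2 * ℘'[L] v * deriv ℘'[L] v) v := by
      simpa using (hasDerivAt_dwp L hv).fun_pow 2
    have h2 : HasDerivAt (fun v => 4 * ℘[L] v ^ 3 - L.g₂ * ℘[L] v - L.g₃)
        (4 * (3 * ℘[L] v ^ 2 * ℘'[L] v) - L.g₂ * ℘'[L] v) v := by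
      have := (((hasDerivAt_wp L hv).fun_pow 3).const_mul 4).fun_sub
        ((hasDerivAt_wp L hv).const_mul L.g₂)
      simpa using this.sub_const L.g₃
    have h3 : (fun v => ℘'[L] v ^ 2) =ᶠ[𝓝 v] fun v => 4 * ℘[L] v ^ 3 - L.g₂ * ℘[L] v - L.g₃ := by
      filter_upwards [hopen.mem_nhds hv] with w hw
      exact L.derivWeierstrassP_sq w hw
    have h4 := h1.unique (h2.congr_of_eventuallyEq h3)
    linear_combination h4 / 2
  have ha1 : AnalyticOnNhd ℂ ℘'[L] (L.lattice : Set ℂ)ᶜ := L.analyticOnNhd_derivWeierstrassP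
  have ha2 : AnalyticOnNhd ℂ (fun v => deriv ℘'[L] v - (6 * ℘[L] v ^ 2 - L.g₂ / 2))
      (L.lattice : Set ℂ)ᶜ := by
    intro v hv
    have e1 := (L.analyticOnNhd_derivWeierstrassP v hv).deriv
    have e2 := L.analyticOnNhd_weierstrassP v hv
    fun_prop
  have hpre := preconnected_compl _ (lattice_countable L)
  rcases AnalyticOnNhd.eq_zero_or_eq_zero_of_smul_eq_zero ha1 ha2
    (fun v hv => by simpa using hmul v hv) hpre with h | h
  · exfalso
    -- `℘` would be locally constant
    have hd : ∀ v ∈ (L.lattice : Set ℂ)ᶜ, deriv ℘[L] v = 0 := by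
      intro v hv
      rw [L.deriv_weierstrassP]
      exact h v hv
    have hz' : z ∈ (L.lattice : Set ℂ)ᶜ := hz
    have hconst : ∀ᶠ v in 𝓝 z, ℘[L] v = ℘[L] z := by
      obtain ⟨r, hr, hball⟩ := Metric.isOpen_iff.1 hopen z hz'
      filter_upwards [Metric.ball_mem_nhds z hr] with v hv
      have hconv := (convex_ball z r)
      refine (Metric.isOpen_ball.is_const_of_deriv_eq_zero hconv.isPreconnected
        (fun w hw => (hasDerivAt_wp L (hball hw)).differentiableAt.differentiableWithinAt)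
        (fun w hw => hd w (hball hw)) hv (Metric.mem_ball_self hr))
    exact not_frequently_const L (℘[L] z) z hz (hconst.filter_mono nhdsWithin_le_nhds).frequently
  · exact sub_eq_zero.1 (h z hz)

/-- If `℘` and `℘'` agree at two points, the difference of the points is a period. -/
theorem sub_mem_of_eq {u w : ℂ} (hu : u ∉ L.lattice) (hw : w ∉ L.lattice)
    (h : ℘[L] u = ℘[L] w) (h' : ℘'[L] u = ℘'[L] w) : w - u ∈ L.lattice := by
  have hopen : IsOpen (L.lattice : Set ℂ)ᶜ := L.isClosed_lattice.isOpen_compl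
  -- near `u` the functions `℘(s + (w - u))` and `℘(s)` agree
  set δ := w - u with hδ
  have hnear : ∀ᶠ s in 𝓝 u, s ∉ L.lattice ∧ s + δ ∉ L.lattice := by
    have h1 : ∀ᶠ s in 𝓝 u, s ∈ (L.lattice : Set ℂ)ᶜ := hopen.mem_nhds hu
    have h2 : ∀ᶠ s in 𝓝 u, s + δ ∈ (L.lattice : Set ℂ)ᶜ := by
      have hc : ContinuousAt (fun s : ℂ => s + δ) u := by fun_prop
      have e : u + δ = w := by rw [hδ]; ring
      exact hc.preimage_mem_nhds (by show _ ∈ 𝓝 (u + δ); rw [e]; exact hopen.mem_nhds hw)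
    exact h1.and h2
  set d : ℂ → ℂ := fun s => ℘[L] (s + δ) - ℘[L] s with hd
  set σ : ℂ → ℂ := fun s => 6 * (℘[L] (s + δ) + ℘[L] s) with hσ
  have euw : u + δ = w := by rw [hδ]; ring
  have hA : ∀ s, s ∉ L.lattice → s + δ ∉ L.lattice →
      HasDerivAt d (℘'[L] (s + δ) - ℘'[L] s) s := by
    intro s h1 h2
    exact ((hasDerivAt_wp L h2).comp_add_const s δ).fun_sub (hasDerivAt_wp L h1)
  have hB : ∀ s, s ∉ L.lattice → s + δ ∉ L.lattice →
      HasDerivAt (fun s => ℘'[L] (s + δ) - ℘'[L] s) (σ s * d s) s := by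
    intro s h1 h2
    have := ((hasDerivAt_dwp L h2).comp_add_const s δ).fun_sub (hasDerivAt_dwp L h1)
    refine this.congr_deriv ?_
    rw [deriv_dwp L h1, deriv_dwp L h2]
    simp only [hσ, hd]
    ring
  have hanw : AnalyticAt ℂ (fun s => ℘[L] (s + δ)) u := by
    have : AnalyticAt ℂ ℘[L] (u + δ) := by rw [euw]; exact L.analyticOnNhd_weierstrassP w hw
    exact AnalyticAt.fun_comp (g := ℘[L]) this (by fun_prop)
  have hanu : AnalyticAt ℂ ℘[L] u := L.analyticOnNhd_weierstrassP u hu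
  have hand : AnalyticAt ℂ d u := hanw.fun_sub hanu
  have hanσ : AnalyticAt ℂ σ u := by
    have := hanw.fun_add hanu
    exact analyticAt_const.fun_mul this
  have e1 : deriv d =ᶠ[𝓝 u] fun s => ℘'[L] (s + δ) - ℘'[L] s := by
    filter_upwards [hnear] with s hs
    exact (hA s hs.1 hs.2).deriv
  have e2 : deriv (deriv d) =ᶠ[𝓝 u] fun s => σ s * d s := by
    have h3 := e1.deriv
    refine h3.trans ?_
    filter_upwards [hnear] with s hs
    exact (hB s hs.1 hs.2).deriv
  have hd0 : d u = 0 := by simp only [hd, euw, h, sub_self]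
  have hd1 : deriv d u = 0 := by
    rw [e1.self_of_nhds]
    show ℘'[L] (u + δ) - ℘'[L] u = 0
    rw [euw, h', sub_self]
  have hle : analyticOrderAt d u ≤ analyticOrderAt (deriv (deriv d)) u := by
    rw [analyticOrderAt_congr e2]
    have := analyticOrderAt_mul hanσ hand
    have e3 : (fun s => σ s * d s) = σ * d := rfl
    rw [e3, this]
    exact le_add_self
  have ho1 := hand.analyticOrderAt_deriv_add_one
  have ho2 := hand.deriv.analyticOrderAt_deriv_add_one
  simp only [hd0, hd1, sub_zero] at ho1 ho2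
  have htop : analyticOrderAt d u = ⊤ := by
    by_contra hne
    obtain ⟨n, hn⟩ := ENat.ne_top_iff_exists.1 hne
    have h5 : analyticOrderAt (deriv (deriv d)) u + 1 + 1 = (n : ℕ∞) := by
      rw [hn, ← ho1, ← ho2]
    rw [← hn] at hle
    have h6 : (n : ℕ∞) + 1 + 1 ≤ n := by
      calc (n : ℕ∞) + 1 + 1 ≤ analyticOrderAt (deriv (deriv d)) u + 1 + 1 := by gcongr
        _ = n := h5
    have h7 : n + 1 + 1 ≤ n := by exact_mod_cast h6
    omega
  have hev : ∀ᶠ s in 𝓝 u, d s = 0 := analyticOrderAt_eq_top.1 htop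
  by_contra hmem
  -- the connected set where both sides are analytic
  set V : Set ℂ := ((L.lattice : Set ℂ) ∪ (fun s : ℂ => s + δ) ⁻¹' (L.lattice : Set ℂ))ᶜ with hV
  have hcount : ((L.lattice : Set ℂ) ∪ (fun s : ℂ => s + δ) ⁻¹' (L.lattice : Set ℂ)).Countable :=
    (lattice_countable L).union
      ((lattice_countable L).preimage_of_injOn (fun a _ b _ hab => add_right_cancel hab))
  have hpre := preconnected_compl _ hcount
  have hVd : AnalyticOnNhd ℂ d V := by
    intro s hs
    rw [hV, Set.mem_compl_iff, Set.mem_union, not_or] at hs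
    have a1 : AnalyticAt ℂ (fun s => ℘[L] (s + δ)) s := by
      have : AnalyticAt ℂ ℘[L] (s + δ) := L.analyticOnNhd_weierstrassP _ hs.2
      exact AnalyticAt.fun_comp (g := ℘[L]) this (by fun_prop)
    exact a1.fun_sub (L.analyticOnNhd_weierstrassP s hs.1)
  have huV : u ∈ V := by
    rw [hV, Set.mem_compl_iff, Set.mem_union, not_or]
    refine ⟨hu, ?_⟩
    show u + δ ∉ L.lattice
    rw [euw]; exact hw
  have hzero : Set.EqOn d 0 V :=
    hVd.eqOn_zero_of_preconnected_of_eventuallyEq_zero hpre huV hev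
  refine hmem (mem_lattice_of_periodic L δ ?_)
  have h8 : ∀ᶠ s in 𝓝 (0 : ℂ), s + δ ∉ L.lattice := by
    have hc : ContinuousAt (fun s : ℂ => s + δ) 0 := by fun_prop
    exact hc.preimage_mem_nhds (by
      show (L.lattice : Set ℂ)ᶜ ∈ 𝓝 (0 + δ); rw [zero_add]; exact hopen.mem_nhds hmem)
  have h9 : ∀ᶠ s in 𝓝[≠] (0 : ℂ), s ∉ L.lattice := by
    have := L.compl_lattice_sdiff_singleton_mem_nhds 0
    filter_upwards [mem_nhdsWithin_of_mem_nhds this, self_mem_nhdsWithin] with s hs hs' hmem'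
    exact hs ⟨hmem', hs'⟩
  filter_upwards [h9, h8.filter_mono nhdsWithin_le_nhds] with s hs1 hs2
  have : s ∈ V := by
    rw [hV, Set.mem_compl_iff, Set.mem_union, not_or]
    exact ⟨hs1, hs2⟩
  exact sub_eq_zero.1 (hzero this)

theorem neg_notMem {z : ℂ} (hz : z ∉ L.lattice) : -z ∉ L.lattice := by
  intro h
  apply hz
  have := L.lattice.neg_mem h
  rwa [neg_neg] at this

theorem wp_add_mem (z l : ℂ) (hl : l ∈ L.lattice) : ℘[L] (z + l) = ℘[L] z :=
  L.weierstrassP_add_coe z ⟨l, hl⟩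

theorem dwp_add_mem (z l : ℂ) (hl : l ∈ L.lattice) : ℘'[L] (z + l) = ℘'[L] z :=
  L.derivWeierstrassP_add_coe z ⟨l, hl⟩

/-- The fibres of `℘`. -/
theorem wp_eq_iff {u w : ℂ} (hu : u ∉ L.lattice) (hw : w ∉ L.lattice) :
    ℘[L] u = ℘[L] w ↔ u - w ∈ L.lattice ∨ u + w ∈ L.lattice := by
  constructor
  · intro h
    have h1 : ℘'[L] u ^ 2 = ℘'[L] w ^ 2 := by
      rw [L.derivWeierstrassP_sq u hu, L.derivWeierstrassP_sq w hw, h]
    rcases sq_eq_sq_iff_eq_or_eq_neg.1 h1 with h2 | h2
    · left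
      have := L.lattice.neg_mem (sub_mem_of_eq L hu hw h h2)
      rwa [neg_sub] at this
    · right
      have := sub_mem_of_eq L (neg_notMem L hw) hu (by rw [L.weierstrassP_neg, h])
        (by rw [L.derivWeierstrassP_neg, h2])
      rwa [sub_neg_eq_add] at this
  · rintro (h | h)
    · have := wp_add_mem L w (u - w) h
      rw [add_sub_cancel] at this
      exact this
    · have := wp_add_mem L (-w) (u + w) h
      rw [L.weierstrassP_neg] at this
      rw [← this]
      congr 1
      ring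

theorem dwp_eq_zero_iff {z : ℂ} (hz : z ∉ L.lattice) : ℘'[L] z = 0 ↔ 2 * z ∈ L.lattice := by
  constructor
  · intro h
    have := sub_mem_of_eq L (neg_notMem L hz) hz (L.weierstrassP_neg z)
      (by rw [L.derivWeierstrassP_neg, h, neg_zero])
    rwa [sub_neg_eq_add, ← two_mul] at this
  · intro h
    have h1 := dwp_add_mem L (-z) (2 * z) h
    rw [L.derivWeierstrassP_neg] at h1
    have e : -z + 2 * z = z := by ring
    rw [e] at h1
    exact CharZero.eq_neg_self_iff.1 h1

theorem liouville (f : ℂ → ℂ) (hf : Differentiable ℂ f)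
    (hp : ∀ z, ∀ l ∈ L.lattice, f (z + l) = f z) (z v : ℂ) : f z = f v := by
  refine hf.apply_eq_apply_of_bounded ((IsZLattice.isCompact_range_of_periodic L.lattice f
    hf.continuous ?_).isBounded) z v
  intro z w hw
  exact hp z w hw

theorem wp_tendsto : Tendsto (fun z => ‖℘[L] z‖) (𝓝[≠] 0) atTop := by
  have h1 := (tendsto_sq_mul_weierstrassP L).norm
  rw [norm_one] at h1
  have h2 : Tendsto (fun z : ℂ => (‖z‖ ^ 2)⁻¹) (𝓝[≠] 0) atTop := by
    refine Tendsto.inv_tendsto_nhdsGT_zero ?_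
    rw [tendsto_nhdsWithin_iff]
    constructor
    · have : Tendsto (fun z : ℂ => ‖z‖ ^ 2) (𝓝 0) (𝓝 (‖(0 : ℂ)‖ ^ 2)) :=
        (Continuous.tendsto (by fun_prop) 0)
      rw [norm_zero, zero_pow two_ne_zero] at this
      exact this.mono_left nhdsWithin_le_nhds
    · filter_upwards [self_mem_nhdsWithin] with z hz
      have hz' : z ≠ 0 := hz
      exact pow_pos (norm_pos_iff.2 hz') 2
  have h3 := h2.atTop_mul_pos one_pos h1
  refine h3.congr' ?_
  filter_upwards [self_mem_nhdsWithin] with z hz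
  have hz' : ‖z‖ ≠ 0 := norm_ne_zero_iff.2 hz
  rw [norm_mul, norm_pow]
  field_simp

/-- `℘` is surjective. -/
theorem wp_surj (c : ℂ) : ∃ z : ℂ, z ∉ L.lattice ∧ ℘[L] z = c := by
  classical
  by_contra hcon
  push Not at hcon
  let h : ℂ → ℂ := fun z => if z ∈ L.lattice then 0 else (℘[L] z - c)⁻¹
  have hmem : ∀ z, ∀ l ∈ L.lattice, (z + l ∈ L.lattice ↔ z ∈ L.lattice) := fun z l hl =>
    L.lattice.toAddSubgroup.add_mem_cancel_right (y := z) hl
  have hper : ∀ z, ∀ l ∈ L.lattice, h (z + l) = h z := by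
    intro z l hl
    simp only [h, hmem z l hl, wp_add_mem L z l hl]
  have hopen : IsOpen (L.lattice : Set ℂ)ᶜ := L.isClosed_lattice.isOpen_compl
  have hoff : ∀ z, z ∉ L.lattice → DifferentiableAt ℂ h z := by
    intro z hz
    have h1 : DifferentiableAt ℂ (fun z => (℘[L] z - c)⁻¹) z :=
      ((hasDerivAt_wp L hz).differentiableAt.sub_const c).inv (sub_ne_zero.2 (hcon z hz))
    refine h1.congr_of_eventuallyEq ?_
    filter_upwards [hopen.mem_nhds hz] with v hv
    have hv' : v ∉ L.lattice := hv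
    simp only [h]
    rw [if_neg hv']
  have hpunct : ∀ᶠ s in 𝓝[≠] (0 : ℂ), s ∉ L.lattice := by
    have := L.compl_lattice_sdiff_singleton_mem_nhds 0
    filter_upwards [mem_nhdsWithin_of_mem_nhds this, self_mem_nhdsWithin] with s hs hs' hmem'
    exact hs ⟨hmem', hs'⟩
  have h00 : h 0 = 0 := by
    simp only [h]
    rw [if_pos (zero_mem _)]
  have h0 : DifferentiableAt ℂ h 0 := by
    refine (Complex.analyticAt_of_differentiable_on_punctured_nhds_of_continuousAt ?_
      ?_).differentiableAt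
    · filter_upwards [hpunct] with z hz
      exact hoff z hz
    · rw [continuousAt_iff_punctured_nhds, h00]
      have h1 : Tendsto (fun z => ℘[L] z - c) (𝓝[≠] 0) (Bornology.cobounded ℂ) := by
        rw [← tendsto_norm_atTop_iff_cobounded]
        have h2 : Tendsto (fun z => ‖℘[L] z‖ - ‖c‖) (𝓝[≠] 0) atTop :=
          tendsto_atTop_add_const_right _ _ (wp_tendsto L)
        exact tendsto_atTop_mono (fun z => norm_sub_norm_le _ _) h2
      have h3 : Tendsto (fun z => (℘[L] z - c)⁻¹) (𝓝[≠] 0) (𝓝 0) :=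
        tendsto_inv₀_cobounded.comp h1
      refine h3.congr' ?_
      filter_upwards [hpunct] with z hz
      simp only [h]
      rw [if_neg hz]
  have hdiff : Differentiable ℂ h := by
    intro z
    by_cases hz : z ∈ L.lattice
    · have h1 : h = fun v => h (v - z) := by
        funext v
        have := hper (v - z) z hz
        rw [sub_add_cancel] at this
        exact this
      rw [h1]
      have h2 : DifferentiableAt ℂ h (z - z) := by rw [sub_self]; exact h0
      exact DifferentiableAt.comp (f := fun v => v - z) z h2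
        (differentiableAt_fun_id.sub_const z)
    · exact hoff z hz
  have hhalf := L.ω₁_div_two_notMem_lattice
  have h1 := liouville L h hdiff hper (L.ω₁ / 2) 0
  have h3 : h (L.ω₁ / 2) = (℘[L] (L.ω₁ / 2) - c)⁻¹ := by
    simp only [h]
    rw [if_neg hhalf]
  rw [h00, h3] at h1
  exact inv_ne_zero (sub_ne_zero.2 (hcon _ hhalf)) h1

end WP63
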