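import Mathlib

/-!
# [NC11] modular symbols, part 1: the product formula for the sum over the reduced residues
-/

set_option autoImplicit false

open Finset
open scoped ComplexConjugate

namespace MS63

/-- The properties of the values `J r` (`r` a rational number with denominator prime to `N`) of the
modular symbol, with `a` the Hecke eigenvalues and the periods `Op, Om` of a nonrectangular real
lattice. -/
structure Symb (N : ℕ) (a : ℕ → ℂ) (J : ℚ → ℂ) (Op Om : ℝ) (c : ℕ) : Prop where
  op : 0 < Op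
  om : 0 < Om
  per : ∀ r, J (r + 1) = J r
  cj : ∀ r, J (-r) = conj (J r)
  lat : ∀ (k : ℤ) (m : ℕ), 0 < m → Nat.Coprime m N → IsCoprime k (m : ℤ) →
    ∃ np nm : ℤ, (2 : ℤ) ∣ np - nm ∧
      J ((k : ℚ) / (m : ℚ)) = J 0 + np * Op + nm * Om * Complex.I
  hecke : ∀ l : ℕ, l.Prime → Nat.Coprime l N → ∀ (k : ℤ) (m : ℕ), 0 < m → Nat.Coprime m N →
    a l * J ((k : ℚ) / (m : ℚ)) = J (l * ((k : ℚ) / (m : ℚ))) +
      ∑ b ∈ range l, J (((k : ℚ) / (m : ℚ) + b) / l)
  zero : (c : ℂ) * J 0 = 2 * Op
  codd : Odd c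

variable {N : ℕ} {a : ℕ → ℂ} {J : ℚ → ℂ} {Op Om : ℝ} {c : ℕ} (S : Symb N a J Op Om c)
include S

theorem Symb.per_int (r : ℚ) (k : ℤ) : J (r + k) = J r := by
  induction k using Int.induction_on with
  | zero => simp
  | succ i ih =>
    rw [← ih, ← S.per (r + (i : ℤ))]
    congr 1
    push_cast
    ring
  | pred i ih =>
    rw [← ih, ← S.per (r + ((-(i : ℤ) - 1 : ℤ) : ℚ))]
    congr 1
    push_cast
    ring

/-- the value at `k / m` only depends on `k` modulo `m` -/
theorem Symb.congr {m : ℕ} (hm : 0 < m) (k k' : ℤ) (h : (m : ℤ) ∣ k - k') :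
    J ((k : ℚ) / (m : ℚ)) = J ((k' : ℚ) / (m : ℚ)) := by
  obtain ⟨t, ht⟩ := h
  have hm' : (m : ℚ) ≠ 0 := by positivity
  have : (k : ℚ) / (m : ℚ) = (k' : ℚ) / (m : ℚ) + (t : ℤ) := by
    have h2 : (k : ℚ) = k' + m * t := by
      have : k = k' + m * t := by linarith
      exact_mod_cast congrArg (Int.cast : ℤ → ℚ) this
    rw [h2]
    field_simp
  rw [this, S.per_int]

omit S in
/-- the sum over the reduced residues -/
noncomputable def RS (J : ℚ → ℂ) (m : ℕ) : ℂ :=
  ∑ k ∈ (range m).filter (fun k => Nat.Coprime k m), J ((k : ℚ) / (m : ℚ))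

omit S in
theorem RS_units (J : ℚ → ℂ) (m : ℕ) [NeZero m] :
    RS J m = ∑ x : (ZMod m)ˣ, J (((x : ZMod m).val : ℚ) / (m : ℚ)) := by
  rw [RS]
  symm
  refine Finset.sum_bij' (fun x _ => (x : ZMod m).val)
    (fun k hk => ZMod.unitOfCoprime k (Finset.mem_filter.1 hk).2) ?_ ?_ ?_ ?_ ?_
  · intro x _
    simp only [Finset.mem_filter, Finset.mem_range]
    exact ⟨ZMod.val_lt _, ZMod.val_coe_unit_coprime x⟩
  · intro k _
    exact Finset.mem_univ _
  · intro x _
    ext
    simp
  · intro k hk
    simp only [Finset.mem_filter, Finset.mem_range] at hk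
    simp only [ZMod.coe_unitOfCoprime]
    exact ZMod.val_cast_of_lt hk.1
  · intro x _
    rfl

/-- multiplication by a unit does not change the sum -/
theorem Symb.RS_mul {m : ℕ} (hm : 0 < m) (l : ℕ) (hl : Nat.Coprime l m) :
    ∑ k ∈ (range m).filter (fun k => Nat.Coprime k m), J (l * ((k : ℚ) / (m : ℚ))) = RS J m := by
  have : NeZero m := ⟨hm.ne'⟩
  have h1 : ∑ k ∈ (range m).filter (fun k => Nat.Coprime k m), J (l * ((k : ℚ) / (m : ℚ))) =
      RS (fun r => J (l * r)) m := rfl
  rw [h1, RS_units, RS_units]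
  refine Fintype.sum_equiv (Equiv.mulLeft (ZMod.unitOfCoprime l hl)) _ _ fun x => ?_
  have h2 : (l : ℚ) * (((x : ZMod m).val : ℚ) / (m : ℚ)) =
      (((l * (x : ZMod m).val : ℕ) : ℤ) : ℚ) / (m : ℚ) := by
    push_cast
    ring
  rw [h2]
  have h3 := S.congr hm ((l * (x : ZMod m).val : ℕ) : ℤ)
    ((((ZMod.unitOfCoprime l hl * x : (ZMod m)ˣ) : ZMod m).val : ℕ) : ℤ) (by
      rw [← (ZMod.intCast_zmod_eq_zero_iff_dvd _ m)]
      push_cast
      simp)
  rw [h3]
  simp

/-- **The product formula.** -/
theorem Symb.RS_prime {m l : ℕ} (hm : 0 < m) (hmN : Nat.Coprime m N) (hl : l.Prime)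
    (hlN : Nat.Coprime l N) (hlm : Nat.Coprime l m) :
    RS J (l * m) = (a l - 2) * RS J m := by
  have hl0 : 0 < l := hl.pos
  have hmq : (m : ℚ) ≠ 0 := by positivity
  have hlq : (l : ℚ) ≠ 0 := by positivity
  -- the sum over the residues prime to `m`
  have h1 : ∑ k ∈ (range (l * m)).filter (fun k => Nat.Coprime k m),
      J ((k : ℚ) / ((l * m : ℕ) : ℚ)) =
      ∑ k ∈ (range m).filter (fun k => Nat.Coprime k m),
        ∑ b ∈ range l, J (((k : ℚ) / (m : ℚ) + b) / l) := by
    rw [← Finset.sum_product']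
    refine Finset.sum_nbij' (fun k => (k % m, k / m)) (fun p => p.1 + p.2 * m) ?_ ?_ ?_ ?_ ?_
    · intro k hk
      simp only [Finset.mem_filter, Finset.mem_range, Finset.mem_product] at hk ⊢
      refine ⟨⟨Nat.mod_lt _ hm, ?_⟩, ?_⟩
      · have : Nat.gcd (k % m) m = Nat.gcd k m := by
          rw [Nat.gcd_comm k m, ← Nat.gcd_rec]
        rw [Nat.Coprime, this]
        exact hk.2
      · rw [Nat.div_lt_iff_lt_mul hm]
        exact hk.1
    · intro p hp
      simp only [Finset.mem_filter, Finset.mem_range, Finset.mem_product] at hp ⊢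
      refine ⟨?_, ?_⟩
      · calc p.1 + p.2 * m < m + p.2 * m := by omega
          _ = (p.2 + 1) * m := by ring
          _ ≤ l * m := Nat.mul_le_mul_right m hp.2
      · simpa using hp.1.2
    · intro k _
      simp only
      rw [mul_comm]
      exact Nat.mod_add_div k m
    · intro p hp
      simp only [Finset.mem_filter, Finset.mem_range, Finset.mem_product] at hp
      ext
      · simp only [Nat.add_mul_mod_self_right]
        exact Nat.mod_eq_of_lt hp.1.1
      · simp only
        rw [Nat.add_mul_div_right _ _ hm, Nat.div_eq_of_lt hp.1.1, zero_add]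
    · intro k _
      simp only
      congr 1
      have h2 : (k : ℚ) = ((k % m : ℕ) : ℚ) + m * ((k / m : ℕ) : ℚ) := by
        exact_mod_cast (Nat.mod_add_div k m).symm
      push_cast
      rw [h2]
      field_simp
  -- the residues divisible by `l`
  have h2 : ∑ k ∈ (range (l * m)).filter (fun k => Nat.Coprime k m ∧ l ∣ k),
      J ((k : ℚ) / ((l * m : ℕ) : ℚ)) = RS J m := by
    rw [RS]
    refine Finset.sum_nbij' (fun k => k / l) (fun k => l * k) ?_ ?_ ?_ ?_ ?_
    · intro k hk
      simp only [Finset.mem_filter, Finset.mem_range] at hk ⊢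
      obtain ⟨h3, h4, t, rfl⟩ := hk
      rw [Nat.mul_div_cancel_left _ hl0]
      exact ⟨Nat.lt_of_mul_lt_mul_left h3, Nat.Coprime.coprime_mul_left h4⟩
    · intro k hk
      simp only [Finset.mem_filter, Finset.mem_range] at hk ⊢
      exact ⟨Nat.mul_lt_mul_of_pos_left hk.1 hl0, Nat.Coprime.mul_left hlm hk.2,
        Dvd.intro _ rfl⟩
    · intro k hk
      simp only [Finset.mem_filter, Finset.mem_range] at hk
      exact Nat.mul_div_cancel' hk.2.2
    · intro k _
      exact Nat.mul_div_cancel_left _ hl0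
    · intro k hk
      simp only [Finset.mem_filter, Finset.mem_range] at hk
      obtain ⟨h3, h4, t, rfl⟩ := hk
      rw [Nat.mul_div_cancel_left _ hl0]
      congr 1
      push_cast
      field_simp
  have h3 : RS J (l * m) + ∑ k ∈ (range (l * m)).filter (fun k => Nat.Coprime k m ∧ l ∣ k),
      J ((k : ℚ) / ((l * m : ℕ) : ℚ)) = ∑ k ∈ (range (l * m)).filter (fun k => Nat.Coprime k m),
      J ((k : ℚ) / ((l * m : ℕ) : ℚ)) := by
    rw [RS, ← Finset.sum_filter_add_sum_filter_not
      ((range (l * m)).filter (fun k => Nat.Coprime k m)) (fun k => ¬ l ∣ k)]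
    rw [Finset.filter_filter, Finset.filter_filter]
    congr 1
    · refine Finset.sum_congr ?_ fun _ _ => rfl
      ext k
      simp only [Finset.mem_filter, Finset.mem_range]
      refine and_congr_right fun _ => ?_
      rw [Nat.coprime_mul_iff_right, and_comm]
      refine and_congr_right fun _ => ?_
      rw [Nat.coprime_comm, hl.coprime_iff_not_dvd]
    · refine Finset.sum_congr ?_ fun _ _ => rfl
      ext k
      simp
  have h4 : ∑ k ∈ (range m).filter (fun k => Nat.Coprime k m),
        ∑ b ∈ range l, J (((k : ℚ) / (m : ℚ) + b) / l) = a l * RS J m - RS J m := by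
    have h5 := S.RS_mul hm l hlm
    conv_rhs => rhs; rw [← h5]
    rw [RS, Finset.mul_sum, ← Finset.sum_sub_distrib]
    refine Finset.sum_congr rfl fun k _ => ?_
    have := S.hecke l hl hlN (k : ℤ) m hm hmN
    push_cast at this
    rw [this]
    ring
  rw [h2] at h3
  linear_combination h3 + h1 + h4

/-- The sum over the reduced residues modulo a squarefree number. -/
theorem Symb.RS_eq (m : ℕ) (hm : Squarefree m) (hmN : Nat.Coprime m N) :
    RS J m = (∏ l ∈ m.primeFactors, (a l - 2)) * J 0 := by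
  induction m using Nat.strong_induction_on with
  | _ m ih =>
    have hm0 : m ≠ 0 := hm.ne_zero
    rcases eq_or_ne m 1 with rfl | h1
    · simp [RS]
    · obtain ⟨p, hp, t, rfl⟩ := Nat.exists_prime_and_dvd h1
      have ht0 : t ≠ 0 := by
        rintro rfl
        exact hm0 (mul_zero p)
      have hpt : Nat.Coprime p t := (Nat.squarefree_mul_iff.1 hm).1
      have hts : Squarefree t := (Nat.squarefree_mul_iff.1 hm).2.2
      have hpN : Nat.Coprime p N := Nat.Coprime.coprime_mul_right hmN
      have htN : Nat.Coprime t N := Nat.Coprime.coprime_mul_left hmN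
      have hlt : t < p * t := by
        have := hp.two_le
        nlinarith [Nat.pos_of_ne_zero ht0]
      rw [S.RS_prime (Nat.pos_of_ne_zero ht0) htN hp hpN hpt, ih t hlt hts htN,
        hpt.primeFactors_mul, hp.primeFactors, Finset.prod_union
        (by rw [Finset.disjoint_singleton_left]
            intro h
            have h2 := Nat.dvd_of_mem_primeFactors h
            exact hp.coprime_iff_not_dvd.1 hpt h2), Finset.prod_singleton]
      ring

end MS63
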