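import Pool.Agent.MP_9ab903_nt.NT.Q1
import Pool.Agent.MP_9ab903_nt.AN.B5

/-!
# [NC11] modular symbols, part 2: the twisted sums are 2-adic units
-/

set_option autoImplicit false

open Finset
open scoped ComplexConjugate Classical

namespace MS63

/-- normalised real part -/
noncomputable def wE (J : ℚ → ℂ) (Op : ℝ) {f : ℕ} (x : (ZMod f)ˣ) : ℂ :=
  (((J (((x : ZMod f).val : ℚ) / (f : ℚ))).re / Op : ℝ) : ℂ)

/-- normalised imaginary part -/
noncomputable def wO (J : ℚ → ℂ) (Om : ℝ) {f : ℕ} (x : (ZMod f)ˣ) : ℂ :=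
  (((J (((x : ZMod f).val : ℚ) / (f : ℚ))).im / Om : ℝ) : ℂ)

/-- the weights for the character `χ` -/
noncomputable def wt (J : ℚ → ℂ) (Op Om : ℝ) {f : ℕ} (χ : DirichletCharacter ℂ f)
    (x : (ZMod f)ˣ) : ℂ := if χ (-1) = 1 then wE J Op x else wO J Om x

/-- the period for the character `χ` -/
noncomputable def pe (Op Om : ℝ) {f : ℕ} (χ : DirichletCharacter ℂ f) : ℂ :=
  if χ (-1) = 1 then 2 * Op else 2 * Om * Complex.I

/-- the algebraic part of the twisted sum -/
noncomputable def VV (J : ℚ → ℂ) (Op Om : ℝ) {f : ℕ} [NeZero f] (χ : DirichletCharacter ℂ f) : ℂ :=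
  (∑ x : (ZMod f)ˣ, χ⁻¹ (x : ZMod f) * wt J Op Om χ x) / 2

variable {N : ℕ} {a : ℕ → ℂ} {J : ℚ → ℂ} {Op Om : ℝ} {c : ℕ} (S : Symb N a J Op Om c)

theorem char_neg_one {f : ℕ} (χ : DirichletCharacter ℂ f) : χ (-1) = 1 ∨ χ (-1) = -1 := by
  have h : χ (-1) * χ (-1) = 1 := by
    rw [← map_mul, neg_mul_neg, one_mul, map_one]
  exact mul_self_eq_one_iff.1 h

theorem inv_char_neg {f : ℕ} (χ : DirichletCharacter ℂ f) (x : ZMod f) :
    χ⁻¹ (-x) = χ (-1) * χ⁻¹ x := by
  have h : χ⁻¹ (-1) = χ (-1) := by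
    rw [MulChar.inv_apply_eq_inv']
    rcases char_neg_one χ with h | h <;> rw [h] <;> norm_num
  rw [← h, ← map_mul, neg_one_mul]

include S

theorem Symb.c_ne : (c : ℂ) ≠ 0 := by
  have := S.codd.pos
  exact_mod_cast this.ne'

theorem Symb.J0 : J 0 = 2 * Op / c := by
  rw [eq_div_iff S.c_ne, mul_comm]
  exact S.zero

theorem Symb.unit_lat {f : ℕ} [NeZero f] (hf : Nat.Coprime f N) (x : (ZMod f)ˣ) :
    ∃ np nm : ℤ, (2 : ℤ) ∣ np - nm ∧ wE J Op x = 2 / c + np ∧ wO J Om x = nm := by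
  have hco : IsCoprime (((x : ZMod f).val : ℤ)) (f : ℤ) := by
    rw [Nat.isCoprime_iff_coprime]
    exact ZMod.val_coe_unit_coprime x
  obtain ⟨np, nm, h1, h2⟩ := S.lat ((x : ZMod f).val : ℤ) f (NeZero.pos f) hf hco
  refine ⟨np, nm, h1, ?_, ?_⟩
  · have h3 : (J (((x : ZMod f).val : ℚ) / (f : ℚ))).re = 2 * Op / c + np * Op := by
      rw [Int.cast_natCast] at h2
      rw [h2, S.J0]
      have : (2 * (Op : ℂ) / c) = ((2 * Op / c : ℝ) : ℂ) := by push_cast; rfl
      rw [this]
      simp [mul_assoc]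
    rw [wE, h3]
    have := S.op.ne'
    push_cast
    have h4 : (Op : ℂ) ≠ 0 := by exact_mod_cast this
    field_simp
  · have h3 : (J (((x : ZMod f).val : ℚ) / (f : ℚ))).im = nm * Om := by
      rw [Int.cast_natCast] at h2
      rw [h2, S.J0]
      have : (2 * (Op : ℂ) / c) = ((2 * Op / c : ℝ) : ℂ) := by push_cast; rfl
      rw [this]
      simp [mul_assoc]
    rw [wO, h3]
    have := S.om.ne'
    push_cast
    have h4 : (Om : ℂ) ≠ 0 := by exact_mod_cast this
    field_simp

theorem Symb.unit_neg {f : ℕ} [NeZero f] (x : (ZMod f)ˣ) :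
    J ((((-x : (ZMod f)ˣ) : ZMod f).val : ℚ) / (f : ℚ)) =
      conj (J (((x : ZMod f).val : ℚ) / (f : ℚ))) := by
  rw [← S.cj]
  have h := S.congr (NeZero.pos f) ((((-x : (ZMod f)ˣ) : ZMod f).val : ℕ) : ℤ)
    (-(((x : ZMod f).val : ℕ) : ℤ)) (by
      rw [← (ZMod.intCast_zmod_eq_zero_iff_dvd _ f)]
      push_cast
      simp)
  push_cast at h
  rw [Units.val_neg, h]
  congr 1
  ring

theorem Symb.wE_neg {f : ℕ} [NeZero f] (x : (ZMod f)ˣ) : wE J Op (-x) = wE J Op x := by
  rw [wE, S.unit_neg, Complex.conj_re, wE]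

theorem Symb.wO_neg {f : ℕ} [NeZero f] (x : (ZMod f)ˣ) : wO J Om (-x) = - wO J Om x := by
  rw [wO, S.unit_neg, Complex.conj_im, wO]
  push_cast
  ring

theorem Symb.J_eq {f : ℕ} (x : (ZMod f)ˣ) :
    J (((x : ZMod f).val : ℚ) / (f : ℚ)) = Op * wE J Op x + Om * Complex.I * wO J Om x := by
  have h1 : (Op : ℂ) ≠ 0 := by exact_mod_cast S.op.ne'
  have h2 : (Om : ℂ) ≠ 0 := by exact_mod_cast S.om.ne'
  rw [wE, wO]
  push_cast
  have h3 : (Op : ℂ) * (((J (((x : ZMod f).val : ℚ) / (f : ℚ))).re : ℂ) / Op) =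
      (J (((x : ZMod f).val : ℚ) / (f : ℚ))).re := by field_simp
  have h4 : (Om : ℂ) * Complex.I * (((J (((x : ZMod f).val : ℚ) / (f : ℚ))).im : ℂ) / Om) =
      (J (((x : ZMod f).val : ℚ) / (f : ℚ))).im * Complex.I := by field_simp
  rw [h3, h4]
  exact (Complex.re_add_im _).symm

omit S in
/-- a sum over the units of an odd function vanishes -/
theorem sum_odd {f : ℕ} [NeZero f] (g : (ZMod f)ˣ → ℂ) (h : ∀ x, g (-x) = - g x) :
    ∑ x, g x = 0 := by
  have h1 : ∑ x, g x = ∑ x, g (-x) := (Equiv.sum_comp (Equiv.neg _) g).symm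
  have h2 : ∑ x, g (-x) = - ∑ x, g x := by
    rw [← Finset.sum_neg_distrib]
    exact Finset.sum_congr rfl fun x _ => h x
  have h3 : ∑ x, g x = - ∑ x, g x := h1.trans h2
  linear_combination (1 / 2) * h3

/-- The twisted sum is the product of the period and the algebraic part. -/
theorem Symb.sum_eq {f : ℕ} [NeZero f] (χ : DirichletCharacter ℂ f) :
    ∑ x : (ZMod f)ˣ, χ⁻¹ (x : ZMod f) * J (((x : ZMod f).val : ℚ) / (f : ℚ)) =
      pe Op Om χ * VV J Op Om χ := by
  have h0 : ∑ x : (ZMod f)ˣ, χ⁻¹ (x : ZMod f) * J (((x : ZMod f).val : ℚ) / (f : ℚ)) =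
      Op * ∑ x : (ZMod f)ˣ, χ⁻¹ (x : ZMod f) * wE J Op x +
      Om * Complex.I * ∑ x : (ZMod f)ˣ, χ⁻¹ (x : ZMod f) * wO J Om x := by
    rw [Finset.mul_sum, Finset.mul_sum, ← Finset.sum_add_distrib]
    refine Finset.sum_congr rfl fun x _ => ?_
    rw [S.J_eq]
    ring
  rcases char_neg_one χ with h | h
  · have h1 : ∑ x : (ZMod f)ˣ, χ⁻¹ (x : ZMod f) * wO J Om x = 0 := by
      refine sum_odd _ fun x => ?_
      rw [Units.val_neg, inv_char_neg, h, S.wO_neg]
      ring
    rw [h0, h1, pe, if_pos h, VV]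
    simp only [wt, if_pos h]
    ring
  · have h1 : ∑ x : (ZMod f)ˣ, χ⁻¹ (x : ZMod f) * wE J Op x = 0 := by
      refine sum_odd _ fun x => ?_
      rw [Units.val_neg, inv_char_neg, h, S.wE_neg]
      ring
    have h' : χ (-1) ≠ 1 := by rw [h]; norm_num
    rw [h0, h1, pe, if_neg h', VV]
    simp only [wt, if_neg h']
    ring

omit S in
/-- half systems -/
noncomputable def HS (f : ℕ) [NeZero f] : Finset (ZMod f)ˣ :=
  Finset.univ.filter fun x => 2 * (x : ZMod f).val < f

omit S in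
theorem sum_half {f : ℕ} [NeZero f] (hodd : Odd f) (hf1 : f ≠ 1) (g : (ZMod f)ˣ → ℂ)
    (h : ∀ x, g (-x) = g x) : ∑ x, g x = 2 * ∑ x ∈ HS f, g x := by
  have hval : ∀ x : (ZMod f)ˣ, (((-x : (ZMod f)ˣ) : ZMod f)).val = f - (x : ZMod f).val := by
    intro x
    have hx0 : (x : ZMod f) ≠ 0 := by
      intro h0
      have h1 : IsUnit (0 : ZMod f) := h0 ▸ x.isUnit
      rw [isUnit_zero_iff] at h1
      have : Subsingleton (ZMod f) := subsingleton_of_zero_eq_one h1
      exact hf1 ((ZMod.subsingleton_iff).1 this)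
    rw [Units.val_neg, ZMod.neg_val, if_neg hx0]
  have hlt : ∀ x : (ZMod f)ˣ, (x : ZMod f).val < f := fun x => ZMod.val_lt _
  have h1 : ∑ x ∈ Finset.univ.filter (fun x : (ZMod f)ˣ => ¬ 2 * (x : ZMod f).val < f), g x =
      ∑ x ∈ HS f, g x := by
    refine Finset.sum_nbij' (fun x => -x) (fun x => -x) ?_ ?_ ?_ ?_ ?_
    · intro x hx
      simp only [HS, Finset.mem_filter, Finset.mem_univ, true_and] at hx ⊢
      rw [hval]
      have := hlt x
      obtain ⟨k, hk⟩ := hodd
      omega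
    · intro x hx
      simp only [HS, Finset.mem_filter, Finset.mem_univ, true_and] at hx ⊢
      rw [hval]
      have := hlt x
      omega
    · intro x _
      exact neg_neg x
    · intro x _
      exact neg_neg x
    · intro x _
      exact (h x).symm
  rw [← Finset.sum_filter_add_sum_filter_not Finset.univ
    (fun x : (ZMod f)ˣ => 2 * (x : ZMod f).val < f), h1]
  rw [HS]
  ring

/-- the sum of the normalised real parts over a half system -/
theorem Symb.sum_wE {f : ℕ} [NeZero f] (hodd : Odd f) (hf1 : f ≠ 1) (hsq : Squarefree f)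
    (hfN : Nat.Coprime f N) :
    ∑ x ∈ HS f, wE J Op x = (∏ l ∈ f.primeFactors, (a l - 2)) / c := by
  have h1 : (Op : ℂ) ≠ 0 := by exact_mod_cast S.op.ne'
  have h2 := S.RS_eq f hsq hfN
  rw [RS_units, Finset.sum_congr rfl fun x _ => S.J_eq x, Finset.sum_add_distrib,
    ← Finset.mul_sum, ← Finset.mul_sum, sum_odd (fun x => wO J Om x) S.wO_neg, mul_zero, add_zero,
    sum_half hodd hf1 (fun x => wE J Op x) S.wE_neg, S.J0] at h2
  have hc := S.c_ne
  have h3 : (2 * (Op : ℂ)) * ∑ x ∈ HS f, wE J Op x =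
      (2 * (Op : ℂ)) * ((∏ l ∈ f.primeFactors, (a l - 2)) / c) := by
    linear_combination h2
  exact mul_left_cancel₀ (mul_ne_zero two_ne_zero h1) h3

theorem Symb.val_c (A : ValuationSubring ℂ) (hA : A.valuation 2 < 1) : A.valuation (c : ℂ) = 1 := by
  have := CM27.val_odd A hA (c : ℤ) (by exact_mod_cast S.codd)
  simpa using this

/-- **The twisted sums are 2-adic units.** -/
theorem Symb.VV_unit {f : ℕ} [NeZero f] (hodd : Odd f) (hsq : Squarefree f)
    (hfN : Nat.Coprime f N) (ha : ∀ l ∈ f.primeFactors, ∃ n : ℤ, Odd n ∧ a l = n)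
    (χ : DirichletCharacter ℂ f) (n : ℕ) (hχ : χ ^ (2 ^ n) = 1)
    (A : ValuationSubring ℂ) (hA : A.valuation 2 < 1) : A.valuation (VV J Op Om χ) = 1 := by
  have hc := S.c_ne
  have hvc := S.val_c A hA
  rcases eq_or_ne f 1 with rfl | hf1
  · have h1 : χ (-1) = 1 := by
      have : (-1 : ZMod 1) = 1 := Subsingleton.elim _ _
      rw [this, map_one]
    have h2 : VV J Op Om χ = 1 / c := by
      rw [VV, Fintype.sum_subsingleton _ (1 : (ZMod 1)ˣ), Units.val_one, map_one, one_mul, wt,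
        if_pos h1, wE]
      have h3 : J ((((1 : (ZMod 1)ˣ) : ZMod 1).val : ℚ) / ((1 : ℕ) : ℚ)) = J 0 := by
        congr 1
        have : (((1 : (ZMod 1)ˣ) : ZMod 1).val) = 0 := by
          have := ZMod.val_lt (((1 : (ZMod 1)ˣ) : ZMod 1))
          omega
        rw [this]
        simp
      rw [h3]
      have h4 : (J 0).re = 2 * Op / c := by
        rw [S.J0]
        have : (2 * (Op : ℂ) / c) = ((2 * Op / c : ℝ) : ℂ) := by push_cast; rfl
        rw [this, Complex.ofReal_re]
      rw [h4]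
      have h5 : (Op : ℂ) ≠ 0 := by exact_mod_cast S.op.ne'
      push_cast
      field_simp
    rw [h2, map_div₀, map_one, hvc, div_one]
  · have hS := S.sum_wE hodd hf1 hsq hfN
    have hSv : A.valuation (∑ x ∈ HS f, wE J Op x) = 1 := by
      rw [hS, map_div₀, hvc, div_one, map_prod]
      refine Finset.prod_eq_one fun l hl => ?_
      obtain ⟨k, hk, hk2⟩ := ha l hl
      rw [hk2]
      have := CM27.val_odd A hA (k - 2) (by
        obtain ⟨t, ht⟩ := hk
        exact ⟨t - 1, by rw [ht]; ring⟩)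
      push_cast at this
      exact this
    have hV : VV J Op Om χ = ∑ x ∈ HS f, χ⁻¹ (x : ZMod f) * wt J Op Om χ x := by
      rw [VV, sum_half hodd hf1 (fun x : (ZMod f)ˣ => χ⁻¹ (x : ZMod f) * wt J Op Om χ x)]
      · ring
      · intro x
        rw [Units.val_neg, inv_char_neg, wt, wt]
        rcases char_neg_one χ with h | h
        · rw [if_pos h, if_pos h, h, S.wE_neg]
          ring
        · have h' : χ (-1) ≠ 1 := by rw [h]; norm_num
          rw [if_neg h', if_neg h', h, S.wO_neg]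
          ring
    have hroot : ∀ x : (ZMod f)ˣ, A.valuation (χ⁻¹ (x : ZMod f) - 1) < 1 := by
      intro x
      have h1 : (χ⁻¹ (x : ZMod f)) ^ 2 ^ n = 1 := by
        have h2 : (χ⁻¹) ^ (2 ^ n) = 1 := by rw [inv_pow, hχ, inv_one]
        rw [← MulChar.pow_apply_coe, h2, MulChar.one_apply_coe]
      exact (CM27.val_root A hA _ n h1).2
    have hroot' : ∀ x : (ZMod f)ˣ, A.valuation (χ⁻¹ (x : ZMod f)) = 1 := by
      intro x
      have h1 : (χ⁻¹ (x : ZMod f)) ^ 2 ^ n = 1 := by
        have h2 : (χ⁻¹) ^ (2 ^ n) = 1 := by rw [inv_pow, hχ, inv_one]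
        rw [← MulChar.pow_apply_coe, h2, MulChar.one_apply_coe]
      exact (CM27.val_root A hA _ n h1).1
    have h2c : A.valuation (2 / (c : ℂ)) < 1 := by
      rw [map_div₀, hvc, div_one]
      exact hA
    have hdiff : A.valuation (∑ x ∈ HS f, (χ⁻¹ (x : ZMod f) * wt J Op Om χ x - wE J Op x)) < 1 := by
      refine Valuation.map_sum_lt _ one_ne_zero fun x _ => ?_
      obtain ⟨np, nm, h1, h2, h3⟩ := S.unit_lat hfN x
      rw [wt]
      split_ifs with h
      · have h4 : χ⁻¹ (x : ZMod f) * wE J Op x - wE J Op x =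
            (χ⁻¹ (x : ZMod f) - 1) * wE J Op x := by ring
        rw [h4, map_mul]
        have h5 : A.valuation (wE J Op x) ≤ 1 := by
          rw [h2]
          exact (Valuation.map_add _ _ _).trans (max_le h2c.le (CM27.i1_val_int A np))
        calc A.valuation (χ⁻¹ (x : ZMod f) - 1) * A.valuation (wE J Op x)
            ≤ A.valuation (χ⁻¹ (x : ZMod f) - 1) * 1 := mul_le_mul_right h5 _
          _ < 1 := by rw [mul_one]; exact hroot x
      · have h4 : χ⁻¹ (x : ZMod f) * wO J Om x - wE J Op x =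
            (χ⁻¹ (x : ZMod f) - 1) * wO J Om x + (wO J Om x - wE J Op x) := by ring
        rw [h4]
        refine Valuation.map_add_lt _ ?_ ?_
        · rw [map_mul]
          have h5 : A.valuation (wO J Om x) ≤ 1 := by
            rw [h3]
            exact CM27.i1_val_int A nm
          calc A.valuation (χ⁻¹ (x : ZMod f) - 1) * A.valuation (wO J Om x)
              ≤ A.valuation (χ⁻¹ (x : ZMod f) - 1) * 1 := mul_le_mul_right h5 _
            _ < 1 := by rw [mul_one]; exact hroot x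
        · have h6 : wO J Om x - wE J Op x = - (2 / (c : ℂ)) + ((nm - np : ℤ) : ℂ) := by
            rw [h2, h3]
            push_cast
            ring
          rw [h6]
          refine Valuation.map_add_lt _ ?_ ?_
          · rw [Valuation.map_neg]
            exact h2c
          · refine CM27.b5_val_even A hA _ ?_
            rw [← dvd_neg, neg_sub]
            exact h1
    have hsum : VV J Op Om χ = (∑ x ∈ HS f, (χ⁻¹ (x : ZMod f) * wt J Op Om χ x - wE J Op x)) +
        ∑ x ∈ HS f, wE J Op x := by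
      rw [hV, ← Finset.sum_add_distrib]
      exact Finset.sum_congr rfl fun x _ => by ring
    rw [hsum, Valuation.map_add_eq_of_lt_right _ (by rw [hSv]; exact hdiff), hSv]

end MS63
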