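import Pool.Agent.MP_9ab903_nt.NT.V1
import Pool.Agent.MP_9ab903_nt.Tam
import Pool.Agent.MP_dfae13_nt.T.J2

/-!
# Minimal models over a discrete valuation ring: independence of the choice
-/

set_option autoImplicit false

open scoped Classical

namespace VC63

open WeierstrassCurve WeierstrassCurve.Affine SBSD

variable {A : Type} [CommRing A] [IsDomain A] [IsDiscreteValuationRing A]
  {K : Type} [Field K] [Algebra A K] [IsFractionRing A K]

section roots

open Polynomial

theorem root_integral (p : A[X]) (hp : p.Monic) (x : K)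
    (hx : p.eval₂ (algebraMap A K) x = 0) : ∃ a : A, algebraMap A K a = x :=
  IsIntegrallyClosed.algebraMap_eq_of_integral ⟨p, hp, hx⟩

theorem root2 (c1 c0 : A) (x : K)
    (hx : x ^ 2 + algebraMap A K c1 * x + algebraMap A K c0 = 0) :
    ∃ a : A, algebraMap A K a = x := by
  refine root_integral (X ^ 2 + C c1 * X + C c0) (by monicity!) _ ?_
  simp only [eval₂_add, eval₂_mul, eval₂_pow, eval₂_X, eval₂_C]
  exact hx

theorem root3 (c2 c1 c0 : A) (x : K)
    (hx : x ^ 3 + algebraMap A K c2 * x ^ 2 + algebraMap A K c1 * x + algebraMap A K c0 = 0) :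
    ∃ a : A, algebraMap A K a = x := by
  refine root_integral (X ^ 3 + C c2 * X ^ 2 + C c1 * X + C c0) (by monicity!) _ ?_
  simp only [eval₂_add, eval₂_mul, eval₂_pow, eval₂_X, eval₂_C]
  exact hx

theorem root4 (c3 c2 c1 c0 : A) (x : K)
    (hx : x ^ 4 + algebraMap A K c3 * x ^ 3 + algebraMap A K c2 * x ^ 2 + algebraMap A K c1 * x +
      algebraMap A K c0 = 0) :
    ∃ a : A, algebraMap A K a = x := by
  refine root_integral (X ^ 4 + C c3 * X ^ 3 + C c2 * X ^ 2 + C c1 * X + C c0) (by monicity!) _ ?_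
  simp only [eval₂_add, eval₂_mul, eval₂_pow, eval₂_X, eval₂_C]
  exact hx

end roots

/-- The points of nonsingular reduction, for an integral equation `I`. -/
def NR (I : WeierstrassCurve A) : (I.map (algebraMap A K)).toAffine.Point → Prop
  | .zero => True
  | .some x y _ => ∀ a b : A, algebraMap A K a = x → algebraMap A K b = y →
      (I.map (IsLocalRing.residue A)).toAffine.Nonsingular (IsLocalRing.residue A a)
        (IsLocalRing.residue A b)

/-- A change of variables between integral equations with `u` a unit is integral. -/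
theorem exists_rst (I J : WeierstrassCurve A) (T : WeierstrassCurve.VariableChange K)
    (h : T • I.map (algebraMap A K) = J.map (algebraMap A K))
    (hu : (IsDiscreteValuationRing.maximalIdeal A).valuation K (T.u : K) = 1) :
    ∃ T₀ : WeierstrassCurve.VariableChange A, T₀.map (algebraMap A K) = T ∧ T₀ • I = J := by
  have hinj : Function.Injective (algebraMap A K) := IsFractionRing.injective A K
  obtain ⟨u, hu'⟩ := CMT.exists_u A T hu
  set W := I.map (algebraMap A K) with hW
  have hb6 : (T.u : K) ^ 6 * (T • W).b₆ = W.b₆ + 2 * T.r * W.b₄ + T.r ^ 2 * W.b₂ + 4 * T.r ^ 3 := by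
    rw [variableChange_b₆, ← mul_assoc, ← mul_pow, Units.mul_inv, one_pow, one_mul]
  have hb8 : (T.u : K) ^ 8 * (T • W).b₈ =
      W.b₈ + 3 * T.r * W.b₆ + 3 * T.r ^ 2 * W.b₄ + T.r ^ 3 * W.b₂ + 3 * T.r ^ 4 := by
    rw [variableChange_b₈, ← mul_assoc, ← mul_pow, Units.mul_inv, one_pow, one_mul]
  rw [h, hu'] at hb6 hb8
  simp only [hW, map_b₂, map_b₄, map_b₆, map_b₈] at hb6 hb8
  -- `4 r` is integral
  obtain ⟨r4, hr4⟩ : ∃ a : A, algebraMap A K a = 4 * T.r := by
    refine root3 I.b₂ (8 * I.b₄) (16 * (I.b₆ - (u : A) ^ 6 * J.b₆)) _ ?_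
    simp only [map_mul, map_sub, map_pow, map_ofNat]
    linear_combination -16 * hb6
  obtain ⟨r3, hr3⟩ : ∃ a : A, algebraMap A K a = 3 * T.r := by
    refine root4 I.b₂ (9 * I.b₄) (27 * I.b₆) (27 * (I.b₈ - (u : A) ^ 8 * J.b₈)) _ ?_
    simp only [map_mul, map_sub, map_pow, map_ofNat]
    linear_combination -27 * hb8
  have hr : algebraMap A K (r4 - r3) = T.r := by
    rw [map_sub, hr4, hr3]; ring
  have h2 := rel2 W T
  have h6 := rel6 W T
  rw [h, hu'] at h2 h6
  simp only [hW, map_a₁, map_a₂, map_a₃, map_a₄, map_a₆] at h2 h6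
  generalize r4 - r3 = r at hr
  obtain ⟨s, hs⟩ : ∃ a : A, algebraMap A K a = T.s := by
    refine root2 I.a₁ ((u : A) ^ 2 * J.a₂ - I.a₂ - 3 * r) _ ?_
    simp only [map_mul, map_sub, map_pow, map_ofNat, hr]
    linear_combination h2
  obtain ⟨t, ht⟩ : ∃ a : A, algebraMap A K a = T.t := by
    refine root2 (I.a₃ + r * I.a₁) ((u : A) ^ 6 * J.a₆ - I.a₆ -
      r * I.a₄ - r ^ 2 * I.a₂ - r ^ 3) _ ?_
    simp only [map_mul, map_sub, map_pow, map_add, hr]
    linear_combination h6
  have hT : (⟨u, r, s, t⟩ : WeierstrassCurve.VariableChange A).map (algebraMap A K) = T := by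
    ext
    · exact hu'.symm
    · exact hr
    · exact hs
    · exact ht
  refine ⟨⟨u, r, s, t⟩, hT, ?_⟩
  apply WeierstrassCurve.map_injective hinj
  show ((⟨u, r, s, t⟩ : WeierstrassCurve.VariableChange A) • I).map (algebraMap A K) =
    J.map (algebraMap A K)
  rw [← map_variableChange, hT]
  exact h

theorem vX_mem {T₀ : WeierstrassCurve.VariableChange A} {T : WeierstrassCurve.VariableChange K}
    (hT : T₀.map (algebraMap A K) = T) (a : A) :
    algebraMap A K ((T₀.u : A) ^ 2 * a + T₀.r) = vX T (algebraMap A K a) := by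
  subst hT
  simp [vX, VariableChange.map]

theorem vY_mem {T₀ : WeierstrassCurve.VariableChange A} {T : WeierstrassCurve.VariableChange K}
    (hT : T₀.map (algebraMap A K) = T) (a b : A) :
    algebraMap A K ((T₀.u : A) ^ 3 * b + (T₀.u : A) ^ 2 * T₀.s * a + T₀.t) =
      vY T (algebraMap A K a) (algebraMap A K b) := by
  subst hT
  simp [vY, VariableChange.map]

theorem mem_of_vX {T₀ : WeierstrassCurve.VariableChange A} {T : WeierstrassCurve.VariableChange K}
    (hT : T₀.map (algebraMap A K) = T) (x : K) (a : A) (h : algebraMap A K a = vX T x) :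
    ∃ a' : A, algebraMap A K a' = x ∧ a = (T₀.u : A) ^ 2 * a' + T₀.r := by
  have hinj : Function.Injective (algebraMap A K) := IsFractionRing.injective A K
  have hu : (T₀.u : A) * ((T₀.u⁻¹ : Aˣ) : A) = 1 := by simp
  have huK : algebraMap A K (T₀.u : A) = (T.u : K) := by subst hT; rfl
  have hrK : algebraMap A K T₀.r = T.r := by subst hT; rfl
  refine ⟨((T₀.u⁻¹ : Aˣ) : A) ^ 2 * (a - T₀.r), ?_, ?_⟩
  · have h1 : algebraMap A K (T₀.u : A) * algebraMap A K ((T₀.u⁻¹ : Aˣ) : A) = 1 := by
      rw [← map_mul, hu, map_one]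
    rw [map_mul, map_pow, map_sub, h, hrK, vX, ← huK]
    have h2 : algebraMap A K (T₀.u : A) ^ 2 * algebraMap A K ((T₀.u⁻¹ : Aˣ) : A) ^ 2 = 1 := by
      rw [← mul_pow, h1, one_pow]
    linear_combination x * h2
  · have h2 : (T₀.u : A) ^ 2 * ((T₀.u⁻¹ : Aˣ) : A) ^ 2 = 1 := by
      rw [← mul_pow, hu, one_pow]
    linear_combination (-(a - T₀.r)) * h2

theorem mem_of_vY {T₀ : WeierstrassCurve.VariableChange A} {T : WeierstrassCurve.VariableChange K}
    (hT : T₀.map (algebraMap A K) = T) (a' : A) (y : K) (b : A)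
    (h : algebraMap A K b = vY T (algebraMap A K a') y) :
    ∃ b' : A, algebraMap A K b' = y ∧
      b = (T₀.u : A) ^ 3 * b' + (T₀.u : A) ^ 2 * T₀.s * a' + T₀.t := by
  have hu : (T₀.u : A) * ((T₀.u⁻¹ : Aˣ) : A) = 1 := by simp
  have huK : algebraMap A K (T₀.u : A) = (T.u : K) := by subst hT; rfl
  have hsK : algebraMap A K T₀.s = T.s := by subst hT; rfl
  have htK : algebraMap A K T₀.t = T.t := by subst hT; rfl
  refine ⟨((T₀.u⁻¹ : Aˣ) : A) ^ 3 * (b - T₀.t - (T₀.u : A) ^ 2 * T₀.s * a'), ?_, ?_⟩
  · have h1 : algebraMap A K (T₀.u : A) * algebraMap A K ((T₀.u⁻¹ : Aˣ) : A) = 1 := by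
      rw [← map_mul, hu, map_one]
    have h2 : algebraMap A K (T₀.u : A) ^ 3 * algebraMap A K ((T₀.u⁻¹ : Aˣ) : A) ^ 3 = 1 := by
      rw [← mul_pow, h1, one_pow]
    rw [map_mul, map_pow, map_sub, map_sub, map_mul, map_mul, map_pow, h, htK, hsK, vY, ← huK]
    linear_combination y * h2
  · have h2 : (T₀.u : A) ^ 3 * ((T₀.u⁻¹ : Aˣ) : A) ^ 3 = 1 := by
      rw [← mul_pow, hu, one_pow]
    linear_combination (-(b - T₀.t - (T₀.u : A) ^ 2 * T₀.s * a')) * h2

theorem residue_nonsingular (I : WeierstrassCurve A) (T₀ : WeierstrassCurve.VariableChange A)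
    (a b : A) :
    ((T₀ • I).map (IsLocalRing.residue A)).toAffine.Nonsingular (IsLocalRing.residue A a)
      (IsLocalRing.residue A b) ↔
    (I.map (IsLocalRing.residue A)).toAffine.Nonsingular
      (IsLocalRing.residue A ((T₀.u : A) ^ 2 * a + T₀.r))
      (IsLocalRing.residue A ((T₀.u : A) ^ 3 * b + (T₀.u : A) ^ 2 * T₀.s * a + T₀.t)) := by
  rw [← map_variableChange, vc_nonsingular]
  have e1 : vX (T₀.map (IsLocalRing.residue A)) (IsLocalRing.residue A a) =
      IsLocalRing.residue A ((T₀.u : A) ^ 2 * a + T₀.r) := by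
    simp [vX, VariableChange.map]
  have e2 : vY (T₀.map (IsLocalRing.residue A)) (IsLocalRing.residue A a)
      (IsLocalRing.residue A b) =
      IsLocalRing.residue A ((T₀.u : A) ^ 3 * b + (T₀.u : A) ^ 2 * T₀.s * a + T₀.t) := by
    simp [vY, VariableChange.map]
  rw [e1, e2]

/-- Nonsingular reduction on a minimal equation `T • I` and on `I`. -/
theorem nonsingularReduction_iff (I : WeierstrassCurve A) (T : WeierstrassCurve.VariableChange K)
    [hmin : (T • I.map (algebraMap A K)).IsMinimal A]
    (hu : (IsDiscreteValuationRing.maximalIdeal A).valuation K (T.u : K) = 1)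
    (P : (T • I.map (algebraMap A K)).toAffine.Point) :
    NonsingularReduction A (T • I.map (algebraMap A K)) P ↔
      NR I (vcFun (I.map (algebraMap A K)) T P) := by
  have hJ : (T • I.map (algebraMap A K)) =
      ((T • I.map (algebraMap A K)).integralModel A).map (algebraMap A K) :=
    (baseChange_integralModel_eq A (T • I.map (algebraMap A K))).symm
  obtain ⟨T₀, hT, hI⟩ := exists_rst I _ T hJ hu
  have hred : (T • I.map (algebraMap A K)).reduction A =
      (T₀ • I).map (IsLocalRing.residue A) := by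
    rw [hI]; rfl
  rcases P with _ | ⟨x, y, hxy⟩
  · exact iff_of_true trivial trivial
  · rw [vcFun_some]
    simp only [NonsingularReduction, NR, hred]
    constructor
    · intro H a b ha hb
      obtain ⟨a', ha', rfl⟩ := mem_of_vX hT x a ha
      rw [← ha'] at hb
      obtain ⟨b', hb', rfl⟩ := mem_of_vY hT a' y b hb
      rw [← residue_nonsingular]
      exact H a' b' ha' hb'
    · intro H a b ha hb
      subst ha hb
      rw [residue_nonsingular]
      exact H _ _ (vX_mem hT a) (vY_mem hT a b)

/-- The Tamagawa number can be computed on an integral equation `I` for which the change of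
variables to a minimal equation has a unit `u`. -/
theorem tamagawa_eq (I : WeierstrassCurve A)
    (h : ∀ T : WeierstrassCurve.VariableChange K, (T • I.map (algebraMap A K)).IsMinimal A →
      (IsDiscreteValuationRing.maximalIdeal A).valuation K (T.u : K) = 1) :
    tamagawa A (I.map (algebraMap A K)) =
      (AddSubgroup.closure {P : (I.map (algebraMap A K)).toAffine.Point | NR I P}).index := by
  have hm : ((((I.map (algebraMap A K)).exists_isMinimal A).choose) •
    I.map (algebraMap A K)).IsMinimal A := ((I.map (algebraMap A K)).exists_isMinimal A).choose_spec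
  have hu := h _ hm
  set T := ((I.map (algebraMap A K)).exists_isMinimal A).choose with hT
  have h1 : (AddSubgroup.closure {P : (T • I.map (algebraMap A K)).toAffine.Point |
      NonsingularReduction A (T • I.map (algebraMap A K)) P}).map
        (vcEquiv (I.map (algebraMap A K)) T).toAddMonoidHom =
      AddSubgroup.closure {P : (I.map (algebraMap A K)).toAffine.Point | NR I P} := by
    rw [AddMonoidHom.map_closure]
    congr 1
    ext Q
    constructor
    · rintro ⟨P, hP, rfl⟩
      exact (nonsingularReduction_iff I T hu P).1 hP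
    · intro hQ
      obtain ⟨P, rfl⟩ := (vcFun_bijective (I.map (algebraMap A K)) T).2 Q
      exact ⟨P, (nonsingularReduction_iff I T hu P).2 hQ, rfl⟩
  rw [← h1]
  exact (AddSubgroup.index_map_equiv _ (vcEquiv (I.map (algebraMap A K)) T)).symm

end VC63
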