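import Pool.Agent.MP_9ab903_nt.NT.V2

/-!
# The component group of `y² + (1 - t) x y - t y = x³ - t x²` over a discrete valuation ring with
uniformizer `t`
-/

set_option autoImplicit false

open scoped Classical

namespace VC63

open WeierstrassCurve WeierstrassCurve.Affine SBSD

variable {A : Type} [CommRing A] [IsDomain A] [IsDiscreteValuationRing A]
  {K : Type} [Field K] [Algebra A K] [IsFractionRing A K]

/-- The Tate normal form `y² + (1 - t) x y - t y = x³ - t x²` for points of order 5. -/
def I5 {R : Type} [CommRing R] (t : R) : WeierstrassCurve R := ⟨1 - t, -t, -t, 0, 0⟩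

theorem i5_equation (t : A) (x y : K) :
    ((I5 t).map (algebraMap A K)).toAffine.Equation x y ↔
      y * (y + x - algebraMap A K t * (x + 1)) = x ^ 2 * (x - algebraMap A K t) := by
  rw [equation_iff]
  simp only [I5, map_a₁, map_a₂, map_a₃, map_a₄, map_a₆, map_sub, map_one, map_neg, map_zero]
  constructor <;> intro h <;> linear_combination h

theorem i5_nr_some {t : A} (ht : Irreducible t) {x y : K}
    (h : ((I5 t).map (algebraMap A K)).toAffine.Nonsingular x y)
    (hx : ∀ a : A, algebraMap A K a = x → IsUnit a) :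
    NR (I5 t) (Point.some x y h : ((I5 t).map (algebraMap A K)).toAffine.Point) := by
  intro a b ha hb
  have hinj : Function.Injective (algebraMap A K) := IsFractionRing.injective A K
  have hu := hx a ha
  subst ha hb
  have heq := (i5_equation t _ _).1 h.1
  have heqA : b * (b + a - t * (a + 1)) = a ^ 2 * (a - t) := hinj (by
    simpa only [map_mul, map_add, map_sub, map_one, map_pow] using heq)
  have ht0 : IsLocalRing.residue A t = 0 := by
    rw [IsLocalRing.residue_eq_zero_iff]
    exact (IsLocalRing.mem_maximalIdeal _).2 ht.not_isUnit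
  set α := IsLocalRing.residue A a with hα
  set β := IsLocalRing.residue A b with hβ
  have hα0 : α ≠ 0 := by
    rw [hα, Ne, IsLocalRing.residue_eq_zero_iff, IsLocalRing.mem_maximalIdeal]
    exact fun h' => h' hu
  have heqk : β * (β + α) = α ^ 3 := by
    have h1 := congrArg (IsLocalRing.residue A) heqA
    simp only [map_mul, map_add, map_sub, map_one, map_pow, ht0] at h1
    linear_combination h1
  rw [nonsingular_iff', equation_iff']
  simp only [I5, map_a₁, map_a₂, map_a₃, map_a₄, map_a₆, map_sub, map_one, map_neg, map_zero, ht0]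
  refine ⟨by linear_combination heqk, ?_⟩
  by_contra hcon
  push Not at hcon
  obtain ⟨h1, h2⟩ := hcon
  have e1 : β = 3 * α ^ 2 := by linear_combination h1
  have e2 : 6 * α + 1 = 0 := by
    have : α * (6 * α + 1) = 0 := by rw [e1] at h2; linear_combination h2
    exact (mul_eq_zero.1 this).resolve_left hα0
  have e3 : 9 * α + 2 = 0 := by
    have : α ^ 3 * (9 * α + 2) = 0 := by rw [e1] at heqk; linear_combination heqk
    exact (mul_eq_zero.1 this).resolve_left (pow_ne_zero _ hα0)
  have e4 : (1 : IsLocalRing.ResidueField A) = 0 := by linear_combination 2 * e3 - 3 * e2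
  exact one_ne_zero e4

/-- A unit of `A` minus a multiple of `t`. -/
theorem unit_of_add_mul {t : A} (ht : Irreducible t) {x c : A} (hx : ¬ t ∣ x - t * c) :
    IsUnit x := by
  by_contra h
  have h1 : x ∈ IsLocalRing.maximalIdeal A := (IsLocalRing.mem_maximalIdeal _).2 h
  rw [(IsDiscreteValuationRing.irreducible_iff_uniformizer t).1 ht, Ideal.mem_span_singleton] at h1
  exact hx (dvd_sub h1 (dvd_mul_right _ _))

theorem unit_of_not_dvd {t : A} (ht : Irreducible t) {x : A} (hx : ¬ t ∣ x) : IsUnit x := by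
  refine unit_of_add_mul ht (c := 0) ?_
  rwa [mul_zero, sub_zero]

theorem i5_nonsingular {t : A} (x y : K)
    (h : y * (y + x - algebraMap A K t * (x + 1)) = x ^ 2 * (x - algebraMap A K t))
    (h2 : 2 * y + (1 - algebraMap A K t) * x - algebraMap A K t ≠ 0) :
    ((I5 t).map (algebraMap A K)).toAffine.Nonsingular x y := by
  rw [nonsingular_iff', i5_equation]
  refine ⟨h, Or.inr ?_⟩
  simp only [I5, map_a₁, map_a₃, map_sub, map_one, map_neg]
  intro h3
  apply h2
  linear_combination h3

theorem tK_ne {t : A} (ht : Irreducible t) : algebraMap A K t ≠ 0 := by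
  have hinj : Function.Injective (algebraMap A K) := IsFractionRing.injective A K
  rw [Ne, ← map_zero (algebraMap A K)]
  exact fun h => ht.ne_zero (hinj h)

/-- The point `(0, 0)`. -/
noncomputable def i5T (K : Type) [Field K] [Algebra A K] [IsFractionRing A K] {t : A}
    (ht : Irreducible t) : ((I5 t).map (algebraMap A K)).toAffine.Point :=
  .some 0 0 (i5_nonsingular 0 0 (by ring) (by simpa using tK_ne (K := K) ht))

/-- The point `(t, 0)`. -/
noncomputable def i5S (K : Type) [Field K] [Algebra A K] [IsFractionRing A K] {t : A}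
    (ht : Irreducible t) : ((I5 t).map (algebraMap A K)).toAffine.Point :=
  .some (algebraMap A K t) 0 (i5_nonsingular _ 0 (by ring) (by
    have h := tK_ne (K := K) ht
    have h2 : (2 : K) * 0 + (1 - algebraMap A K t) * algebraMap A K t - algebraMap A K t =
      -(algebraMap A K t) ^ 2 := by ring
    rw [h2]
    exact neg_ne_zero.2 (pow_ne_zero _ h)))

theorem i5_negY {t : A} (x y : K) : ((I5 t).map (algebraMap A K)).toAffine.negY x y =
    -y - (1 - algebraMap A K t) * x + algebraMap A K t := by
  simp only [negY, I5, map_a₁, map_a₃, map_sub, map_one, map_neg]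
  ring

theorem i5_addX {t : A} (x₁ x₂ l : K) : ((I5 t).map (algebraMap A K)).toAffine.addX x₁ x₂ l =
    l ^ 2 + (1 - algebraMap A K t) * l + algebraMap A K t - x₁ - x₂ := by
  simp only [addX, I5, map_a₁, map_a₂, map_sub, map_one, map_neg]
  ring

theorem i5_neg_T {t : A} (ht : Irreducible t) (h : ((I5 t).map (algebraMap A K)).toAffine.Nonsingular
    0 (algebraMap A K t)) : -(i5T K ht) = .some 0 (algebraMap A K t) h := by
  rw [i5T, Point.neg_some]
  exact some_congr _ rfl (by rw [i5_negY]; ring) _ _

theorem i5_two_T {t : A} (ht : Irreducible t) : i5T K ht + i5T K ht = -(i5S K ht) := by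
  have h := tK_ne (K := K) ht
  have hy : (0 : K) ≠ ((I5 t).map (algebraMap A K)).toAffine.negY 0 0 := by
    rw [i5_negY]
    intro h'
    apply h
    linear_combination -h'
  rw [i5T, i5S, Point.neg_some, Point.add_self_of_Y_ne hy]
  have hs : ((I5 t).map (algebraMap A K)).toAffine.slope 0 0 0 0 = 0 := by
    rw [slope_of_Y_ne rfl hy]
    simp [I5]
  refine some_congr _ ?_ ?_ _ _
  · rw [hs, i5_addX]; ring
  · rw [addY, negAddY, hs, i5_addX, i5_negY, i5_negY]; ring

theorem i5_two_S {t : A} (ht : Irreducible t) : i5S K ht + i5S K ht = i5T K ht := by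
  have h := tK_ne (K := K) ht
  have hy : (0 : K) ≠ ((I5 t).map (algebraMap A K)).toAffine.negY (algebraMap A K t) 0 := by
    rw [i5_negY]
    intro h'
    apply h
    have : algebraMap A K t ^ 2 = 0 := by linear_combination -h'
    exact pow_eq_zero_iff two_ne_zero |>.1 this
  rw [i5T, i5S, Point.add_self_of_Y_ne hy]
  have hs : ((I5 t).map (algebraMap A K)).toAffine.slope (algebraMap A K t) (algebraMap A K t) 0 0
      = -1 := by
    rw [slope_of_Y_ne rfl hy, i5_negY]
    simp only [I5, map_a₁, map_a₂, map_a₄, map_sub, map_one, map_neg, map_zero]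
    have e : (0 : K) - (-0 - (1 - algebraMap A K t) * algebraMap A K t + algebraMap A K t) =
      -(algebraMap A K t) ^ 2 := by ring
    rw [e, div_eq_iff (neg_ne_zero.2 (pow_ne_zero _ h))]
    ring
  refine some_congr _ ?_ ?_ _ _
  · rw [hs, i5_addX]; ring
  · rw [addY, negAddY, hs, i5_addX, i5_negY]; ring

/-- Component 1: `P = (t ξ, t η)` with `t ∣ η`, `t ∤ ξ - 1`. -/
theorem i5_case1 {t : A} (ht : Irreducible t) (ξ η : A) (h1 : t ∣ η) (h2 : ¬ t ∣ ξ - 1)
    (h : ((I5 t).map (algebraMap A K)).toAffine.Nonsingular (algebraMap A K (t * ξ))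
      (algebraMap A K (t * η))) :
    NR (I5 t) ((.some _ _ h : ((I5 t).map (algebraMap A K)).toAffine.Point) - i5T K ht) := by
  have hinj : Function.Injective (algebraMap A K) := IsFractionRing.injective A K
  have htK := tK_ne (K := K) ht
  have hT4 : ((I5 t).map (algebraMap A K)).toAffine.Nonsingular 0 (algebraMap A K t) :=
    i5_nonsingular _ _ (by ring) (by
      have e : 2 * algebraMap A K t + (1 - algebraMap A K t) * 0 - algebraMap A K t =
        algebraMap A K t := by ring
      rw [e]; exact htK)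
  rw [sub_eq_add_neg, i5_neg_T ht hT4]
  have heq := (i5_equation t _ _).1 h.1
  have heqA : t * η * (t * η + t * ξ - t * (t * ξ + 1)) = (t * ξ) ^ 2 * (t * ξ - t) := hinj (by
    simpa only [map_mul, map_add, map_sub, map_one, map_pow] using heq)
  obtain ⟨η', rfl⟩ := h1
  by_cases hξ : ξ = 0
  · subst hξ
    -- `η (η - 1) = 0`
    have e1 : (t ^ 3 * η') * (t * η' - 1) = 0 := by linear_combination heqA
    have e2 : t * η' - 1 ≠ 0 := by
      intro h0
      exact ht.not_isUnit (IsUnit.of_mul_eq_one _ (sub_eq_zero.1 h0))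
    have e3 : η' = 0 := by
      have := (mul_eq_zero.1 e1).resolve_right e2
      exact (mul_eq_zero.1 this).resolve_left (pow_ne_zero _ ht.ne_zero)
    rw [Point.add_of_Y_eq]
    · trivial
    · simp
    · rw [i5_negY, e3]; simp
  · have hx : (algebraMap A K (t * ξ)) ≠ 0 := by
      rw [Ne, ← map_zero (algebraMap A K)]
      exact fun h' => mul_ne_zero ht.ne_zero hξ (hinj h')
    have hξK : algebraMap A K ξ ≠ 0 := by
      rw [Ne, ← map_zero (algebraMap A K)]
      exact fun h' => hξ (hinj h')
    rw [Point.add_of_X_ne hx]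
    apply i5_nr_some ht
    intro a ha
    rw [slope_of_X_ne hx, i5_addX, sub_zero] at ha
    -- `ξ² a` is a unit
    have key : ξ ^ 2 * a = (t * η' - 1) ^ 2 + (1 - t) * (t * η' - 1) * ξ + (t - t * ξ) * ξ ^ 2 := by
      apply hinj
      simp only [map_mul, map_add, map_sub, map_one, map_pow, ha]
      rw [map_mul] at hx
      field_simp
      ring
    have hu : IsUnit (ξ ^ 2 * a) := by
      rw [key]
      refine unit_of_add_mul ht (c := t * η' ^ 2 - 2 * η' + η' * ξ + ξ - t * η' * ξ +
        ξ ^ 2 - ξ ^ 3) ?_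
      have e : (t * η' - 1) ^ 2 + (1 - t) * (t * η' - 1) * ξ + (t - t * ξ) * ξ ^ 2 -
          t * (t * η' ^ 2 - 2 * η' + η' * ξ + ξ - t * η' * ξ + ξ ^ 2 - ξ ^ 3) = -(ξ - 1) := by
        ring
      rw [e, dvd_neg]
      exact h2
    exact isUnit_of_mul_isUnit_right hu

/-- Component 2: `P = (t ξ, t² ζ)` with `ξ = 1 + t σ`, `t ∣ ζ - 1`, `t ∤ σ + 1`. -/
theorem i5_case2 {t : A} (ht : Irreducible t) (σ ζ : A) (h1 : t ∣ ζ - 1) (h2 : ¬ t ∣ σ + 1)
    (h : ((I5 t).map (algebraMap A K)).toAffine.Nonsingular (algebraMap A K (t * (1 + t * σ)))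
      (algebraMap A K (t ^ 2 * ζ))) :
    NR (I5 t) ((.some _ _ h : ((I5 t).map (algebraMap A K)).toAffine.Point) + i5S K ht) := by
  have hinj : Function.Injective (algebraMap A K) := IsFractionRing.injective A K
  have htK := tK_ne (K := K) ht
  have heq := (i5_equation t _ _).1 h.1
  have heqA : t ^ 2 * ζ * (t ^ 2 * ζ + t * (1 + t * σ) - t * (t * (1 + t * σ) + 1)) =
      (t * (1 + t * σ)) ^ 2 * (t * (1 + t * σ) - t) := hinj (by
    simpa only [map_mul, map_add, map_sub, map_one, map_pow] using heq)
  rw [i5S]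
  by_cases hσ : σ = 0
  · subst hσ
    have e1 : t ^ 4 * (ζ * (ζ - 1)) = 0 := by linear_combination heqA
    have e2 : ζ * (ζ - 1) = 0 := (mul_eq_zero.1 e1).resolve_left (pow_ne_zero _ ht.ne_zero)
    have e3 : ζ ≠ 0 := by
      rintro rfl
      obtain ⟨c, hc⟩ := h1
      exact ht.not_isUnit (IsUnit.of_mul_eq_one (-c) (by linear_combination hc))
    have e4 : ζ = 1 := sub_eq_zero.1 ((mul_eq_zero.1 e2).resolve_left e3)
    rw [Point.add_of_Y_eq]
    · trivial
    · simp
    · rw [i5_negY, e4]; simp only [map_mul, map_pow, map_one]; ring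
  · have hσK : algebraMap A K σ ≠ 0 := by
      rw [Ne, ← map_zero (algebraMap A K)]
      exact fun h' => hσ (hinj h')
    have hx : algebraMap A K (t * (1 + t * σ)) ≠ algebraMap A K t := by
      intro h'
      have h3 := hinj h'
      have h4 : t ^ 2 * σ = 0 := by linear_combination h3
      exact mul_ne_zero (pow_ne_zero _ ht.ne_zero) hσ h4
    rw [Point.add_of_X_ne hx]
    apply i5_nr_some ht
    intro a ha
    rw [slope_of_X_ne hx, i5_addX, sub_zero] at ha
    have ex : algebraMap A K (t * (1 + t * σ)) - algebraMap A K t =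
        algebraMap A K t ^ 2 * algebraMap A K σ := by
      simp only [map_mul, map_add, map_one]; ring
    rw [ex] at ha
    have key : σ ^ 2 * a = ζ ^ 2 + (1 - t) * ζ * σ - t * σ ^ 2 * (1 + t * σ) := by
      apply hinj
      simp only [map_mul, map_add, map_sub, map_one, map_pow, ha]
      field_simp
      ring
    obtain ⟨c, hc⟩ := h1
    have hζ : ζ = 1 + t * c := by linear_combination hc
    have hu : IsUnit (σ ^ 2 * a) := by
      rw [key, hζ]
      refine unit_of_add_mul ht (c := 2 * c + t * c ^ 2 + c * σ - σ - t * c * σ -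
        σ ^ 2 * (1 + t * σ)) ?_
      have e : (1 + t * c) ^ 2 + (1 - t) * (1 + t * c) * σ - t * σ ^ 2 * (1 + t * σ) -
          t * (2 * c + t * c ^ 2 + c * σ - σ - t * c * σ - σ ^ 2 * (1 + t * σ)) = σ + 1 := by
        ring
      rw [e]
      exact h2
    exact isUnit_of_mul_isUnit_right hu

theorem dvd_of_val {t : A} (ht : Irreducible t) {a : A} (h : ¬ IsUnit a) : t ∣ a := by
  by_contra h'
  exact h (unit_of_not_dvd ht h')

/-- The negative of a point. -/
theorem i5_neg_some {t : A} {x y : K}
    (h : ((I5 t).map (algebraMap A K)).toAffine.Nonsingular x y) {y' : K}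
    (hy : y' = -y - (1 - algebraMap A K t) * x + algebraMap A K t) :
    ∃ h' : ((I5 t).map (algebraMap A K)).toAffine.Nonsingular x y',
      -(.some x y h : ((I5 t).map (algebraMap A K)).toAffine.Point) = .some x y' h' := by
  subst hy
  refine ⟨?_, ?_⟩
  · have := (nonsingular_neg (W' := ((I5 t).map (algebraMap A K)).toAffine) x y).2 h
    rwa [i5_negY] at this
  · rw [Point.neg_some]
    exact some_congr _ rfl (i5_negY x y) _ _

/-- Every point is congruent to a multiple of `(0, 0)` modulo the points of nonsingular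
reduction. -/
theorem i5_cases {t : A} (ht : Irreducible t)
    (P : ((I5 t).map (algebraMap A K)).toAffine.Point) :
    NR (I5 t) P ∨ NR (I5 t) (P - i5T K ht) ∨ NR (I5 t) (-P - i5T K ht) ∨
      NR (I5 t) (P + i5S K ht) ∨ NR (I5 t) (-P + i5S K ht) := by
  have hinj : Function.Injective (algebraMap A K) := IsFractionRing.injective A K
  have hp : Prime t := ht.prime
  rcases P with _ | ⟨x, y, h⟩
  · exact Or.inl trivial
  by_cases hx : ∀ a : A, algebraMap A K a = x → IsUnit a
  · exact Or.inl (i5_nr_some ht h hx)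
  right
  push Not at hx
  obtain ⟨a, rfl, ha⟩ := hx
  obtain ⟨ξ, rfl⟩ := dvd_of_val ht ha
  have heq := (i5_equation t _ _).1 h.1
  -- `y` is integral
  obtain ⟨b, hb⟩ : ∃ b : A, algebraMap A K b = y := by
    refine root2 ((t * ξ) - t * (t * ξ + 1)) (-((t * ξ) ^ 2 * (t * ξ - t))) _ ?_
    simp only [map_mul, map_add, map_sub, map_one, map_pow, map_neg] at heq ⊢
    linear_combination heq
  subst hb
  have heqA : b * (b + t * ξ - t * (t * ξ + 1)) = (t * ξ) ^ 2 * (t * ξ - t) := hinj (by
    simpa only [map_mul, map_add, map_sub, map_one, map_pow] using heq)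
  have htb : t ∣ b := by
    have h1 : t ∣ b ^ 2 := by
      refine ⟨-(b * (ξ - (t * ξ + 1))) + t * ξ ^ 2 * (t * ξ - t), ?_⟩
      linear_combination heqA
    exact hp.dvd_of_dvd_pow h1
  obtain ⟨η, rfl⟩ := htb
  have e1 : η * (η + ξ - 1 - t * ξ) = t * ξ ^ 2 * (ξ - 1) := by
    have : t ^ 2 * (η * (η + ξ - 1 - t * ξ) - t * ξ ^ 2 * (ξ - 1)) = 0 := by
      linear_combination heqA
    exact sub_eq_zero.1 ((mul_eq_zero.1 this).resolve_left (pow_ne_zero _ ht.ne_zero))
  have e2 : t ∣ η * (η + ξ - 1 - t * ξ) := by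
    rw [e1, mul_assoc]; exact dvd_mul_right _ _
  by_cases hξ : t ∣ ξ - 1
  · -- `ξ = 1 + t σ`
    obtain ⟨σ, hσ⟩ := hξ
    have hξ' : ξ = 1 + t * σ := by linear_combination hσ
    subst hξ'
    have h3 : t ∣ η := by
      rcases hp.dvd_or_dvd e2 with h4 | h4
      · exact h4
      · obtain ⟨c, hc⟩ := h4
        exact ⟨c - σ + (1 + t * σ), by linear_combination hc⟩
    obtain ⟨ζ, rfl⟩ := h3
    have e3 : (ζ - 1) * (ζ + σ) = t * σ * (ζ + 2 * σ + t * σ ^ 2) := by
      have : t ^ 2 * ((ζ - 1) * (ζ + σ) - t * σ * (ζ + 2 * σ + t * σ ^ 2)) = 0 := by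
        linear_combination e1
      exact sub_eq_zero.1 ((mul_eq_zero.1 this).resolve_left (pow_ne_zero _ ht.ne_zero))
    have hnot : ¬ (t ∣ ζ - 1 ∧ t ∣ σ + 1) := by
      rintro ⟨⟨c, hc⟩, ⟨d, hd⟩⟩
      have hc' : ζ = 1 + t * c := by linear_combination hc
      have hd' : σ = t * d - 1 := by linear_combination hd
      rw [hc', hd'] at e3
      apply ht.not_isUnit
      refine IsUnit.of_mul_eq_one (c * (c + d) + d + (1 - t * d) * (c + 2 * d + (t * d - 1) ^ 2)) ?_
      have h5 : t * (t * (c * (c + d) + d + (1 - t * d) * (c + 2 * d + (t * d - 1) ^ 2)) - 1) = 0 := by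
        linear_combination e3
      exact sub_eq_zero.1 ((mul_eq_zero.1 h5).resolve_left ht.ne_zero)
    have e4 : t ∣ (ζ - 1) * (ζ + σ) := by
      rw [e3, mul_assoc]; exact dvd_mul_right _ _
    have hyt : algebraMap A K (t * (t * ζ)) = algebraMap A K (t ^ 2 * ζ) := by
      congr 1; ring
    rcases hp.dvd_or_dvd e4 with h5 | h5
    · right; right; left
      have h6 : ¬ t ∣ σ + 1 := fun h6 => hnot ⟨h5, h6⟩
      have h' : ((I5 t).map (algebraMap A K)).toAffine.Nonsingular
          (algebraMap A K (t * (1 + t * σ))) (algebraMap A K (t ^ 2 * ζ)) := by rwa [← hyt]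
      have := i5_case2 ht σ ζ h5 h6 h'
      rwa [some_congr _ rfl hyt h h']
    · right; right; right
      have h6 : ¬ t ∣ σ + 1 := by
        intro h6
        apply hnot
        refine ⟨?_, h6⟩
        have e : ζ - 1 = (ζ + σ) - (σ + 1) := by ring
        rw [e]
        exact dvd_sub h5 h6
      have hy : algebraMap A K (t ^ 2 * (1 - ζ - σ + t * σ)) =
          -algebraMap A K (t * (t * ζ)) - (1 - algebraMap A K t) *
            algebraMap A K (t * (1 + t * σ)) + algebraMap A K t := by
        simp only [map_mul, map_add, map_sub, map_one, map_pow]; ring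
      obtain ⟨h', hneg⟩ := i5_neg_some h hy
      rw [hneg]
      refine i5_case2 ht σ _ ?_ h6 h'
      have e : 1 - ζ - σ + t * σ - 1 = t * σ - (ζ + σ) := by ring
      rw [e]
      exact dvd_sub (dvd_mul_right _ _) h5
  · rcases hp.dvd_or_dvd e2 with h4 | h4
    · exact Or.inl (i5_case1 ht ξ η h4 hξ h)
    · right; left
      have hy : algebraMap A K (t * -(η + ξ - 1 - t * ξ)) =
          -algebraMap A K (t * η) - (1 - algebraMap A K t) * algebraMap A K (t * ξ) +
            algebraMap A K t := by
        simp only [map_mul, map_add, map_sub, map_one, map_neg]; ring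
      obtain ⟨h', hneg⟩ := i5_neg_some h hy
      rw [hneg]
      exact i5_case1 ht ξ _ (dvd_neg.2 h4) hξ h'

/-- A group generated by a subgroup and an element `T` with `5 T = 0` in the explicit form. -/
theorem index_dvd_five {G : Type*} [AddCommGroup G] (H : AddSubgroup G) (T S : G)
    (h1 : T + T = -S) (h2 : S + S = T)
    (hc : ∀ P : G, P ∈ H ∨ P - T ∈ H ∨ -P - T ∈ H ∨ P + S ∈ H ∨ -P + S ∈ H) :
    H.index ∣ 5 := by
  have hS : S = 3 • T := by
    have : S = -(T + T) := by rw [h1, neg_neg]
    have h5 : (5 : ℕ) • T = 0 := by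
      have e : T = -(T + T) + -(T + T) := by rw [← this]; exact h2.symm
      have : T + (T + T) + (T + T) = 0 := by
        nth_rewrite 1 [e]; abel
      rw [← this]
      abel
    have e : (3 : ℕ) • T + (T + T) = 0 := by rw [← h5]; abel
    rw [this]
    exact (eq_neg_of_add_eq_zero_left e).symm
  have h5 : (5 : ℕ) • T = 0 := by
    have e : (5 : ℕ) • T = 3 • T + (T + T) := by abel
    rw [e, ← hS, h1, add_neg_cancel]
  have h3z : (3 : ℤ) • T = (3 : ℕ) • T := natCast_zsmul T 3
  -- the quotient is generated by `T`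
  have hgen : ∀ x : G ⧸ H, x ∈ AddSubgroup.zmultiples (QuotientAddGroup.mk' H T) := by
    intro x
    obtain ⟨P, rfl⟩ := QuotientAddGroup.mk'_surjective H x
    rw [AddSubgroup.mem_zmultiples_iff]
    have key : ∀ (k : ℤ), P - k • T ∈ H → ∃ k : ℤ, k • (QuotientAddGroup.mk' H T) =
        QuotientAddGroup.mk' H P := by
      intro k hk
      refine ⟨k, ?_⟩
      rw [← map_zsmul]
      have h3 : QuotientAddGroup.mk' H (P - k • T) = 0 :=
        (QuotientAddGroup.eq_zero_iff _).2 hk
      rw [map_sub, sub_eq_zero] at h3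
      exact h3.symm
    rcases hc P with h | h | h | h | h
    · exact key 0 (by simpa using h)
    · exact key 1 (by simpa using h)
    · exact key (-1) (by
        have := H.neg_mem h
        have e : -(-P - T) = P - (-1 : ℤ) • T := by rw [neg_one_zsmul]; abel
        rwa [e] at this)
    · exact key (-3) (by
        have e : P + S = P - (-3 : ℤ) • T := by
          rw [hS, neg_zsmul, sub_neg_eq_add, h3z]
        rwa [e] at h)
    · exact key 3 (by
        have := H.neg_mem h
        have e : -(-P + S) = P - (3 : ℤ) • T := by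
          rw [hS, neg_add, neg_neg, sub_eq_add_neg, h3z]
        rwa [e] at this)
  have hcard : Nat.card (G ⧸ H) = addOrderOf (QuotientAddGroup.mk' H T) := by
    have : AddSubgroup.zmultiples (QuotientAddGroup.mk' H T) = ⊤ := by
      rw [eq_top_iff]; exact fun x _ => hgen x
    rw [← Nat.card_zmultiples, this, AddSubgroup.card_top]
  rw [AddSubgroup.index, hcard]
  apply addOrderOf_dvd_of_nsmul_eq_zero
  rw [← map_nsmul, h5, map_zero]

/-- The index divides `5`. -/
theorem i5_index {t : A} (ht : Irreducible t) :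
    (AddSubgroup.closure {P : ((I5 t).map (algebraMap A K)).toAffine.Point |
      NR (I5 t) P}).index ∣ 5 := by
  refine index_dvd_five _ (i5T K ht) (i5S K ht) (i5_two_T ht) (i5_two_S ht) fun P => ?_
  rcases i5_cases ht P with h | h | h | h | h
  · exact Or.inl (AddSubgroup.subset_closure h)
  · exact Or.inr (Or.inl (AddSubgroup.subset_closure h))
  · exact Or.inr (Or.inr (Or.inl (AddSubgroup.subset_closure h)))
  · exact Or.inr (Or.inr (Or.inr (Or.inl (AddSubgroup.subset_closure h))))
  · exact Or.inr (Or.inr (Or.inr (Or.inr (AddSubgroup.subset_closure h))))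

end VC63
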