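import Pool.Agent.MP_9ab903_nt.NT.V4

/-!
# The component group of `y² + a x y + t y = x³` over a discrete valuation ring with
uniformizer `t`, `a` a unit
-/

set_option autoImplicit false

open scoped Classical

namespace VC63

open WeierstrassCurve WeierstrassCurve.Affine SBSD

variable {A : Type} [CommRing A] [IsDomain A] [IsDiscreteValuationRing A]
  {K : Type} [Field K] [Algebra A K] [IsFractionRing A K]

/-- The normal form `y² + a x y + t y = x³` for points of order 3. -/
def I3 {R : Type} [CommRing R] (a t : R) : WeierstrassCurve R := ⟨a, 0, t, 0, 0⟩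

theorem i3_equation (a t : A) (x y : K) :
    ((I3 a t).map (algebraMap A K)).toAffine.Equation x y ↔
      y * (y + algebraMap A K a * x + algebraMap A K t) = x ^ 3 := by
  rw [equation_iff]
  simp only [I3, map_a₁, map_a₂, map_a₃, map_a₄, map_a₆, map_zero]
  constructor <;> intro h <;> linear_combination h

theorem i3_nr_some {a t : A} (ha : IsUnit a) (ht : Irreducible t) {x y : K}
    (h : ((I3 a t).map (algebraMap A K)).toAffine.Nonsingular x y)
    (hx : ∀ c : A, algebraMap A K c = x → IsUnit c) :
    NR (I3 a t) (Point.some x y h : ((I3 a t).map (algebraMap A K)).toAffine.Point) := by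
  intro c b hc hb
  have hinj : Function.Injective (algebraMap A K) := IsFractionRing.injective A K
  have hu := hx c hc
  subst hc hb
  have heq := (i3_equation a t _ _).1 h.1
  have heqA : b * (b + a * c + t) = c ^ 3 := hinj (by
    simpa only [map_mul, map_add, map_sub, map_one, map_pow] using heq)
  have ht0 : IsLocalRing.residue A t = 0 := by
    rw [IsLocalRing.residue_eq_zero_iff]
    exact (IsLocalRing.mem_maximalIdeal _).2 ht.not_isUnit
  set α := IsLocalRing.residue A c with hα
  set β := IsLocalRing.residue A b with hβ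
  set δ := IsLocalRing.residue A a with hδ
  have hα0 : α ≠ 0 := by
    rw [hα, Ne, IsLocalRing.residue_eq_zero_iff, IsLocalRing.mem_maximalIdeal]
    exact fun h' => h' hu
  have hδ0 : δ ≠ 0 := by
    rw [hδ, Ne, IsLocalRing.residue_eq_zero_iff, IsLocalRing.mem_maximalIdeal]
    exact fun h' => h' ha
  have heqk : β * (β + δ * α) = α ^ 3 := by
    have h1 := congrArg (IsLocalRing.residue A) heqA
    simp only [map_mul, map_add, map_pow, ht0] at h1
    linear_combination h1
  rw [nonsingular_iff', equation_iff']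
  simp only [I3, map_a₁, map_a₂, map_a₃, map_a₄, map_a₆, map_zero, ht0]
  rw [← hδ]
  refine ⟨by linear_combination heqk, ?_⟩
  by_contra hcon
  push Not at hcon
  obtain ⟨h1, h2⟩ := hcon
  -- `δ β = 3 α²`, `2 β + δ α = 0`, `β (β + δ α) = α³`
  have e1 : δ ^ 2 + 6 * α = 0 := by
    have : α * (δ ^ 2 + 6 * α) = 0 := by linear_combination δ * h2 - 2 * h1
    exact (mul_eq_zero.1 this).resolve_left hα0
  have e2 : δ ^ 2 * α ^ 3 = 9 * α ^ 4 + 3 * δ ^ 2 * α ^ 3 := by
    linear_combination (-δ ^ 2) * heqk + (δ * β + 3 * α ^ 2 + δ ^ 2 * α) * h1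
  have e3 : 2 * δ ^ 2 + 9 * α = 0 := by
    have : α ^ 3 * (2 * δ ^ 2 + 9 * α) = 0 := by linear_combination -e2
    exact (mul_eq_zero.1 this).resolve_left (pow_ne_zero _ hα0)
  have e4 : δ ^ 2 = 0 := by linear_combination 2 * e3 - 3 * e1
  exact hδ0 (pow_eq_zero_iff two_ne_zero |>.1 e4)

theorem i3_nonsingular {a t : A} (x y : K)
    (h : y * (y + algebraMap A K a * x + algebraMap A K t) = x ^ 3)
    (h2 : 2 * y + algebraMap A K a * x + algebraMap A K t ≠ 0) :
    ((I3 a t).map (algebraMap A K)).toAffine.Nonsingular x y := by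
  rw [nonsingular_iff', i3_equation]
  exact ⟨h, Or.inr h2⟩

/-- The point `(0, 0)`. -/
noncomputable def i3T (K : Type) [Field K] [Algebra A K] [IsFractionRing A K] (a : A) {t : A}
    (ht : Irreducible t) : ((I3 a t).map (algebraMap A K)).toAffine.Point :=
  .some 0 0 (i3_nonsingular 0 0 (by ring) (by simpa using tK_ne (K := K) ht))

theorem i3_negY {a t : A} (x y : K) : ((I3 a t).map (algebraMap A K)).toAffine.negY x y =
    -y - algebraMap A K a * x - algebraMap A K t := by
  simp only [negY, I3, map_a₁, map_a₃]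

theorem i3_addX {a t : A} (x₁ x₂ l : K) : ((I3 a t).map (algebraMap A K)).toAffine.addX x₁ x₂ l =
    l ^ 2 + algebraMap A K a * l - x₁ - x₂ := by
  simp only [addX, I3, map_a₁, map_a₂, map_zero]
  ring

theorem i3_neg_T {a t : A} (ht : Irreducible t)
    (h : ((I3 a t).map (algebraMap A K)).toAffine.Nonsingular 0 (-algebraMap A K t)) :
    -(i3T K a ht) = .some 0 (-algebraMap A K t) h := by
  rw [i3T, Point.neg_some]
  exact some_congr _ rfl (by rw [i3_negY]; ring) _ _

theorem i3_two_T {a t : A} (ht : Irreducible t) : i3T K a ht + i3T K a ht = -(i3T K a ht) := by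
  have h := tK_ne (K := K) ht
  have hy : (0 : K) ≠ ((I3 a t).map (algebraMap A K)).toAffine.negY 0 0 := by
    rw [i3_negY]
    intro h'
    apply h
    linear_combination h'
  rw [i3T, Point.neg_some, Point.add_self_of_Y_ne hy]
  have hs : ((I3 a t).map (algebraMap A K)).toAffine.slope 0 0 0 0 = 0 := by
    rw [slope_of_Y_ne rfl hy]
    simp [I3]
  refine some_congr _ ?_ ?_ _ _
  · rw [hs, i3_addX]; ring
  · rw [addY, negAddY, hs, i3_addX, i3_negY, i3_negY]; ring

/-- The component of `(0, 0)`: `P = (t ξ, t η)` with `t ∣ η`, `t ∤ a ξ + 1`. -/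
theorem i3_case1 {a t : A} (ha : IsUnit a) (ht : Irreducible t) (ξ η : A) (h1 : t ∣ η)
    (h2 : ¬ t ∣ a * ξ + 1)
    (h : ((I3 a t).map (algebraMap A K)).toAffine.Nonsingular (algebraMap A K (t * ξ))
      (algebraMap A K (t * η))) :
    NR (I3 a t) ((.some _ _ h : ((I3 a t).map (algebraMap A K)).toAffine.Point) - i3T K a ht) := by
  have hinj : Function.Injective (algebraMap A K) := IsFractionRing.injective A K
  have htK := tK_ne (K := K) ht
  have hT2 : ((I3 a t).map (algebraMap A K)).toAffine.Nonsingular 0 (-algebraMap A K t) :=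
    i3_nonsingular _ _ (by ring) (by
      have e : 2 * -algebraMap A K t + algebraMap A K a * 0 + algebraMap A K t =
        -algebraMap A K t := by ring
      rw [e]; exact neg_ne_zero.2 htK)
  rw [sub_eq_add_neg, i3_neg_T ht hT2]
  have heq := (i3_equation a t _ _).1 h.1
  have heqA : t * η * (t * η + a * (t * ξ) + t) = (t * ξ) ^ 3 := hinj (by
    simpa only [map_mul, map_add, map_sub, map_one, map_pow] using heq)
  obtain ⟨η', rfl⟩ := h1
  by_cases hξ : ξ = 0
  · subst hξ
    have e1 : (t ^ 3 * η') * (t * η' + 1) = 0 := by linear_combination heqA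
    have e2 : t * η' + 1 ≠ 0 := by
      intro h0
      exact ht.not_isUnit (IsUnit.of_mul_eq_one (-η') (by linear_combination -h0))
    have e3 : η' = 0 := by
      have := (mul_eq_zero.1 e1).resolve_right e2
      exact (mul_eq_zero.1 this).resolve_left (pow_ne_zero _ ht.ne_zero)
    rw [Point.add_of_Y_eq]
    · trivial
    · simp
    · rw [i3_negY, e3]; simp
  · have hx : (algebraMap A K (t * ξ)) ≠ 0 := by
      rw [Ne, ← map_zero (algebraMap A K)]
      exact fun h' => mul_ne_zero ht.ne_zero hξ (hinj h')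
    have hξK : algebraMap A K ξ ≠ 0 := by
      rw [Ne, ← map_zero (algebraMap A K)]
      exact fun h' => hξ (hinj h')
    rw [Point.add_of_X_ne hx]
    apply i3_nr_some ha ht
    intro c hc
    rw [slope_of_X_ne hx, i3_addX, sub_zero] at hc
    have key : ξ ^ 2 * c = (t * η' + 1) ^ 2 + a * (t * η' + 1) * ξ - t * ξ ^ 3 := by
      apply hinj
      simp only [map_mul, map_add, map_sub, map_one, map_pow, hc]
      rw [map_mul] at hx
      field_simp
      ring
    have hu : IsUnit (ξ ^ 2 * c) := by
      rw [key]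
      refine unit_of_add_mul ht (c := t * η' ^ 2 + 2 * η' + a * η' * ξ - ξ ^ 3) ?_
      have e : (t * η' + 1) ^ 2 + a * (t * η' + 1) * ξ - t * ξ ^ 3 -
          t * (t * η' ^ 2 + 2 * η' + a * η' * ξ - ξ ^ 3) = a * ξ + 1 := by
        ring
      rw [e]
      exact h2
    exact isUnit_of_mul_isUnit_right hu

/-- The negative of a point. -/
theorem i3_neg_some {a t : A} {x y : K}
    (h : ((I3 a t).map (algebraMap A K)).toAffine.Nonsingular x y) {y' : K}
    (hy : y' = -y - algebraMap A K a * x - algebraMap A K t) :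
    ∃ h' : ((I3 a t).map (algebraMap A K)).toAffine.Nonsingular x y',
      -(.some x y h : ((I3 a t).map (algebraMap A K)).toAffine.Point) = .some x y' h' := by
  subst hy
  refine ⟨?_, ?_⟩
  · have := (nonsingular_neg (W' := ((I3 a t).map (algebraMap A K)).toAffine) x y).2 h
    rwa [i3_negY] at this
  · rw [Point.neg_some]
    exact some_congr _ rfl (i3_negY x y) _ _

/-- Every point is congruent to a multiple of `(0, 0)` modulo the points of nonsingular
reduction. -/
theorem i3_cases {a t : A} (hau : IsUnit a) (ht : Irreducible t)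
    (P : ((I3 a t).map (algebraMap A K)).toAffine.Point) :
    NR (I3 a t) P ∨ NR (I3 a t) (P - i3T K a ht) ∨ NR (I3 a t) (-P - i3T K a ht) := by
  have hinj : Function.Injective (algebraMap A K) := IsFractionRing.injective A K
  have hp : Prime t := ht.prime
  rcases P with _ | ⟨x, y, h⟩
  · exact Or.inl trivial
  by_cases hx : ∀ c : A, algebraMap A K c = x → IsUnit c
  · exact Or.inl (i3_nr_some hau ht h hx)
  right
  push Not at hx
  obtain ⟨c, rfl, hc⟩ := hx
  obtain ⟨ξ, rfl⟩ := dvd_of_val ht hc
  have heq := (i3_equation a t _ _).1 h.1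
  -- `y` is integral
  obtain ⟨b, hb⟩ : ∃ b : A, algebraMap A K b = y := by
    refine root2 (a * (t * ξ) + t) (-((t * ξ) ^ 3)) _ ?_
    simp only [map_mul, map_add, map_pow, map_neg] at heq ⊢
    linear_combination heq
  subst hb
  have heqA : b * (b + a * (t * ξ) + t) = (t * ξ) ^ 3 := hinj (by
    simpa only [map_mul, map_add, map_sub, map_one, map_pow] using heq)
  have htb : t ∣ b := by
    have h1 : t ∣ b ^ 2 := by
      refine ⟨-(b * (a * ξ + 1)) + t ^ 2 * ξ ^ 3, ?_⟩
      linear_combination heqA
    exact hp.dvd_of_dvd_pow h1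
  obtain ⟨η, rfl⟩ := htb
  have e1 : η * (η + a * ξ + 1) = t * ξ ^ 3 := by
    have : t ^ 2 * (η * (η + a * ξ + 1) - t * ξ ^ 3) = 0 := by
      linear_combination heqA
    exact sub_eq_zero.1 ((mul_eq_zero.1 this).resolve_left (pow_ne_zero _ ht.ne_zero))
  have e2 : t ∣ η * (η + a * ξ + 1) := by
    rw [e1]; exact dvd_mul_right _ _
  have hnot : ¬ (t ∣ η ∧ t ∣ a * ξ + 1) := by
    rintro ⟨⟨c, hc⟩, ⟨d, hd⟩⟩
    rw [hc, show t * c + a * ξ + 1 = t * (c + d) by linear_combination hd] at e1
    have e3 : t * (c * (c + d)) = ξ ^ 3 := by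
      have : t * (t * (c * (c + d)) - ξ ^ 3) = 0 := by linear_combination e1
      exact sub_eq_zero.1 ((mul_eq_zero.1 this).resolve_left ht.ne_zero)
    have e4 : t ∣ ξ := hp.dvd_of_dvd_pow ⟨_, e3.symm⟩
    obtain ⟨k, hk⟩ := e4
    apply ht.not_isUnit
    exact IsUnit.of_mul_eq_one (d - a * k) (by rw [hk] at hd; linear_combination -hd)
  rcases hp.dvd_or_dvd e2 with h4 | h4
  · exact Or.inl (i3_case1 hau ht ξ η h4 (fun h5 => hnot ⟨h4, h5⟩) h)
  · right
    have hy : algebraMap A K (t * -(η + a * ξ + 1)) =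
        -algebraMap A K (t * η) - algebraMap A K a * algebraMap A K (t * ξ) -
          algebraMap A K t := by
      simp only [map_mul, map_add, map_one, map_neg]; ring
    obtain ⟨h', hneg⟩ := i3_neg_some h hy
    rw [hneg]
    refine i3_case1 hau ht ξ _ (dvd_neg.2 h4) (fun h5 => hnot ⟨?_, h5⟩) h'
    have e : η = (η + a * ξ + 1) - (a * ξ + 1) := by ring
    rw [e]
    exact dvd_sub h4 h5

/-- A group generated by a subgroup and an element `T` with `3 T = 0`. -/
theorem index_dvd_three {G : Type*} [AddCommGroup G] (H : AddSubgroup G) (T : G)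
    (h1 : T + T = -T)
    (hc : ∀ P : G, P ∈ H ∨ P - T ∈ H ∨ -P - T ∈ H) :
    H.index ∣ 3 := by
  have h3 : (3 : ℕ) • T = 0 := by
    have e : (3 : ℕ) • T = (T + T) + T := by abel
    rw [e, h1, neg_add_cancel]
  have hgen : ∀ x : G ⧸ H, x ∈ AddSubgroup.zmultiples (QuotientAddGroup.mk' H T) := by
    intro x
    obtain ⟨P, rfl⟩ := QuotientAddGroup.mk'_surjective H x
    rw [AddSubgroup.mem_zmultiples_iff]
    have key : ∀ (k : ℤ), P - k • T ∈ H → ∃ k : ℤ, k • (QuotientAddGroup.mk' H T) =
        QuotientAddGroup.mk' H P := by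
      intro k hk
      refine ⟨k, ?_⟩
      rw [← map_zsmul]
      have h3 : QuotientAddGroup.mk' H (P - k • T) = 0 :=
        (QuotientAddGroup.eq_zero_iff _).2 hk
      rw [map_sub, sub_eq_zero] at h3
      exact h3.symm
    rcases hc P with h | h | h
    · exact key 0 (by simpa using h)
    · exact key 1 (by simpa using h)
    · exact key (-1) (by
        have := H.neg_mem h
        have e : -(-P - T) = P - (-1 : ℤ) • T := by rw [neg_one_zsmul]; abel
        rwa [e] at this)
  have hcard : Nat.card (G ⧸ H) = addOrderOf (QuotientAddGroup.mk' H T) := by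
    have : AddSubgroup.zmultiples (QuotientAddGroup.mk' H T) = ⊤ := by
      rw [eq_top_iff]; exact fun x _ => hgen x
    rw [← Nat.card_zmultiples, this, AddSubgroup.card_top]
  rw [AddSubgroup.index, hcard]
  apply addOrderOf_dvd_of_nsmul_eq_zero
  rw [← map_nsmul, h3, map_zero]

/-- The index divides `3`. -/
theorem i3_index {a t : A} (ha : IsUnit a) (ht : Irreducible t) :
    (AddSubgroup.closure {P : ((I3 a t).map (algebraMap A K)).toAffine.Point |
      NR (I3 a t) P}).index ∣ 3 := by
  refine index_dvd_three _ (i3T K a ht) (i3_two_T ht) fun P => ?_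
  rcases i3_cases ha ht P with h | h | h
  · exact Or.inl (AddSubgroup.subset_closure h)
  · exact Or.inr (Or.inl (AddSubgroup.subset_closure h))
  · exact Or.inr (Or.inr (AddSubgroup.subset_closure h))

end VC63
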