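import Pool.Agent.MP_9ab903_nt.NT.W1

/-!
# Lattices of real curves: stability under conjugation and shape
-/

set_option autoImplicit false

open PeriodPair Filter Complex
open scoped Topology

namespace WP63

open MP9c45e8

/-- The complex conjugate of a pair of periods. -/
noncomputable def conjPair (L : PeriodPair) : PeriodPair where
  ω₁ := (starRingEnd ℂ) L.ω₁
  ω₂ := (starRingEnd ℂ) L.ω₂
  indep := by
    rw [LinearIndependent.pair_iff]
    intro s t hst
    apply LinearIndependent.pair_iff.mp L.indep s t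
    have h := congrArg (starRingEnd ℂ) hst
    simpa [Complex.real_smul] using h

theorem mem_conjPair (L : PeriodPair) (z : ℂ) :
    z ∈ (conjPair L).lattice ↔ (starRingEnd ℂ) z ∈ L.lattice := by
  rw [mem_lattice, mem_lattice]
  simp only [conjPair]
  constructor
  · rintro ⟨m, n, rfl⟩
    exact ⟨m, n, by simp⟩
  · rintro ⟨m, n, h⟩
    refine ⟨m, n, ?_⟩
    have := congrArg (starRingEnd ℂ) h
    simpa using this

/-- The conjugation as a bijection between the lattices. -/
noncomputable def conjPairEquiv (L : PeriodPair) : (conjPair L).lattice ≃ L.lattice where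
  toFun z := ⟨(starRingEnd ℂ) z.1, (mem_conjPair L _).1 z.2⟩
  invFun z := ⟨(starRingEnd ℂ) z.1, (mem_conjPair L _).2 (by simp)⟩
  left_inv z := by ext; simp
  right_inv z := by ext; simp

theorem G_conjPair (L : PeriodPair) (n : ℕ) : (conjPair L).G n = (starRingEnd ℂ) (L.G n) := by
  rw [PeriodPair.G, PeriodPair.G, Complex.conj_tsum, ← (conjPairEquiv L).tsum_eq]
  congr 1
  funext l
  simp [conjPairEquiv]

theorem g₂_conjPair (L : PeriodPair) : (conjPair L).g₂ = (starRingEnd ℂ) L.g₂ := by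
  rw [PeriodPair.g₂, PeriodPair.g₂, G_conjPair, map_mul]
  congr 1
  exact (map_ofNat _ 60).symm

theorem g₃_conjPair (L : PeriodPair) : (conjPair L).g₃ = (starRingEnd ℂ) L.g₃ := by
  rw [PeriodPair.g₃, PeriodPair.g₃, G_conjPair, map_mul]
  congr 1
  exact (map_ofNat _ 140).symm

/-- Two lattices with the same `g₂` and `g₃` are equal. -/
theorem lattice_eq_of_g (L L' : PeriodPair) (h2 : L'.g₂ = L.g₂) (h3 : L'.g₃ = L.g₃) :
    L.lattice = L'.lattice := by
  have h : ∀ᶠ u in 𝓝[≠] (0 : ℂ), ℘[L'] u = ℘[L] (id u) := by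
    refine weierstrassP_unique L id ℘[L'] (fun q => q ^ 2 * ℘[L' - (0 : ℂ)] q + 1)
      analyticAt_id rfl (deriv_id 0) ?_ (by simp) ?_ ?_
    · have := L'.analyticAt_weierstrassPExcept 0
      fun_prop
    · filter_upwards [self_mem_nhdsWithin] with q hq
      have hq0 : q ≠ 0 := hq
      rw [weierstrassP_eq_except]
      field_simp
    · have hpunct : ∀ᶠ s in 𝓝[≠] (0 : ℂ), s ∉ L'.lattice := by
        have := L'.compl_lattice_sdiff_singleton_mem_nhds 0
        filter_upwards [mem_nhdsWithin_of_mem_nhds this, self_mem_nhdsWithin] with s hs hs' hmem'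
        exact hs ⟨hmem', hs'⟩
      filter_upwards [hpunct] with q hq
      rw [L'.deriv_weierstrassP, L'.derivWeierstrassP_sq q hq, h2, h3, deriv_id, one_pow, one_mul]
  exact lattice_eq_of_eventually L L' (h.mono fun u hu => hu.symm)

/-- If `g₂` and `g₃` are real, the lattice is stable under conjugation. -/
theorem lattice_conj (L : PeriodPair) (g₂ g₃ : ℝ) (h2 : L.g₂ = g₂) (h3 : L.g₃ = g₃) :
    ∀ z ∈ L.lattice, (starRingEnd ℂ) z ∈ L.lattice := by
  intro z hz
  have h := lattice_eq_of_g L (conjPair L) (by rw [g₂_conjPair, h2, Complex.conj_ofReal])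
    (by rw [g₃_conjPair, h3, Complex.conj_ofReal])
  rw [h] at hz
  exact (mem_conjPair L z).1 hz

/-- The real function `x ↦ ℘(x + iβ/2)`. -/
theorem rect_false (L : PeriodPair)
    (hconj : ∀ z ∈ L.lattice, (starRingEnd ℂ) z ∈ L.lattice) (g₂ g₃ e : ℝ)
    (he : 4 * e ^ 3 - g₂ * e - g₃ = 0) (hpos : ∀ y : ℝ, 0 < y ^ 2 + e * y + (e ^ 2 - g₂ / 4))
    (h2 : L.g₂ = g₂) (h3 : L.g₃ = g₃) (α β : ℝ) (hα : 0 < α)
    (hαL : (α : ℂ) ∈ L.lattice) (hβL : (β : ℂ) * I ∈ L.lattice)
    (hoff : ∀ x : ℝ, (x : ℂ) + (β : ℂ) * I / 2 ∉ L.lattice) : False := by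
  set s : ℝ → ℂ := fun x => (x : ℂ) + (β : ℂ) * I / 2 with hs
  have hsconj : ∀ x, (starRingEnd ℂ) (s x) = s x - ((⟨(β : ℂ) * I, hβL⟩ : L.lattice) : ℂ) := by
    intro x
    simp only [hs, map_add, map_mul, map_div₀, Complex.conj_ofReal, Complex.conj_I]
    rw [show (starRingEnd ℂ) 2 = 2 from map_ofNat _ 2]
    ring
  have hP : ∀ x, ((℘[L] (s x)).re : ℂ) = ℘[L] (s x) := by
    intro x
    rw [← Complex.conj_eq_iff_re, conj_weierstrassP L hconj, hsconj, L.weierstrassP_sub_coe]
  have hP' : ∀ x, ((℘'[L] (s x)).re : ℂ) = ℘'[L] (s x) := by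
    intro x
    rw [← Complex.conj_eq_iff_re, conj_derivWeierstrassP L hconj, hsconj,
      L.derivWeierstrassP_sub_coe]
  set g : ℝ → ℝ := fun x => (℘[L] (s x)).re with hg
  set g' : ℝ → ℝ := fun x => (℘'[L] (s x)).re with hg'
  have hderiv : ∀ x, HasDerivAt g (g' x) x := by
    intro x
    have hd : HasDerivAt ℘[L] (℘'[L] (s x)) (s x) := by
      have := (L.analyticOnNhd_weierstrassP _ (hoff x)).differentiableAt.hasDerivAt
      rwa [L.deriv_weierstrassP] at this
    have h1 : HasDerivAt (fun z : ℂ => ℘[L] (z + (β : ℂ) * I / 2)) (℘'[L] (s x)) (x : ℂ) :=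
      hd.comp_add_const (x : ℂ) ((β : ℂ) * I / 2)
    exact h1.real_of_complex
  have hode : ∀ x, (g' x) ^ 2 = 4 * (g x - e) * ((g x) ^ 2 + e * g x + (e ^ 2 - g₂ / 4)) := by
    intro x
    have h := L.derivWeierstrassP_sq (s x) (hoff x)
    rw [← hP, ← hP', h2, h3] at h
    have h' : (((g' x) ^ 2 : ℝ) : ℂ) = ((4 * (g x) ^ 3 - g₂ * g x - g₃ : ℝ) : ℂ) := by
      push_cast
      exact h
    have h'' := Complex.ofReal_injective h'
    rw [h'']
    linear_combination he
  have hge : ∀ x, e ≤ g x := by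
    intro x
    have h0 : 0 ≤ 4 * (g x - e) * ((g x) ^ 2 + e * g x + (e ^ 2 - g₂ / 4)) := by
      rw [← hode]; positivity
    by_contra hlt
    push Not at hlt
    have := mul_neg_of_neg_of_pos (show 4 * (g x - e) < 0 by linarith) (hpos (g x))
    linarith
  have hcont : Continuous g := continuous_iff_continuousAt.mpr fun x => (hderiv x).continuousAt
  have hper : Function.Periodic g α := by
    intro x
    have : s (x + α) = s x + ((⟨(α : ℂ), hαL⟩ : L.lattice) : ℂ) := by
      simp only [hs]; push_cast; ring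
    simp only [hg]
    rw [this, L.weierstrassP_add_coe]
  obtain ⟨x₀, -, hmax⟩ := isCompact_Icc.exists_isMaxOn (s := Set.Icc (0 : ℝ) (0 + α))
    (Set.nonempty_Icc.mpr (by linarith)) hcont.continuousOn
  have hglob : ∀ x, g x ≤ g x₀ := by
    intro x
    obtain ⟨y, hy, hxy⟩ := hper.exists_mem_Ico hα x 0
    rw [hxy]
    exact hmax ⟨hy.1, hy.2.le⟩
  have hd0 : g' x₀ = 0 := by
    have hloc : IsLocalMax g x₀ := Filter.Eventually.of_forall hglob
    exact hloc.hasDerivAt_eq_zero (hderiv x₀)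
  have hx₀ : g x₀ = e := by
    have h := hode x₀
    rw [hd0] at h
    have h0 := (hpos (g x₀)).ne'
    have h1 : 4 * (g x₀ - e) = 0 := by
      have : 4 * (g x₀ - e) * ((g x₀) ^ 2 + e * g x₀ + (e ^ 2 - g₂ / 4)) = 0 := by
        rw [← h]; ring
      exact (mul_eq_zero.mp this).resolve_right h0
    linarith
  have hconst : ∀ x, g x = e := fun x => le_antisymm (hx₀ ▸ hglob x) (hge x)
  refine not_frequently_const L (e : ℂ) (s 0) (hoff 0) ?_
  have htend : Filter.Tendsto (fun x : ℝ => s x) (𝓝[≠] 0) (𝓝[≠] (s 0)) := by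
    refine tendsto_nhdsWithin_iff.mpr ⟨?_, ?_⟩
    · have : Continuous s := by simp only [hs]; fun_prop
      exact (this.tendsto 0).mono_left nhdsWithin_le_nhds
    · filter_upwards [self_mem_nhdsWithin] with x hx h
      apply hx
      simp only [hs, Set.mem_singleton_iff] at h
      have h' : (x : ℂ) = ((0 : ℝ) : ℂ) := by linear_combination h
      exact Complex.ofReal_injective h'
  refine htend.frequently (Filter.Eventually.frequently (Filter.Eventually.of_forall fun x => ?_))
  rw [← hP x]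
  have := hconst x
  simp only [hg] at this
  rw [this]

/-- The shape of the lattice of a real curve with one real component. -/
theorem lattice_shape (L : PeriodPair)
    (hconj : ∀ z ∈ L.lattice, (starRingEnd ℂ) z ∈ L.lattice) (g₂ g₃ e : ℝ)
    (he : 4 * e ^ 3 - g₂ * e - g₃ = 0) (hpos : ∀ y : ℝ, 0 < y ^ 2 + e * y + (e ^ 2 - g₂ / 4))
    (h2 : L.g₂ = g₂) (h3 : L.g₃ = g₃) :
    ∃ Ωp Ωm : ℝ, 0 < Ωp ∧ 0 < Ωm ∧
      ∀ z : ℂ, z ∈ L.lattice ↔ ∃ a b : ℤ, a ≡ b [ZMOD 2] ∧ z = a * Ωp + b * Ωm * I := by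
  -- sums and differences with the conjugate
  have hre : ∀ z ∈ L.lattice, ((2 * z.re : ℝ) : ℂ) * 1 ∈ L.lattice := by
    intro z hz
    have := L.lattice.add_mem hz (hconj z hz)
    rwa [Complex.add_conj, ← mul_one ((2 * z.re : ℝ) : ℂ)] at this
  have him : ∀ z ∈ L.lattice, ((2 * z.im : ℝ) : ℂ) * I ∈ L.lattice := by
    intro z hz
    have := L.lattice.sub_mem hz (hconj z hz)
    rwa [Complex.sub_conj] at this
  -- a lattice vector that is not purely imaginary, and one that is not real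
  have hnre : ∃ z ∈ L.lattice, z.re ≠ 0 := by
    by_contra hcon
    push Not at hcon
    have h1 := hcon _ L.ω₁_mem_lattice
    have h2 := hcon _ L.ω₂_mem_lattice
    have hind := LinearIndependent.pair_iff.mp L.indep
    have e := hind L.ω₂.im (-L.ω₁.im) (by
      apply Complex.ext <;> simp [h1, h2]; ring)
    have e2 : L.ω₂ = 0 := Complex.ext (by simp [h2]) (by simp [e.1])
    have := (L.indep.ne_zero 1)
    simp [e2] at this
  have hnim : ∃ z ∈ L.lattice, z.im ≠ 0 := by
    by_contra hcon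
    push Not at hcon
    have h1 := hcon _ L.ω₁_mem_lattice
    have h2 := hcon _ L.ω₂_mem_lattice
    have hind := LinearIndependent.pair_iff.mp L.indep
    have e := hind L.ω₂.re (-L.ω₁.re) (by
      apply Complex.ext <;> simp [h1, h2]; ring)
    have e2 : L.ω₂ = 0 := Complex.ext (by simp [e.1]) (by simp [h2])
    have := (L.indep.ne_zero 1)
    simp [e2] at this
  obtain ⟨z₁, hz₁, hz₁'⟩ := hnre
  obtain ⟨z₂, hz₂, hz₂'⟩ := hnim
  obtain ⟨α, hα, hαL⟩ := exists_generator L 1 one_ne_zero (2 * z₁.re) (by simpa using hz₁')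
    (hre z₁ hz₁)
  obtain ⟨β, hβ, hβL⟩ := exists_generator L I I_ne_zero (2 * z₂.im) (by simpa using hz₂')
    (him z₂ hz₂)
  have hαmem : (α : ℂ) ∈ L.lattice := by
    have := (hαL α).mpr ⟨1, by simp⟩
    simpa using this
  have hβmem : (β : ℂ) * I ∈ L.lattice := (hβL β).mpr ⟨1, by simp⟩
  -- coordinates
  have hcoord : ∀ z ∈ L.lattice, ∃ m n : ℤ, z.re = m * (α / 2) ∧ z.im = n * (β / 2) ∧
      m ≡ n [ZMOD 2] := by
    intro z hz
    obtain ⟨m, hm⟩ := (hαL _).mp (hre z hz)
    obtain ⟨n, hn⟩ := (hβL _).mp (him z hz)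
    refine ⟨m, n, by linarith, by linarith, ?_⟩
    rcases Int.even_or_odd m with hme | hmo
    · -- m even: subtract (m/2) α
      obtain ⟨k, rfl⟩ := hme
      have hmem : ((z.im : ℝ) : ℂ) * I ∈ L.lattice := by
        have h1 : (k : ℂ) * α ∈ L.lattice := by
          have := L.lattice.smul_mem k hαmem
          simpa using this
        have h3 : z - (k : ℂ) * α = ((z.im : ℝ) : ℂ) * I := by
          apply Complex.ext
          · simp
            have : 2 * z.re = (k + k) * α := by exact_mod_cast hm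
            linarith
          · simp
        rw [← h3]
        exact L.lattice.sub_mem hz h1
      obtain ⟨j, hj⟩ := (hβL _).mp hmem
      have : (n : ℝ) * β = (2 * j) * β := by rw [← hn, hj]; ring
      have hnj : (n : ℝ) = 2 * j := mul_right_cancel₀ hβ.ne' this
      have hnj' : n = 2 * j := by exact_mod_cast hnj
      rw [hnj']
      exact (Int.modEq_iff_dvd.mpr ⟨j - k, by ring⟩)
    · rcases Int.even_or_odd n with hne | hno
      · obtain ⟨k, rfl⟩ := hne
        have hmem : ((z.re : ℝ) : ℂ) * 1 ∈ L.lattice := by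
          have h1 : (k : ℂ) * (β * I) ∈ L.lattice := by
            have := L.lattice.smul_mem k hβmem
            simpa using this
          have h3 : z - (k : ℂ) * (β * I) = ((z.re : ℝ) : ℂ) * 1 := by
            apply Complex.ext
            · simp
            · simp
              have : 2 * z.im = (k + k) * β := by exact_mod_cast hn
              linarith
          rw [← h3]
          exact L.lattice.sub_mem hz h1
        obtain ⟨j, hj⟩ := (hαL _).mp hmem
        have : (m : ℝ) * α = (2 * j) * α := by rw [← hm, hj]; ring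
        have hmj : (m : ℝ) = 2 * j := mul_right_cancel₀ hα.ne' this
        have hmj' : m = 2 * j := by exact_mod_cast hmj
        rw [hmj'] at hmo
        exact absurd hmo (by simp)
      · obtain ⟨a, rfl⟩ := hmo
        obtain ⟨b, rfl⟩ := hno
        exact (Int.modEq_iff_dvd.mpr ⟨b - a, by ring⟩)
  by_cases hodd : ∃ z ∈ L.lattice, ∃ m n : ℤ, z.re = m * (α / 2) ∧ z.im = n * (β / 2) ∧ Odd m ∧ Odd n
  · obtain ⟨w, hw, m, n, hwm, hwn, ⟨p, rfl⟩, ⟨q, rfl⟩⟩ := hodd
    -- (α + iβ)/2 is in L
    have hhalf : ((α / 2 : ℝ) : ℂ) + ((β / 2 : ℝ) : ℂ) * I ∈ L.lattice := by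
      have h1 : (p : ℂ) * α ∈ L.lattice := by
        have := L.lattice.smul_mem p hαmem
        simpa using this
      have h3 : (q : ℂ) * (β * I) ∈ L.lattice := by
        have := L.lattice.smul_mem q hβmem
        simpa using this
      have h4 : w - (p : ℂ) * α - (q : ℂ) * (β * I) =
          ((α / 2 : ℝ) : ℂ) + ((β / 2 : ℝ) : ℂ) * I := by
        apply Complex.ext
        · simp [hwm]; ring
        · simp [hwn]; ring
      rw [← h4]
      exact L.lattice.sub_mem (L.lattice.sub_mem hw h1) h3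
    refine ⟨α / 2, β / 2, by positivity, by positivity, fun z => ⟨fun hz => ?_, ?_⟩⟩
    · obtain ⟨m, n, hm, hn, hmn⟩ := hcoord z hz
      refine ⟨m, n, hmn, ?_⟩
      apply Complex.ext
      · simp [hm]
      · simp [hn]
    · rintro ⟨a, b, hab, rfl⟩
      obtain ⟨c, hc⟩ := hab.dvd
      have hb : b = a + 2 * c := by linarith
      have h1 : (a : ℂ) * (((α / 2 : ℝ) : ℂ) + ((β / 2 : ℝ) : ℂ) * I) ∈ L.lattice := by
        have := L.lattice.smul_mem a hhalf
        rwa [zsmul_eq_mul] at this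
      have h3 : (c : ℂ) * (β * I) ∈ L.lattice := by
        have := L.lattice.smul_mem c hβmem
        simpa using this
      have h4 : (a : ℂ) * ((α / 2 : ℝ) : ℂ) + (b : ℂ) * ((β / 2 : ℝ) : ℂ) * I =
          (a : ℂ) * (((α / 2 : ℝ) : ℂ) + ((β / 2 : ℝ) : ℂ) * I) + (c : ℂ) * (β * I) := by
        rw [hb]; push_cast; ring
      rw [h4]
      exact L.lattice.add_mem h1 h3
  · exfalso
    refine rect_false L hconj g₂ g₃ e he hpos h2 h3 α β hα hαmem hβmem fun x hx => ?_
    obtain ⟨m, n, hm, hn, hmn⟩ := hcoord _ hx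
    have hn1 : n = 1 := by
      have : (1 : ℝ) * (β / 2) = n * (β / 2) := by
        rw [← hn]; simp
      have := mul_right_cancel₀ (by positivity : β / 2 ≠ 0) this
      exact_mod_cast this.symm
    apply hodd
    refine ⟨_, hx, m, n, hm, hn, ?_, by rw [hn1]; exact odd_one⟩
    rw [hn1] at hmn
    exact Int.odd_iff.mpr hmn

end WP63
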