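import Pool.Agent.MP_9ab903_nt.NT.W2

/-!
# The real period
-/

set_option autoImplicit false

open PeriodPair Filter Complex MeasureTheory
open scoped Topology

namespace WP63

open MP9c45e8

/-- The data of a real curve with one real component: the lattice is
`{a Ωp + b Ωm i : a ≡ b mod 2}`, `g₂` and `g₃` are real and `e` is the real root of the cubic. -/
structure RealData (L : PeriodPair) (g₂ g₃ e Ωp Ωm : ℝ) : Prop where
  h2 : L.g₂ = g₂
  h3 : L.g₃ = g₃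
  root : 4 * e ^ 3 - g₂ * e - g₃ = 0
  pos : ∀ y : ℝ, 0 < y ^ 2 + e * y + (e ^ 2 - g₂ / 4)
  p0 : 0 < Ωp
  m0 : 0 < Ωm
  mem : ∀ z : ℂ, z ∈ L.lattice ↔ ∃ a b : ℤ, a ≡ b [ZMOD 2] ∧ z = a * Ωp + b * Ωm * I

theorem exists_realData (g₂ g₃ e : ℝ) (n2 : g₂ ≠ 0) (n3 : g₃ ≠ 0)
    (hne : g₂ ^ 3 ≠ 27 * g₃ ^ 2)
    (he : 4 * e ^ 3 - g₂ * e - g₃ = 0) (hpos : ∀ y : ℝ, 0 < y ^ 2 + e * y + (e ^ 2 - g₂ / 4)) :
    ∃ (L : PeriodPair) (Ωp Ωm : ℝ), RealData L g₂ g₃ e Ωp Ωm := by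
  obtain ⟨L, h2, h3⟩ := exists_periodPair (g₂ : ℂ) (g₃ : ℂ) (by exact_mod_cast n2)
    (by exact_mod_cast n3) (by exact_mod_cast hne)
  obtain ⟨Ωp, Ωm, h4, h5, h6⟩ := lattice_shape L (lattice_conj L g₂ g₃ h2 h3) g₂ g₃ e he hpos h2 h3
  exact ⟨L, Ωp, Ωm, h2, h3, he, hpos, h4, h5, h6⟩

namespace RealData

variable {L : PeriodPair} {g₂ g₃ e Ωp Ωm : ℝ} (D : RealData L g₂ g₃ e Ωp Ωm)

include D

theorem ofReal_mem (t : ℝ) : (t : ℂ) ∈ L.lattice ↔ ∃ n : ℤ, t = n * (2 * Ωp) := by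
  rw [D.mem]
  constructor
  · rintro ⟨a, b, hab, h⟩
    have him := congrArg Complex.im h
    have hre := congrArg Complex.re h
    simp at him hre
    have hb : b = 0 := by
      rcases him with h1 | h1
      · exact h1
      · exact absurd h1 D.m0.ne'
    subst hb
    obtain ⟨c, hc⟩ := hab.dvd
    refine ⟨-c, ?_⟩
    have : a = -(2 * c) := by linarith
    rw [hre, this]; push_cast; ring
  · rintro ⟨n, rfl⟩
    exact ⟨2 * n, 0, (Int.modEq_iff_dvd.mpr ⟨-n, by ring⟩), by push_cast; ring⟩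

theorem real_not_mem (t : ℝ) (h0 : 0 < t) (h1 : t < 2 * Ωp) : (t : ℂ) ∉ L.lattice := by
  rw [D.ofReal_mem]
  rintro ⟨n, rfl⟩
  have hp := D.p0
  have a1 : (0 : ℝ) < n := by
    by_contra hcon
    push Not at hcon
    nlinarith
  have a2 : (n : ℝ) < 1 := by
    by_contra hcon
    push Not at hcon
    nlinarith
  have a3 : 0 < n := by exact_mod_cast a1
  have a4 : n < 1 := by exact_mod_cast a2
  omega

theorem conj_mem : ∀ z ∈ L.lattice, (starRingEnd ℂ) z ∈ L.lattice :=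
  lattice_conj L g₂ g₃ D.h2 D.h3

theorem wp_real (t : ℝ) : ((℘[L] t).re : ℂ) = ℘[L] t := by
  rw [← Complex.conj_eq_iff_re, conj_weierstrassP L D.conj_mem, Complex.conj_ofReal]

theorem dwp_real (t : ℝ) : ((℘'[L] t).re : ℂ) = ℘'[L] t := by
  rw [← Complex.conj_eq_iff_re, conj_derivWeierstrassP L D.conj_mem, Complex.conj_ofReal]

theorem ode (t : ℝ) (h0 : 0 < t) (h1 : t < 2 * Ωp) :
    (℘'[L] t).re ^ 2 = 4 * (℘[L] t).re ^ 3 - g₂ * (℘[L] t).re - g₃ := by
  have h := L.derivWeierstrassP_sq t (D.real_not_mem t h0 h1)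
  rw [← D.wp_real, ← D.dwp_real, D.h2, D.h3] at h
  exact_mod_cast h

theorem cubic_eq (x : ℝ) : 4 * x ^ 3 - g₂ * x - g₃ =
    4 * (x - e) * (x ^ 2 + e * x + (e ^ 2 - g₂ / 4)) := by
  linear_combination D.root

theorem cubic_pos_iff (x : ℝ) : 0 < 4 * x ^ 3 - g₂ * x - g₃ ↔ e < x := by
  rw [D.cubic_eq]
  have := D.pos x
  constructor
  · intro h
    by_contra hcon
    push Not at hcon
    have : 4 * (x - e) * (x ^ 2 + e * x + (e ^ 2 - g₂ / 4)) ≤ 0 :=
      mul_nonpos_of_nonpos_of_nonneg (by linarith) this.le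
    linarith
  · intro h
    exact mul_pos (by linarith) this

theorem deriv_re (t : ℝ) (h0 : 0 < t) (h1 : t < 2 * Ωp) :
    HasDerivAt (fun t : ℝ => (℘[L] (t : ℂ)).re) (℘'[L] t).re t :=
  (hasDerivAt_wp L (D.real_not_mem t h0 h1)).real_of_complex

theorem dwp_ne (t : ℝ) (h0 : 0 < t) (h1 : t < Ωp) : (℘'[L] t).re ≠ 0 := by
  intro h
  have h4 : ℘'[L] (t : ℂ) = 0 := by rw [← D.dwp_real, h, Complex.ofReal_zero]
  rw [dwp_eq_zero_iff L (D.real_not_mem t h0 (by linarith [D.p0]))] at h4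
  rw [show 2 * (t : ℂ) = ((2 * t : ℝ) : ℂ) by push_cast; ring] at h4
  exact D.real_not_mem (2 * t) (by linarith) (by linarith) h4

theorem dwp_half : (℘'[L] (Ωp : ℂ)).re = 0 := by
  have h : (Ωp : ℂ) ∉ L.lattice := D.real_not_mem Ωp D.p0 (by linarith [D.p0])
  have h4 : ℘'[L] (Ωp : ℂ) = 0 := by
    rw [dwp_eq_zero_iff L h, show 2 * (Ωp : ℂ) = ((2 * Ωp : ℝ) : ℂ) by push_cast; ring,
      D.ofReal_mem]
    exact ⟨1, by simp⟩
  rw [h4, Complex.zero_re]

theorem injOn : Set.InjOn (fun t : ℝ => (℘[L] (t : ℂ)).re) (Set.Ioo 0 Ωp) := by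
  intro s hs t ht hst
  have hp := D.p0
  have h1 : ℘[L] (s : ℂ) = ℘[L] (t : ℂ) := by
    rw [← D.wp_real s, ← D.wp_real t]
    exact congrArg _ hst
  rw [wp_eq_iff L (D.real_not_mem s hs.1 (by linarith [hs.2]))
    (D.real_not_mem t ht.1 (by linarith [ht.2]))] at h1
  rcases h1 with h1 | h1
  · rw [← Complex.ofReal_sub, D.ofReal_mem] at h1
    obtain ⟨n, hn⟩ := h1
    have a1 : (-1:ℝ) < n := by
      by_contra hcon
      push Not at hcon
      nlinarith [hs.1, ht.2]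
    have a2 : (n:ℝ) < 1 := by
      by_contra hcon
      push Not at hcon
      nlinarith [hs.2, ht.1]
    have a3 : -1 < n := by exact_mod_cast a1
    have a4 : n < 1 := by exact_mod_cast a2
    have a5 : n = 0 := by omega
    rw [a5] at hn
    simp at hn
    linarith
  · rw [← Complex.ofReal_add] at h1
    exact absurd h1 (D.real_not_mem _ (by linarith [hs.1, ht.1]) (by linarith [hs.2, ht.2]))

theorem tendsto_re : Tendsto (fun t : ℝ => (℘[L] (t : ℂ)).re) (𝓝[>] 0) atTop := by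
  have h1 : Tendsto (fun t : ℝ => (t : ℂ)) (𝓝[>] 0) (𝓝[≠] 0) := by
    rw [tendsto_nhdsWithin_iff]
    constructor
    · have : Tendsto (fun t : ℝ => (t : ℂ)) (𝓝 0) (𝓝 ((0:ℝ):ℂ)) :=
        Complex.continuous_ofReal.tendsto 0
      rw [Complex.ofReal_zero] at this
      exact this.mono_left nhdsWithin_le_nhds
    · filter_upwards [self_mem_nhdsWithin] with t ht
      have ht' : (0:ℝ) < t := ht
      simp [ht'.ne']
  have h2 := (tendsto_sq_mul_weierstrassP L).comp h1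
  have h3 : Tendsto (fun t : ℝ => t ^ 2 * (℘[L] (t : ℂ)).re) (𝓝[>] 0) (𝓝 1) := by
    have h4 := (Complex.continuous_re.tendsto _).comp h2
    rw [Complex.one_re] at h4
    refine h4.congr fun t => ?_
    simp only [Function.comp_apply]
    rw [← D.wp_real t, show (t:ℂ) ^ 2 * ((℘[L] (t : ℂ)).re : ℂ) =
        ((t ^ 2 * (℘[L] (t : ℂ)).re : ℝ) : ℂ) by push_cast; ring]
    rw [Complex.ofReal_re, Complex.ofReal_re]
  have h7 : Tendsto (fun t : ℝ => (t ^ 2)⁻¹) (𝓝[>] 0) atTop := by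
    refine Tendsto.inv_tendsto_nhdsGT_zero ?_
    rw [tendsto_nhdsWithin_iff]
    constructor
    · have : Tendsto (fun t : ℝ => t ^ 2) (𝓝 0) (𝓝 (0 ^ 2)) := (continuous_pow 2).tendsto 0
      rw [zero_pow two_ne_zero] at this
      exact this.mono_left nhdsWithin_le_nhds
    · filter_upwards [self_mem_nhdsWithin] with t ht
      have ht' : (0:ℝ) < t := ht
      exact pow_pos ht' 2
  have h8 := h7.atTop_mul_pos one_pos h3
  refine h8.congr' ?_
  filter_upwards [self_mem_nhdsWithin] with t ht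
  have ht' : (0:ℝ) < t := ht
  field_simp

theorem image_eq : (fun t : ℝ => (℘[L] (t : ℂ)).re) '' (Set.Ioo 0 Ωp) =
    {x : ℝ | 0 < 4 * x ^ 3 - g₂ * x - g₃} := by
  have hp := D.p0
  ext x
  constructor
  · rintro ⟨t, ht, rfl⟩
    simp only [Set.mem_ofPred_eq]
    rw [← D.ode t ht.1 (by linarith [ht.2])]
    have := D.dwp_ne t ht.1 ht.2
    positivity
  · intro hx
    simp only [Set.mem_ofPred_eq] at hx
    have hx' := (D.cubic_pos_iff x).1 hx
    -- value at the end point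
    have hend : (℘[L] (Ωp : ℂ)).re = e := by
      have h := D.ode Ωp hp (by linarith)
      rw [D.dwp_half, D.cubic_eq] at h
      have h1 := D.pos (℘[L] (Ωp : ℂ)).re
      have h2 : 4 * ((℘[L] (Ωp : ℂ)).re - e) = 0 := by
        have := h.symm
        rw [zero_pow two_ne_zero] at this
        exact (mul_eq_zero.1 this).resolve_right h1.ne'
      linarith
    obtain ⟨s, hs1, hs2⟩ : ∃ s : ℝ, s ∈ Set.Ioo 0 Ωp ∧ x < (℘[L] (s : ℂ)).re := by
      have e1 := D.tendsto_re.eventually_gt_atTop x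
      have e2 : ∀ᶠ s : ℝ in 𝓝[>] 0, s ∈ Set.Ioo 0 Ωp := Ioo_mem_nhdsGT hp
      obtain ⟨s, h1, h2⟩ := (e1.and e2).exists
      exact ⟨s, h2, h1⟩
    have hcont : ContinuousOn (fun t : ℝ => (℘[L] (t : ℂ)).re) (Set.Icc s Ωp) := by
      intro t ht
      exact (D.deriv_re t (by linarith [hs1.1, ht.1]) (by linarith [ht.2])).continuousAt
        |>.continuousWithinAt
    have := intermediate_value_Icc' hs1.2.le hcont
    obtain ⟨t, ht, htx⟩ := this ⟨by rw [hend]; exact hx'.le, hs2.le⟩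
    refine ⟨t, ⟨by linarith [hs1.1, ht.1], lt_of_le_of_ne ht.2 ?_⟩, htx⟩
    rintro rfl
    simp only at htx
    rw [hend] at htx
    linarith

/-- The real period. -/
theorem real_integral : ∫ x in {x : ℝ | 0 < 4 * x ^ 3 - g₂ * x - g₃},
    2 / √(4 * x ^ 3 - g₂ * x - g₃) = 2 * Ωp := by
  have hp := D.p0
  rw [← D.image_eq, integral_image_eq_integral_abs_deriv_smul measurableSet_Ioo
    (f' := fun t : ℝ => (℘'[L] (t : ℂ)).re)
    (fun t ht => (D.deriv_re t ht.1 (by linarith [ht.2])).hasDerivWithinAt) D.injOn]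
  have h1 : ∀ t ∈ Set.Ioo (0:ℝ) Ωp, |(℘'[L] (t : ℂ)).re| •
      (2 / √(4 * (℘[L] (t : ℂ)).re ^ 3 - g₂ * (℘[L] (t : ℂ)).re - g₃)) = 2 := by
    intro t ht
    rw [← D.ode t ht.1 (by linarith [ht.2]), Real.sqrt_sq_eq_abs, smul_eq_mul]
    have := abs_pos.2 (D.dwp_ne t ht.1 ht.2)
    field_simp
  rw [setIntegral_congr_fun measurableSet_Ioo h1, setIntegral_const]
  simp only [measureReal_def, Real.volume_Ioo, smul_eq_mul]
  rw [ENNReal.toReal_ofReal (by linarith)]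
  ring

end RealData

end WP63
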