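import Pool.Agent.MP_9ab903_nt.NT.W3

/-!
# The area of a complex curve
-/

set_option autoImplicit false

open PeriodPair Filter Complex MeasureTheory
open scoped Topology

namespace WP63

open MP9c45e8

theorem line_null (u v c : ℝ) (h : u ≠ 0 ∨ v ≠ 0) :
    volume {z : ℂ | u * z.re + v * z.im = c} = 0 := by
  let f : ℂ →ₗ[ℝ] ℝ := u • Complex.reLm + v • Complex.imLm
  have hf : ∀ z : ℂ, f z = u * z.re + v * z.im := fun z => by simp [f]
  by_cases hne : ∃ p : ℂ, f p = c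
  · obtain ⟨p, hp⟩ := hne
    have h1 : {z : ℂ | u * z.re + v * z.im = c} =
        ((AffineSubspace.mk' p (LinearMap.ker f) : AffineSubspace ℝ ℂ) : Set ℂ) := by
      ext z
      rw [SetLike.mem_coe, AffineSubspace.mem_mk', vsub_eq_sub, LinearMap.mem_ker, map_sub, hp,
        sub_eq_zero, hf]
      rfl
    rw [h1]
    refine Measure.addHaar_affineSubspace volume _ fun htop => ?_
    have h2 := congrArg AffineSubspace.direction htop
    rw [AffineSubspace.direction_mk', AffineSubspace.direction_top, LinearMap.ker_eq_top] at h2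
    rcases h with h | h
    · apply h
      have := congrArg (fun g : ℂ →ₗ[ℝ] ℝ => g 1) h2
      simp only [LinearMap.zero_apply] at this
      rw [hf] at this
      simpa using this
    · apply h
      have := congrArg (fun g : ℂ →ₗ[ℝ] ℝ => g Complex.I) h2
      simp only [LinearMap.zero_apply] at this
      rw [hf] at this
      simpa using this
  · have h1 : {z : ℂ | u * z.re + v * z.im = c} = ∅ := by
      ext z
      simp only [Set.mem_ofPred_eq, Set.mem_empty_iff_false, iff_false]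
      rw [← hf]
      exact fun h2 => hne ⟨z, h2⟩
    rw [h1, measure_empty]

theorem volume_rect (a b : ℝ) (ha : 0 ≤ a) :
    volume {z : ℂ | 0 < z.re ∧ z.re < a ∧ 0 < z.im ∧ z.im < b} = ENNReal.ofReal (a * b) := by
  have h1 := Complex.volume_preserving_equiv_real_prod.measure_preimage
    (s := Set.Ioo 0 a ×ˢ Set.Ioo 0 b) (measurableSet_Ioo.prod measurableSet_Ioo).nullMeasurableSet
  rw [Measure.volume_eq_prod, Measure.prod_prod, Real.volume_Ioo, Real.volume_Ioo, sub_zero,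
    sub_zero, ← ENNReal.ofReal_mul ha] at h1
  rw [← h1]
  congr 1
  ext z
  simp only [Set.mem_ofPred_eq, Set.mem_preimage, Complex.measurableEquivRealProd_apply,
    Set.mem_prod, Set.mem_Ioo]
  tauto

theorem det_smulRight (c : ℂ) :
    (((1 : ℂ →L[ℂ] ℂ).smulRight c).restrictScalars ℝ : ℂ →L[ℝ] ℂ).det = ‖c‖ ^ 2 := by
  simp [ContinuousLinearMap.det, LinearMap.det_restrictScalars,
      Algebra.norm_complex_eq, Complex.normSq_eq_norm_sq]

namespace RealData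

variable {L : PeriodPair} {g₂ g₃ e Ωp Ωm : ℝ} (D : RealData L g₂ g₃ e Ωp Ωm)

/-- a fundamental domain for `L` and `±1` -/
def SS (Ωp Ωm : ℝ) : Set ℂ := {z | 0 < z.re ∧ z.re < 2 * Ωp ∧ 0 < z.im ∧ z.im < Ωm / 2}

theorem SS_open (Ωp Ωm : ℝ) : IsOpen (SS Ωp Ωm) := by
  have h1 : IsOpen {z : ℂ | 0 < z.re} := isOpen_lt continuous_const Complex.continuous_re
  have h2 : IsOpen {z : ℂ | z.re < 2 * Ωp} := isOpen_lt Complex.continuous_re continuous_const
  have h3 : IsOpen {z : ℂ | 0 < z.im} := isOpen_lt continuous_const Complex.continuous_im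
  have h4 : IsOpen {z : ℂ | z.im < Ωm / 2} := isOpen_lt Complex.continuous_im continuous_const
  exact h1.inter (h2.inter (h3.inter h4))

include D

theorem mem_coords {z : ℂ} (h : z ∈ L.lattice) :
    ∃ a b : ℤ, a ≡ b [ZMOD 2] ∧ z.re = a * Ωp ∧ z.im = b * Ωm := by
  obtain ⟨a, b, hab, rfl⟩ := (D.mem z).1 h
  exact ⟨a, b, hab, by simp, by simp⟩

theorem int_zero_of_lt {r : ℝ} (hr : 0 < r) (n : ℤ) (h1 : -r < n * r) (h2 : n * r < r) : n = 0 := by
  have a1 : (-1:ℝ) < n := by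
    by_contra hcon
    push Not at hcon
    nlinarith
  have a2 : (n:ℝ) < 1 := by
    by_contra hcon
    push Not at hcon
    nlinarith
  have a3 : -1 < n := by exact_mod_cast a1
  have a4 : n < 1 := by exact_mod_cast a2
  omega

theorem SS_two_im {z : ℂ} (hz : z ∈ SS Ωp Ωm) : 2 * z ∉ L.lattice := by
  intro h
  obtain ⟨a, b, -, -, h2⟩ := D.mem_coords h
  obtain ⟨-, -, h3, h4⟩ := hz
  simp at h2
  have hb := D.int_zero_of_lt D.m0 b (by linarith) (by linarith)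
  rw [hb] at h2
  simp at h2
  linarith

theorem SS_not_mem {z : ℂ} (hz : z ∈ SS Ωp Ωm) : z ∉ L.lattice := by
  intro h
  apply D.SS_two_im hz
  rw [two_mul]
  exact L.lattice.add_mem h h

theorem SS_dwp_ne {z : ℂ} (hz : z ∈ SS Ωp Ωm) : ℘'[L] z ≠ 0 := by
  rw [ne_eq, dwp_eq_zero_iff L (D.SS_not_mem hz)]
  exact D.SS_two_im hz

theorem SS_inj : Set.InjOn ℘[L] (SS Ωp Ωm) := by
  intro z hz v hv h
  rw [wp_eq_iff L (D.SS_not_mem hz) (D.SS_not_mem hv)] at h
  obtain ⟨z1, z2, z3, z4⟩ := hz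
  obtain ⟨v1, v2, v3, v4⟩ := hv
  have hp := D.p0
  have hm := D.m0
  rcases h with h | h
  · obtain ⟨a, b, hab, h1, h2⟩ := D.mem_coords h
    rw [Complex.sub_re] at h1
    rw [Complex.sub_im] at h2
    have hb := D.int_zero_of_lt D.m0 b (by linarith) (by linarith)
    subst hb
    obtain ⟨c, hc⟩ := hab.dvd
    have ha : a = -(2 * c) := by linarith
    subst ha
    push_cast at h1
    have hc0 := D.int_zero_of_lt (r := 2 * Ωp) (by linarith) (-c) (by push_cast; linarith)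
      (by push_cast; linarith)
    have hc1 : c = 0 := by omega
    subst hc1
    simp at h1 h2
    exact Complex.ext (by linarith) (by linarith)
  · obtain ⟨a, b, hab, h1, h2⟩ := D.mem_coords h
    rw [Complex.add_im] at h2
    have hb := D.int_zero_of_lt D.m0 b (by linarith) (by linarith)
    subst hb
    simp at h2
    linarith

omit D in
/-- the lines `re ∈ Ωp ℤ` and `2 im ∈ Ωm ℤ` -/
def TT (Ωp Ωm : ℝ) : Set ℂ := {z | (∃ n : ℤ, z.re = n * Ωp) ∨ ∃ n : ℤ, 2 * z.im = n * Ωm}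

omit D in
theorem TT_null (Ωp Ωm : ℝ) : volume (TT Ωp Ωm) = 0 := by
  have h1 : TT Ωp Ωm ⊆ (⋃ n : ℤ, {z : ℂ | 1 * z.re + 0 * z.im = n * Ωp}) ∪
      (⋃ n : ℤ, {z : ℂ | 0 * z.re + 2 * z.im = n * Ωm}) := by
    rintro z (⟨n, hn⟩ | ⟨n, hn⟩)
    · left
      refine Set.mem_iUnion.2 ⟨n, ?_⟩
      simp only [Set.mem_ofPred_eq]
      rw [← hn]
      ring
    · right
      refine Set.mem_iUnion.2 ⟨n, ?_⟩
      simp only [Set.mem_ofPred_eq]
      rw [← hn]
      ring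
  refine measure_mono_null h1 (measure_union_null (measure_iUnion_null fun n => ?_)
    (measure_iUnion_null fun n => ?_))
  · exact line_null _ _ _ (Or.inl one_ne_zero)
  · exact line_null _ _ _ (Or.inr two_ne_zero)

theorem two_Op_mem (n : ℤ) : ((n * (2 * Ωp) : ℝ) : ℂ) ∈ L.lattice :=
  (D.ofReal_mem _).2 ⟨n, rfl⟩

theorem diag_mem (n : ℤ) : (n : ℂ) * Ωp + n * Ωm * I ∈ L.lattice :=
  (D.mem _).2 ⟨n, n, rfl, rfl⟩

/-- reduction of the real part -/
theorem reduce_re (z : ℂ) (hz : ∀ n : ℤ, z.re ≠ n * Ωp) (h3 : 0 < z.im) (h4 : z.im < Ωm / 2) :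
    ∃ l ∈ L.lattice, z + l ∈ SS Ωp Ωm := by
  have hp := D.p0
  set m := ⌊z.re / (2 * Ωp)⌋ with hm
  have a1 : (m:ℝ) ≤ z.re / (2 * Ωp) := Int.floor_le _
  have a2 : z.re / (2 * Ωp) < m + 1 := Int.lt_floor_add_one _
  rw [le_div_iff₀ (by linarith)] at a1
  rw [div_lt_iff₀ (by linarith)] at a2
  have a3 : (m:ℝ) * (2 * Ωp) < z.re := by
    refine lt_of_le_of_ne a1 fun h => hz (2 * m) ?_
    rw [← h]; push_cast; ring
  refine ⟨_, D.two_Op_mem (-m), ?_, ?_, ?_, ?_⟩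
  · rw [Complex.add_re, Complex.ofReal_re]; push_cast; linarith
  · rw [Complex.add_re, Complex.ofReal_re]; push_cast; linarith
  · rw [Complex.add_im, Complex.ofReal_im]; linarith
  · rw [Complex.add_im, Complex.ofReal_im]; linarith

theorem reduce (z : ℂ) (hz : z ∉ TT Ωp Ωm) :
    ∃ v ∈ SS Ωp Ωm, v - z ∈ L.lattice ∨ v + z ∈ L.lattice := by
  have hp := D.p0
  have hm := D.m0
  have hTa : ∀ n : ℤ, z.re ≠ n * Ωp := fun n hn => hz (Or.inl ⟨n, hn⟩)
  have hTb : ∀ n : ℤ, 2 * z.im ≠ n * Ωm := fun n hn => hz (Or.inr ⟨n, hn⟩)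
  set n := ⌊z.im / Ωm⌋ with hn
  have b1 : (n:ℝ) ≤ z.im / Ωm := Int.floor_le _
  have b2 : z.im / Ωm < n + 1 := Int.lt_floor_add_one _
  rw [le_div_iff₀ hm] at b1
  rw [div_lt_iff₀ hm] at b2
  have b3 : (n:ℝ) * Ωm < z.im := by
    refine lt_of_le_of_ne b1 fun h => hTb (2 * n) ?_
    rw [← h]; push_cast; ring
  have b4 : z.im ≠ n * Ωm + Ωm / 2 := by
    intro h
    apply hTb (2 * n + 1)
    rw [h]; push_cast; ring
  rcases lt_or_gt_of_ne b4 with h | h
  · -- `z - (n Ωp + n Ωm i)`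
    obtain ⟨l, hl, hS⟩ := D.reduce_re (z + (((-n : ℤ) : ℂ) * Ωp + ((-n : ℤ) : ℂ) * Ωm * I))
      (fun k hk => hTa (k + n) (by
        simp at hk
        push_cast
        linarith))
      (by simp; linarith) (by simp; linarith)
    refine ⟨_, hS, Or.inl ?_⟩
    have e : z + (((-n : ℤ) : ℂ) * Ωp + ((-n : ℤ) : ℂ) * Ωm * I) + l - z =
      (((-n : ℤ) : ℂ) * Ωp + ((-n : ℤ) : ℂ) * Ωm * I) + l := by ring
    rw [e]
    exact L.lattice.add_mem (D.diag_mem _) hl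
  · obtain ⟨l, hl, hS⟩ := D.reduce_re (-z + (((n + 1 : ℤ) : ℂ) * Ωp + ((n + 1 : ℤ) : ℂ) * Ωm * I))
      (fun k hk => hTa (n + 1 - k) (by
        simp at hk
        push_cast
        linarith))
      (by simp; linarith) (by simp; linarith)
    refine ⟨_, hS, Or.inr ?_⟩
    have e : -z + (((n + 1 : ℤ) : ℂ) * Ωp + ((n + 1 : ℤ) : ℂ) * Ωm * I) + l + z =
      (((n + 1 : ℤ) : ℂ) * Ωp + ((n + 1 : ℤ) : ℂ) * Ωm * I) + l := by ring
    rw [e]
    exact L.lattice.add_mem (D.diag_mem _) hl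

theorem image_compl : (℘[L] '' SS Ωp Ωm)ᶜ ⊆ ℘[L] '' (TT Ωp Ωm \ (L.lattice : Set ℂ)) := by
  intro c hc
  obtain ⟨z, hz, rfl⟩ := wp_surj L c
  by_cases hT : z ∈ TT Ωp Ωm
  · exact ⟨z, ⟨hT, hz⟩, rfl⟩
  · exfalso
    apply hc
    obtain ⟨v, hv, h⟩ := D.reduce z hT
    exact ⟨v, hv, (wp_eq_iff L (D.SS_not_mem hv) hz).2 h⟩

theorem image_null : volume (℘[L] '' SS Ωp Ωm)ᶜ = 0 := by
  refine measure_mono_null D.image_compl ?_
  refine addHaar_image_eq_zero_of_differentiableOn_of_addHaar_eq_zero volume ?_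
    (measure_mono_null Set.sdiff_subset (TT_null Ωp Ωm))
  intro z hz
  exact ((hasDerivAt_wp L hz.2).differentiableAt.restrictScalars ℝ).differentiableWithinAt

/-- The area. -/
theorem complex_integral : ∫ x : ℂ, 1 / ‖4 * x ^ 3 - g₂ * x - g₃‖ = Ωp * Ωm := by
  have hp := D.p0
  have hm := D.m0
  have hmeas : MeasurableSet (SS Ωp Ωm) := (SS_open Ωp Ωm).measurableSet
  have h1 : ∫ t : ℂ, 1 / ‖4 * t ^ 3 - g₂ * t - g₃‖ =
      ∫ t in ℘[L] '' SS Ωp Ωm, 1 / ‖4 * t ^ 3 - g₂ * t - g₃‖ := by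
    rw [Measure.restrict_eq_self_of_ae_mem]
    exact mem_ae_iff.2 D.image_null
  have h2 : ∫ t in ℘[L] '' SS Ωp Ωm, 1 / ‖4 * t ^ 3 - g₂ * t - g₃‖ =
      ∫ z in SS Ωp Ωm, |(((1 : ℂ →L[ℂ] ℂ).smulRight (℘'[L] z)).restrictScalars ℝ :
        ℂ →L[ℝ] ℂ).det| • (1 / ‖4 * (℘[L] z) ^ 3 - g₂ * ℘[L] z - g₃‖) := by
    refine integral_image_eq_integral_abs_det_fderiv_smul volume hmeas (fun z hz => ?_) D.SS_inj _
    exact ((hasDerivAt_wp L (D.SS_not_mem hz)).hasFDerivAt.restrictScalars ℝ).hasFDerivWithinAt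
  have h4 : ∀ z ∈ SS Ωp Ωm, |(((1 : ℂ →L[ℂ] ℂ).smulRight (℘'[L] z)).restrictScalars ℝ :
        ℂ →L[ℝ] ℂ).det| • (1 / ‖4 * (℘[L] z) ^ 3 - g₂ * ℘[L] z - g₃‖) = 1 := by
    intro z hz
    have h5 := L.derivWeierstrassP_sq z (D.SS_not_mem hz)
    rw [D.h2, D.h3] at h5
    rw [det_smulRight, ← h5, norm_pow, smul_eq_mul]
    have := norm_pos_iff.2 (D.SS_dwp_ne hz)
    rw [abs_of_nonneg (by positivity)]
    field_simp
  rw [h1, h2, setIntegral_congr_fun hmeas h4, setIntegral_const, measureReal_def]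
  have h6 : volume (SS Ωp Ωm) = ENNReal.ofReal (2 * Ωp * (Ωm / 2)) :=
    volume_rect (2 * Ωp) (Ωm / 2) (by linarith)
  rw [h6, ENNReal.toReal_ofReal (by positivity), smul_eq_mul]
  ring

end RealData

end WP63
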